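import Mathlib
import Pool.Agent.H75.Perc.RswC

set_option autoImplicit false
open Finset

/-! Expectations for random subsets of a finite set with independent inclusion of the element `e` with
probability `q e`. -/

namespace Pool.Agent.H99.NC

open Pool.Agent.H75.Perc

set_option linter.unusedSectionVars false

variable {α : Type*} [DecidableEq α]

/-- weight of the configuration `ω` in `E` -/
noncomputable def wt (q : α → ℝ) (E ω : Finset α) : ℝ := (∏ e ∈ ω, q e) * ∏ e ∈ E \ ω, (1 - q e)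

/-- expectation -/
noncomputable def Ex (q : α → ℝ) (E : Finset α) (f : Finset α → ℝ) : ℝ :=
  ∑ ω ∈ E.powerset, wt q E ω * f ω

/-- admissible probabilities -/
def Pb (q : α → ℝ) : Prop := ∀ e, 0 ≤ q e ∧ q e ≤ 1

lemma Pb.const {p : ℝ} (h0 : 0 ≤ p) (h1 : p ≤ 1) : Pb (fun _ : α => p) := fun _ => ⟨h0, h1⟩

lemma Pb.compl {q : α → ℝ} (h : Pb q) : Pb (fun e => 1 - q e) := fun e =>
  ⟨by have := (h e).2; linarith, by have := (h e).1; linarith⟩

lemma wt_nonneg {q : α → ℝ} (hq : Pb q) (E ω : Finset α) : 0 ≤ wt q E ω :=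
  mul_nonneg (prod_nonneg fun e _ => (hq e).1) (prod_nonneg fun e _ => by
    have := (hq e).2; linarith)

@[simp] lemma Ex_empty (q : α → ℝ) (f : Finset α → ℝ) : Ex q ∅ f = f ∅ := by
  simp [Ex, wt]

lemma wt_insert0 {q : α → ℝ} {E ω : Finset α} {e : α} (he : e ∉ E) (hω : ω ⊆ E) :
    wt q (insert e E) ω = (1 - q e) * wt q E ω := by
  unfold wt
  have h1 : insert e E \ ω = insert e (E \ ω) := by
    rw [insert_sdiff_of_notMem _ (fun h => he (hω h))]
  rw [h1, prod_insert (fun h => he (mem_sdiff.1 h).1)]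
  ring

lemma wt_insert1 {q : α → ℝ} {E ω : Finset α} {e : α} (he : e ∉ E) (hω : ω ⊆ E) :
    wt q (insert e E) (insert e ω) = q e * wt q E ω := by
  unfold wt
  have h1 : insert e E \ insert e ω = E \ ω := by
    ext x
    simp only [mem_sdiff, mem_insert]
    constructor
    · rintro ⟨h1 | h1, h2⟩
      · exact absurd (Or.inl h1) h2
      · exact ⟨h1, fun h => h2 (Or.inr h)⟩
    · rintro ⟨h1, h2⟩
      refine ⟨Or.inr h1, ?_⟩
      rintro (h | h)
      · rw [h] at h1; exact he h1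
      · exact h2 h
  rw [h1, prod_insert (fun h => he (hω h))]
  ring

lemma Ex_insert (q : α → ℝ) {E : Finset α} {e : α} (he : e ∉ E) (f : Finset α → ℝ) :
    Ex q (insert e E) f = (1 - q e) * Ex q E f + q e * Ex q E (fun ω => f (insert e ω)) := by
  unfold Ex
  rw [sum_powerset_insert he, mul_sum, mul_sum]
  congr 1
  · refine sum_congr rfl fun ω hω => ?_
    rw [wt_insert0 he (mem_powerset.1 hω)]
    ring
  · refine sum_congr rfl fun ω hω => ?_
    rw [wt_insert1 he (mem_powerset.1 hω)]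
    ring

lemma Ex_add (q : α → ℝ) (E : Finset α) (f g : Finset α → ℝ) :
    Ex q E (fun ω => f ω + g ω) = Ex q E f + Ex q E g := by
  unfold Ex
  rw [← sum_add_distrib]
  exact sum_congr rfl fun ω _ => by ring

lemma Ex_sub (q : α → ℝ) (E : Finset α) (f g : Finset α → ℝ) :
    Ex q E (fun ω => f ω - g ω) = Ex q E f - Ex q E g := by
  unfold Ex
  rw [← sum_sub_distrib]
  exact sum_congr rfl fun ω _ => by ring

lemma Ex_smul (q : α → ℝ) (E : Finset α) (c : ℝ) (f : Finset α → ℝ) :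
    Ex q E (fun ω => c * f ω) = c * Ex q E f := by
  unfold Ex
  rw [mul_sum]
  exact sum_congr rfl fun ω _ => by ring

lemma Ex_smul' (q : α → ℝ) (E : Finset α) (c : ℝ) (f : Finset α → ℝ) :
    Ex q E (fun ω => f ω * c) = Ex q E f * c := by
  rw [mul_comm, ← Ex_smul]
  unfold Ex
  exact sum_congr rfl fun ω _ => by ring

lemma Ex_sum {ι : Type*} (q : α → ℝ) (E : Finset α) (s : Finset ι) (f : ι → Finset α → ℝ) :
    Ex q E (fun ω => ∑ i ∈ s, f i ω) = ∑ i ∈ s, Ex q E (f i) := by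
  unfold Ex
  rw [sum_comm]
  exact sum_congr rfl fun ω _ => by rw [mul_sum]

lemma Ex_congr {q : α → ℝ} {E : Finset α} {f g : Finset α → ℝ} (h : ∀ ω, ω ⊆ E → f ω = g ω) :
    Ex q E f = Ex q E g :=
  sum_congr rfl fun ω hω => by rw [h ω (mem_powerset.1 hω)]

lemma Ex_mono {q : α → ℝ} (hq : Pb q) {E : Finset α} {f g : Finset α → ℝ}
    (h : ∀ ω, ω ⊆ E → f ω ≤ g ω) : Ex q E f ≤ Ex q E g :=
  sum_le_sum fun ω hω => mul_le_mul_of_nonneg_left (h ω (mem_powerset.1 hω)) (wt_nonneg hq _ _)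

lemma Ex_nonneg {q : α → ℝ} (hq : Pb q) {E : Finset α} {f : Finset α → ℝ}
    (h : ∀ ω, ω ⊆ E → 0 ≤ f ω) : 0 ≤ Ex q E f :=
  sum_nonneg fun ω hω => mul_nonneg (wt_nonneg hq _ _) (h ω (mem_powerset.1 hω))

@[simp] lemma Ex_const (q : α → ℝ) (E : Finset α) (c : ℝ) : Ex q E (fun _ => c) = c := by
  induction E using Finset.induction_on with
  | empty => simp
  | insert e E he ih => rw [Ex_insert q he, ih]; ring

lemma Ex_congr_q {q q' : α → ℝ} {E : Finset α} (h : ∀ e ∈ E, q e = q' e) (f : Finset α → ℝ) :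
    Ex q E f = Ex q' E f := by
  refine sum_congr rfl fun ω hω => ?_
  rw [mem_powerset] at hω
  unfold wt
  rw [prod_congr rfl (fun e he => h e (hω he)),
    prod_congr (s₁ := E \ ω) rfl (fun e he => by rw [h e (mem_sdiff.1 he).1])]

/-- Fubini for disjoint sets. -/
lemma Ex_union (q : α → ℝ) {E1 E2 : Finset α} (hd : Disjoint E1 E2) (f : Finset α → ℝ) :
    Ex q (E1 ∪ E2) f = Ex q E1 (fun ω1 => Ex q E2 (fun ω2 => f (ω1 ∪ ω2))) := by
  induction E1 using Finset.induction_on generalizing f with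
  | empty => simp
  | insert e E1 he ih =>
    rw [disjoint_insert_left] at hd
    have h1 : e ∉ E1 ∪ E2 := by
      rw [mem_union, not_or]
      exact ⟨he, hd.1⟩
    rw [insert_union, Ex_insert q h1, Ex_insert q he, ih hd.2, ih hd.2]
    simp only [insert_union]

lemma Ex_split (q : α → ℝ) {E E1 : Finset α} (h : E1 ⊆ E) (f : Finset α → ℝ) :
    Ex q E f = Ex q E1 (fun ω1 => Ex q (E \ E1) (fun ω2 => f (ω1 ∪ ω2))) := by
  rw [← Ex_union q disjoint_sdiff, union_sdiff_of_subset h]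

lemma Ex_swap (q q' : α → ℝ) (E E' : Finset α) (f : Finset α → Finset α → ℝ) :
    Ex q E (fun ω => Ex q' E' (fun ω' => f ω ω')) = Ex q' E' (fun ω' => Ex q E (fun ω => f ω ω')) := by
  unfold Ex
  simp only [mul_sum]
  rw [sum_comm]
  exact sum_congr rfl fun ω _ => sum_congr rfl fun ω' _ => by ring

/-- Restriction. -/
lemma Ex_restrict (q : α → ℝ) {E E1 : Finset α} (h : E1 ⊆ E) (f : Finset α → ℝ) :
    Ex q E (fun ω => f (ω ∩ E1)) = Ex q E1 f := by
  rw [Ex_split q h]
  refine Ex_congr fun ω1 h1 => ?_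
  rw [← Ex_const q (E \ E1) (f ω1)]
  refine Ex_congr fun ω2 h2 => ?_
  congr 1
  ext x
  rw [mem_inter, mem_union]
  constructor
  · rintro ⟨h3 | h3, h4⟩
    · exact h3
    · exact absurd h4 (mem_sdiff.1 (h2 h3)).2
  · intro h3
    exact ⟨Or.inl h3, h1 h3⟩

/-- Independence of the traces on complementary sets. -/
lemma Ex_split_mul (q : α → ℝ) {E E1 : Finset α} (h : E1 ⊆ E) (f g : Finset α → ℝ) :
    Ex q E (fun ω => f (ω ∩ E1) * g (ω \ E1)) = Ex q E1 f * Ex q (E \ E1) g := by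
  rw [Ex_split q h, ← Ex_smul']
  refine Ex_congr fun ω1 h1 => ?_
  rw [← Ex_smul]
  refine Ex_congr fun ω2 h2 => ?_
  have e1 : (ω1 ∪ ω2) ∩ E1 = ω1 := by
    ext x
    rw [mem_inter, mem_union]
    constructor
    · rintro ⟨h3 | h3, h4⟩
      · exact h3
      · exact absurd h4 (mem_sdiff.1 (h2 h3)).2
    · intro h3
      exact ⟨Or.inl h3, h1 h3⟩
  have e2 : (ω1 ∪ ω2) \ E1 = ω2 := by
    ext x
    rw [mem_sdiff, mem_union]
    constructor
    · rintro ⟨h3 | h3, h4⟩
      · exact absurd (h1 h3) h4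
      · exact h3
    · intro h3
      exact ⟨Or.inr h3, (mem_sdiff.1 (h2 h3)).2⟩
  rw [e1, e2]

/-- Independence of the traces on disjoint sets. -/
lemma Ex_indep (q : α → ℝ) {E E1 E2 : Finset α} (h1 : E1 ⊆ E) (h2 : E2 ⊆ E) (hd : Disjoint E1 E2)
    (f g : Finset α → ℝ) :
    Ex q E (fun ω => f (ω ∩ E1) * g (ω ∩ E2)) = Ex q E1 f * Ex q E2 g := by
  have h3 : E2 ⊆ E \ E1 := by
    intro x hx
    rw [mem_sdiff]
    exact ⟨h2 hx, fun h' => (disjoint_left.1 hd) h' hx⟩
  rw [← Ex_restrict q h3 g, ← Ex_split_mul q h1 f (fun ω => g (ω ∩ E2))]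
  refine Ex_congr fun ω _ => ?_
  have : ω \ E1 ∩ E2 = ω ∩ E2 := by
    ext x
    rw [mem_inter, mem_sdiff, mem_inter]
    constructor
    · rintro ⟨⟨h4, _⟩, h5⟩; exact ⟨h4, h5⟩
    · rintro ⟨h4, h5⟩
      exact ⟨⟨h4, fun h' => (disjoint_left.1 hd) h' h5⟩, h5⟩
  rw [this]

/-- Increasing functions. -/
def IncF (f : Finset α → ℝ) : Prop := ∀ ω ω', ω ⊆ ω' → f ω ≤ f ω'

lemma IncF.insert {f : Finset α → ℝ} (h : IncF f) (e : α) : IncF (fun ω => f (insert e ω)) :=
  fun _ _ hω => h _ _ (insert_subset_insert e hω)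

/-- Harris inequality for increasing functions. -/
theorem Ex_harris {q : α → ℝ} (hq : Pb q) (E : Finset α) {f g : Finset α → ℝ} (hf : IncF f)
    (hg : IncF g) : Ex q E f * Ex q E g ≤ Ex q E (fun ω => f ω * g ω) := by
  induction E using Finset.induction_on generalizing f g with
  | empty => simp
  | insert e E he ih =>
    rw [Ex_insert q he, Ex_insert q he, Ex_insert q he]
    have h1 := ih hf hg
    have h2 := ih (hf.insert e) (hg.insert e)
    have h3 : Ex q E f ≤ Ex q E (fun ω => f (insert e ω)) :=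
      Ex_mono hq fun ω _ => hf _ _ (subset_insert e ω)
    have h4 : Ex q E g ≤ Ex q E (fun ω => g (insert e ω)) :=
      Ex_mono hq fun ω _ => hg _ _ (subset_insert e ω)
    have hq0 := (hq e).1
    have hq1 := (hq e).2
    have h5 := mul_nonneg (mul_nonneg hq0 (sub_nonneg.2 hq1))
      (mul_nonneg (sub_nonneg.2 h3) (sub_nonneg.2 h4))
    have h6 := mul_le_mul_of_nonneg_left h1 (sub_nonneg.2 hq1)
    have h7 := mul_le_mul_of_nonneg_left h2 hq0
    nlinarith

/-- Monotonicity in the probabilities. -/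
theorem Ex_mono_q {q q' : α → ℝ} (hq : Pb q) (hq' : Pb q') {E : Finset α}
    (h : ∀ e ∈ E, q e ≤ q' e) {f : Finset α → ℝ} (hf : IncF f) : Ex q E f ≤ Ex q' E f := by
  induction E using Finset.induction_on generalizing f with
  | empty => simp
  | insert e E he ih =>
    rw [Ex_insert q he, Ex_insert q' he]
    have hE : ∀ e ∈ E, q e ≤ q' e := fun x hx => h x (mem_insert_of_mem hx)
    have h1 := ih hE hf
    have h2 := ih hE (hf.insert e)
    have h3 : Ex q E f ≤ Ex q E (fun ω => f (insert e ω)) :=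
      Ex_mono hq fun ω _ => hf _ _ (subset_insert e ω)
    have h4 := h e (mem_insert_self e E)
    have hq0 := (hq' e).1
    have hq1 := (hq' e).2
    nlinarith [mul_nonneg (sub_nonneg.2 h4) (sub_nonneg.2 h3),
      mul_nonneg hq0 (sub_nonneg.2 h2), mul_nonneg (sub_nonneg.2 hq1) (sub_nonneg.2 h1)]

/-- Complementation. -/
theorem Ex_compl (q : α → ℝ) (E : Finset α) (f : Finset α → ℝ) :
    Ex (fun e => 1 - q e) E f = Ex q E (fun ω => f (E \ ω)) := by
  unfold Ex
  refine sum_nbij' (fun ω => E \ ω) (fun ω => E \ ω) ?_ ?_ ?_ ?_ ?_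
  · intro ω _; rw [mem_powerset]; exact sdiff_subset
  · intro ω _; rw [mem_powerset]; exact sdiff_subset
  · intro ω hω; exact Finset.sdiff_sdiff_eq_self (mem_powerset.1 hω)
  · intro ω hω; exact Finset.sdiff_sdiff_eq_self (mem_powerset.1 hω)
  · intro ω hω
    have h1 : E \ (E \ ω) = ω := Finset.sdiff_sdiff_eq_self (mem_powerset.1 hω)
    simp only
    rw [h1]
    unfold wt
    rw [h1]
    simp only [sub_sub_cancel]
    ring

/-- Transport along an injective map. -/
theorem Ex_map {β : Type*} [DecidableEq β] (φ : α ↪ β) (q : β → ℝ) (E : Finset α)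
    (f : Finset β → ℝ) : Ex q (E.map φ) f = Ex (fun e => q (φ e)) E (fun ω => f (ω.map φ)) := by
  induction E using Finset.induction_on generalizing f with
  | empty => simp
  | insert e E he ih =>
    have h1 : φ e ∉ E.map φ := by
      rw [mem_map]
      rintro ⟨x, hx, hxe⟩
      rw [φ.injective hxe] at hx
      exact he hx
    rw [map_insert, Ex_insert q h1, Ex_insert _ he, ih, ih]
    simp only [map_insert]

end Pool.Agent.H99.NC
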