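import Mathlib
import Pool.Agent.H99.NC.ExP

set_option autoImplicit false
open Finset

/-! Probabilities for random subsets with independent inclusion; general densities. The lemmas have
the same names as in `Pool.Agent.H75.Perc.Prob`, with `Pr E` replaced by `PrP q E`. -/

namespace Pool.Agent.H99.NC

open Pool.Agent.H75.Perc

set_option linter.unusedSectionVars false

variable {α : Type*} [DecidableEq α]

open Classical in
/-- indicator -/
noncomputable def ind (P : Prop) : ℝ := if P then 1 else 0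

lemma ind_nonneg (P : Prop) : 0 ≤ ind P := by
  unfold ind; split_ifs <;> norm_num

lemma ind_le_one (P : Prop) : ind P ≤ 1 := by
  unfold ind; split_ifs <;> norm_num

lemma ind_true {P : Prop} (h : P) : ind P = 1 := by unfold ind; rw [if_pos h]

lemma ind_false {P : Prop} (h : ¬ P) : ind P = 0 := by unfold ind; rw [if_neg h]

lemma ind_mono {P Q : Prop} (h : P → Q) : ind P ≤ ind Q := by
  by_cases hP : P
  · rw [ind_true hP, ind_true (h hP)]
  · rw [ind_false hP]; exact ind_nonneg Q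

lemma ind_congr {P Q : Prop} (h : P ↔ Q) : ind P = ind Q := by rw [propext h]

lemma ind_and (P Q : Prop) : ind (P ∧ Q) = ind P * ind Q := by
  by_cases hP : P <;> by_cases hQ : Q <;> simp [ind, hP, hQ]

lemma ind_not (P : Prop) : ind (¬ P) = 1 - ind P := by
  by_cases hP : P <;> simp [ind, hP]

/-- Probability that the random subset of `E` has the property `A`. -/
noncomputable def PrP (q : α → ℝ) (E : Finset α) (A : Finset α → Prop) : ℝ :=
  Ex q E (fun ω => ind (A ω))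

lemma PrP_nonneg {q : α → ℝ} (hq : Pb q) (E : Finset α) (A : Finset α → Prop) : 0 ≤ PrP q E A :=
  Ex_nonneg hq fun _ _ => ind_nonneg _

lemma PrP_mono {q : α → ℝ} (hq : Pb q) {E : Finset α} {A B : Finset α → Prop}
    (h : ∀ ω, ω ⊆ E → A ω → B ω) : PrP q E A ≤ PrP q E B :=
  Ex_mono hq fun ω hω => ind_mono (h ω hω)

lemma PrP_congr {q : α → ℝ} {E : Finset α} {A B : Finset α → Prop}
    (h : ∀ ω, ω ⊆ E → (A ω ↔ B ω)) : PrP q E A = PrP q E B :=
  Ex_congr fun ω hω => ind_congr (h ω hω)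

lemma PrP_le_one {q : α → ℝ} (hq : Pb q) (E : Finset α) (A : Finset α → Prop) : PrP q E A ≤ 1 := by
  have := Ex_mono hq (E := E) (f := fun ω => ind (A ω)) (g := fun _ => 1)
    (fun ω _ => ind_le_one _)
  rwa [Ex_const] at this

@[simp] lemma PrP_true (q : α → ℝ) (E : Finset α) : PrP q E (fun _ => True) = 1 := by
  unfold PrP
  rw [show (fun _ : Finset α => ind True) = fun _ => 1 from funext fun _ => ind_true trivial]
  exact Ex_const q E 1

lemma PrP_not (q : α → ℝ) (E : Finset α) (A : Finset α → Prop) :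
    PrP q E (fun ω => ¬ A ω) = 1 - PrP q E A := by
  unfold PrP
  simp only [ind_not]
  rw [Ex_sub, Ex_const]

lemma PrP_or_le {q : α → ℝ} (hq : Pb q) (E : Finset α) (A B : Finset α → Prop) :
    PrP q E (fun ω => A ω ∨ B ω) ≤ PrP q E A + PrP q E B := by
  unfold PrP
  rw [← Ex_add]
  refine Ex_mono hq fun ω _ => ?_
  by_cases hA : A ω <;> by_cases hB : B ω <;> simp [ind, hA, hB]

lemma PrP_exists_le {ι : Type*} {q : α → ℝ} (hq : Pb q) (E : Finset α) (s : Finset ι)
    (A : ι → Finset α → Prop) :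
    PrP q E (fun ω => ∃ i ∈ s, A i ω) ≤ ∑ i ∈ s, PrP q E (A i) := by
  unfold PrP
  rw [← Ex_sum]
  refine Ex_mono hq fun ω _ => ?_
  by_cases h : ∃ i ∈ s, A i ω
  · obtain ⟨i, hi, hA⟩ := h
    rw [ind_true ⟨i, hi, hA⟩, ← ind_true hA]
    exact single_le_sum (f := fun i => ind (A i ω)) (fun j _ => ind_nonneg _) hi
  · rw [ind_false h]
    exact sum_nonneg fun j _ => ind_nonneg _

lemma PrP_add_disj {q : α → ℝ} {E : Finset α} {A B : Finset α → Prop}
    (h : ∀ ω, ω ⊆ E → A ω → B ω → False) :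
    PrP q E (fun ω => A ω ∨ B ω) = PrP q E A + PrP q E B := by
  unfold PrP
  rw [← Ex_add]
  refine Ex_congr fun ω hω => ?_
  by_cases hA : A ω <;> by_cases hB : B ω
  · exact absurd hB (fun hB => h ω hω hA hB)
  all_goals simp [ind, hA, hB]

/-- Independence of the traces on complementary sets. -/
lemma PrP_split (q : α → ℝ) {E E1 : Finset α} (h : E1 ⊆ E) (A B : Finset α → Prop) :
    PrP q E (fun ω => A (ω ∩ E1) ∧ B (ω \ E1)) = PrP q E1 A * PrP q (E \ E1) B := by
  unfold PrP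
  rw [← Ex_split_mul q h]
  exact Ex_congr fun ω _ => ind_and _ _

/-- Restriction. -/
lemma PrP_restrict (q : α → ℝ) {E E1 : Finset α} (h : E1 ⊆ E) (A : Finset α → Prop) :
    PrP q E (fun ω => A (ω ∩ E1)) = PrP q E1 A :=
  Ex_restrict q h (fun ω => ind (A ω))

/-- Independence of the traces on disjoint sets. -/
lemma PrP_indep (q : α → ℝ) {E E1 E2 : Finset α} (h1 : E1 ⊆ E) (h2 : E2 ⊆ E)
    (hd : Disjoint E1 E2) (A B : Finset α → Prop) :
    PrP q E (fun ω => A (ω ∩ E1) ∧ B (ω ∩ E2)) = PrP q E1 A * PrP q E2 B := by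
  unfold PrP
  rw [← Ex_indep q h1 h2 hd]
  exact Ex_congr fun ω _ => ind_and _ _

/-- An event which depends only on the edges of `F ⊆ E`. -/
lemma PrP_local {q : α → ℝ} {E F : Finset α} (h : F ⊆ E) {A : Finset α → Prop}
    (hA : ∀ ω, ω ⊆ E → (A ω ↔ A (ω ∩ F))) : PrP q E A = PrP q F A := by
  rw [← PrP_restrict q h A]
  exact PrP_congr fun ω hω => hA ω hω

lemma Inc.incF {A : Finset α → Prop} (hA : Inc A) : IncF (fun ω => ind (A ω)) :=
  fun ω ω' h => ind_mono (hA ω ω' h)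

lemma PrP_inc {q : α → ℝ} (hq : Pb q) {E E1 : Finset α} (h : E1 ⊆ E) {A : Finset α → Prop}
    (hA : Inc A) : PrP q E1 A ≤ PrP q E A := by
  rw [← PrP_restrict q h A]
  exact PrP_mono hq fun ω _ h1 => hA _ _ inter_subset_left h1

/-- Harris inequality. -/
theorem PrP_harris {q : α → ℝ} (hq : Pb q) (E : Finset α) {A B : Finset α → Prop} (hA : Inc A)
    (hB : Inc B) : PrP q E A * PrP q E B ≤ PrP q E (fun ω => A ω ∧ B ω) := by
  refine (Ex_harris hq E (Inc.incF hA) (Inc.incF hB)).trans (le_of_eq ?_)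
  exact Ex_congr fun ω _ => (ind_and _ _).symm

/-- Monotonicity in the density. -/
theorem PrP_mono_q {q q' : α → ℝ} (hq : Pb q) (hq' : Pb q') {E : Finset α}
    (h : ∀ e ∈ E, q e ≤ q' e) {A : Finset α → Prop} (hA : Inc A) : PrP q E A ≤ PrP q' E A :=
  Ex_mono_q hq hq' h (Inc.incF hA)

/-- Complementation. -/
theorem PrP_compl (q : α → ℝ) (E : Finset α) (A : Finset α → Prop) :
    PrP (fun e => 1 - q e) E A = PrP q E (fun ω => A (E \ ω)) :=
  Ex_compl q E (fun ω => ind (A ω))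

/-- Transport along an injective map. -/
theorem PrP_map {β : Type*} [DecidableEq β] (φ : α ↪ β) (q : β → ℝ) (E : Finset α)
    (A : Finset β → Prop) : PrP q (E.map φ) A = PrP (fun e => q (φ e)) E (fun ω => A (ω.map φ)) :=
  Ex_map φ q E (fun ω => ind (A ω))

theorem PrP_half (E : Finset α) (A : Finset α → Prop) : PrP (fun _ => 1 / 2) E A = Pr E A := by
  classical
  unfold PrP Ex
  rw [Pr_eq, card_eq_sum_ones, sum_filter]
  push_cast
  rw [sum_div]
  refine sum_congr rfl fun ω hω => ?_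
  have h1 : wt (fun _ => (1 / 2 : ℝ)) E ω = 1 / 2 ^ E.card := by
    unfold wt
    rw [prod_const, prod_const]
    have h2 : (1 - 1 / 2 : ℝ) = 1 / 2 := by norm_num
    rw [h2, ← pow_add, card_sdiff_of_subset (mem_powerset.1 hω)]
    have h3 := card_le_card (mem_powerset.1 hω)
    have h4 : ω.card + (E.card - ω.card) = E.card := by omega
    rw [h4, one_div, one_div, inv_pow]
  rw [h1]
  by_cases hA : A ω <;> simp [ind, hA]

/-! ### Resampling -/

lemma wt_eq {q : α → ℝ} {E ω : Finset α} (h : ω ⊆ E) :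
    wt q E ω = ∏ e ∈ E, (if e ∈ ω then q e else 1 - q e) := by
  unfold wt
  rw [← prod_sdiff h, mul_comm]
  congr 1
  · exact prod_congr rfl fun e he => by rw [if_neg (mem_sdiff.1 he).2]
  · exact prod_congr rfl fun e he => by rw [if_pos he]

lemma mix_subset {U ω ω' E : Finset α} (h : ω ⊆ E) (h' : ω' ⊆ E) : mix U ω ω' ⊆ E := by
  intro e he
  rw [mem_mix] at he
  rcases he with he | he
  · exact h he.1
  · exact h' he.1

lemma wt_mix (q : α → ℝ) {E ω ω' : Finset α} (U : Finset α) (h : ω ⊆ E) (h' : ω' ⊆ E) :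
    wt q E (mix U ω ω') * wt q E (mix U ω' ω) = wt q E ω * wt q E ω' := by
  rw [wt_eq h, wt_eq h', wt_eq (mix_subset h h'), wt_eq (mix_subset h' h), ← prod_mul_distrib,
    ← prod_mul_distrib]
  refine prod_congr rfl fun e _ => ?_
  by_cases hU : e ∈ U
  · have h1 : e ∈ mix U ω ω' ↔ e ∈ ω := by rw [mem_mix]; tauto
    have h2 : e ∈ mix U ω' ω ↔ e ∈ ω' := by rw [mem_mix]; tauto
    simp only [h1, h2]
  · have h1 : e ∈ mix U ω ω' ↔ e ∈ ω' := by rw [mem_mix]; tauto
    have h2 : e ∈ mix U ω' ω ↔ e ∈ ω := by rw [mem_mix]; tauto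
    simp only [h1, h2]
    ring

/-- Resampling outside of a stopping set. -/
theorem Ex_resample (q : α → ℝ) (E : Finset α) (U : Finset α → Finset α)
    (hU : ∀ ω ω', ω ⊆ E → ω' ⊆ E → U (mix (U ω) ω ω') = U ω)
    (G : Finset α → Finset α → ℝ) :
    Ex q E (fun ω => Ex q E (fun ω' => G (mix (U ω) ω ω') (mix (U ω) ω' ω))) =
      Ex q E (fun ω => Ex q E (fun ω' => G ω ω')) := by
  unfold Ex
  simp only [mul_sum]
  rw [← sum_product', ← sum_product']
  refine sum_nbij' (fun p => (mix (U p.1) p.1 p.2, mix (U p.1) p.2 p.1))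
    (fun p => (mix (U p.1) p.1 p.2, mix (U p.1) p.2 p.1)) ?_ ?_ ?_ ?_ ?_
  · intro p hp
    rw [mem_product, mem_powerset, mem_powerset] at hp ⊢
    exact ⟨mix_subset hp.1 hp.2, mix_subset hp.2 hp.1⟩
  · intro p hp
    rw [mem_product, mem_powerset, mem_powerset] at hp ⊢
    exact ⟨mix_subset hp.1 hp.2, mix_subset hp.2 hp.1⟩
  · intro p hp
    rw [mem_product, mem_powerset, mem_powerset] at hp
    simp only
    rw [hU _ _ hp.1 hp.2, mix_mix, mix_mix]
  · intro p hp
    rw [mem_product, mem_powerset, mem_powerset] at hp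
    simp only
    rw [hU _ _ hp.1 hp.2, mix_mix, mix_mix]
  · intro p hp
    rw [mem_product, mem_powerset, mem_powerset] at hp
    simp only
    rw [← mul_assoc, ← mul_assoc, wt_mix q (U p.1) hp.1 hp.2]

/-- The first component only. -/
theorem Ex_resample1 (q : α → ℝ) (E : Finset α) (U : Finset α → Finset α)
    (hU : ∀ ω ω', ω ⊆ E → ω' ⊆ E → U (mix (U ω) ω ω') = U ω) (f : Finset α → ℝ) :
    Ex q E (fun ω => Ex q E (fun ω' => f (mix (U ω) ω ω'))) = Ex q E f := by
  have h := Ex_resample q E U hU (fun ω _ => f ω)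
  simp only [Ex_const] at h
  exact h

/-- Resampling inequality, lower bound. -/
theorem resampleP {q : α → ℝ} (hq : Pb q) (E : Finset α) (U : Finset α → Finset α)
    (hU : ∀ ω ω', ω ⊆ E → ω' ⊆ E → U (mix (U ω) ω ω') = U ω)
    (A B : Finset α → Prop) (Y : Finset α → Finset α → Prop) (c : ℝ)
    (hc : ∀ ω, ω ⊆ E → B ω → c ≤ PrP q E (Y ω))
    (hY : ∀ ω ω', ω ⊆ E → ω' ⊆ E → B ω → Y ω ω' → A (mix (U ω) ω ω')) :
    PrP q E B * c ≤ PrP q E A := by
  have h1 : PrP q E A = Ex q E (fun ω => Ex q E (fun ω' => ind (A (mix (U ω) ω ω')))) :=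
    (Ex_resample1 q E U hU (fun ω => ind (A ω))).symm
  rw [h1]
  unfold PrP
  rw [← Ex_smul']
  refine Ex_mono hq fun ω hω => ?_
  by_cases hB : B ω
  · rw [ind_true hB, one_mul]
    refine (hc ω hω hB).trans (Ex_mono hq fun ω' hω' => ind_mono (hY ω ω' hω hω' hB))
  · rw [ind_false hB, zero_mul]
    exact Ex_nonneg hq fun _ _ => ind_nonneg _

/-- Resampling inequality, upper bound. -/
theorem resampleP_le {q : α → ℝ} (hq : Pb q) (E : Finset α) (U : Finset α → Finset α)
    (hU : ∀ ω ω', ω ⊆ E → ω' ⊆ E → U (mix (U ω) ω ω') = U ω)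
    (A B : Finset α → Prop) (Y : Finset α → Finset α → Prop) (c : ℝ)
    (hB : ∀ ω ω', ω ⊆ E → ω' ⊆ E → B (mix (U ω) ω ω') → B ω)
    (hc : ∀ ω, ω ⊆ E → B ω → PrP q E (Y ω) ≤ c)
    (hY : ∀ ω ω', ω ⊆ E → ω' ⊆ E → B ω → A (mix (U ω) ω ω') → Y ω ω') :
    PrP q E (fun ω => A ω ∧ B ω) ≤ PrP q E B * c := by
  have h1 : PrP q E (fun ω => A ω ∧ B ω) = Ex q E (fun ω => Ex q E (fun ω' =>
      ind (A (mix (U ω) ω ω') ∧ B (mix (U ω) ω ω')))) :=
    (Ex_resample1 q E U hU (fun ω => ind (A ω ∧ B ω))).symm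
  rw [h1]
  unfold PrP
  rw [← Ex_smul']
  refine Ex_mono hq fun ω hω => ?_
  by_cases hBω : B ω
  · rw [ind_true hBω, one_mul]
    exact (Ex_mono hq fun ω' hω' => ind_mono (fun h => hY ω ω' hω hω' hBω h.1)).trans
      (hc ω hω hBω)
  · rw [ind_false hBω, zero_mul]
    have : Ex q E (fun ω' => ind (A (mix (U ω) ω ω') ∧ B (mix (U ω) ω ω'))) =
        Ex q E (fun _ => 0) :=
      Ex_congr fun ω' hω' => ind_false fun h => hBω (hB ω ω' hω hω' h.2)
    rw [this, Ex_const]

end Pool.Agent.H99.NC
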