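import Mathlib
import Pool.Agent.H99.NC.PrP

set_option autoImplicit false
open Finset

/-! Russo's formula, second differences, BK inequality for increasing events, Efron-Stein. -/

namespace Pool.Agent.H99.NC

open Pool.Agent.H75.Perc

set_option linter.unusedSectionVars false

variable {α : Type*} [DecidableEq α]

/-- Russo's formula for a general function and a differentiable family of densities. -/
theorem hasDerivAt_Ex {q : ℝ → α → ℝ} {q' : α → ℝ} {t : ℝ} (E : Finset α)
    (hq : ∀ e ∈ E, HasDerivAt (fun s => q s e) (q' e) t) (f : Finset α → ℝ) :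
    HasDerivAt (fun s => Ex (q s) E f)
      (∑ e ∈ E, q' e * Ex (q t) (E.erase e) (fun ω => f (insert e ω) - f ω)) t := by
  induction E using Finset.induction_on generalizing f with
  | empty => simpa using hasDerivAt_const t (f ∅)
  | insert e E he ih =>
    have hE : ∀ e ∈ E, HasDerivAt (fun s => q s e) (q' e) t :=
      fun x hx => hq x (mem_insert_of_mem hx)
    have h1 := ih hE f
    have h2 := ih hE (fun ω => f (insert e ω))
    have h3 := hq e (mem_insert_self e E)
    have h4 := ((h3.const_sub 1).mul h1).add (h3.mul h2)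
    have e1 : (fun s => Ex (q s) (insert e E) f) = fun s =>
        (1 - q s e) * Ex (q s) E f + q s e * Ex (q s) E (fun ω => f (insert e ω)) :=
      funext fun s => Ex_insert (q s) he f
    rw [e1]
    refine h4.congr_deriv ?_
    rw [sum_insert he, erase_insert he, Ex_sub]
    have e2 : ∀ x ∈ E, q' x * Ex (q t) ((insert e E).erase x) (fun ω => f (insert x ω) - f ω) =
        (1 - q t e) * (q' x * Ex (q t) (E.erase x) (fun ω => f (insert x ω) - f ω)) +
        q t e * (q' x * Ex (q t) (E.erase x)
          (fun ω => f (insert e (insert x ω)) - f (insert e ω))) := by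
      intro x hx
      have hxe : e ≠ x := by
        rintro rfl
        exact he hx
      rw [erase_insert_of_ne hxe, Ex_insert (q t) (fun h => he (mem_of_mem_erase h))]
      have e3 : (fun ω : Finset α => f (insert x (insert e ω)) - f (insert e ω)) =
          fun ω => f (insert e (insert x ω)) - f (insert e ω) := by
        funext ω
        rw [insert_comm]
      rw [e3]
      ring
    rw [sum_congr rfl e2, sum_add_distrib, ← mul_sum, ← mul_sum]
    ring

/-- `e` is pivotal for `A`. -/
def Piv (A : Finset α → Prop) (e : α) (ω : Finset α) : Prop := A (insert e ω) ∧ ¬ A (ω.erase e)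

lemma Piv_insert (A : Finset α → Prop) (e : α) (ω : Finset α) :
    Piv A e (insert e ω) ↔ Piv A e ω := by
  unfold Piv
  rw [insert_eq_of_mem (mem_insert_self e ω), erase_insert_eq_erase]

lemma PrP_Piv_erase (q : α → ℝ) {E : Finset α} {e : α} (he : e ∈ E) (A : Finset α → Prop) :
    PrP q (E.erase e) (Piv A e) = PrP q E (Piv A e) := by
  have h1 : insert e (E.erase e) = E := insert_erase he
  conv_rhs => rw [← h1]
  unfold PrP
  rw [Ex_insert q (notMem_erase e E)]
  simp only [Piv_insert]
  ring

lemma ind_sub_Piv {A : Finset α → Prop} (hA : Inc A) {e : α} {ω : Finset α} (he : e ∉ ω) :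
    ind (A (insert e ω)) - ind (A ω) = ind (Piv A e ω) := by
  unfold Piv
  rw [erase_eq_of_notMem he]
  by_cases h1 : A ω
  · have h2 := hA _ _ (subset_insert e ω) h1
    simp [ind, h1, h2]
  · by_cases h2 : A (insert e ω) <;> simp [ind, h1, h2]

/-- Russo's formula. -/
theorem russo {q : ℝ → α → ℝ} {q' : α → ℝ} {t : ℝ} (E : Finset α)
    (hq : ∀ e ∈ E, HasDerivAt (fun s => q s e) (q' e) t) {A : Finset α → Prop} (hA : Inc A) :
    HasDerivAt (fun s => PrP (q s) E A) (∑ e ∈ E, q' e * PrP (q t) E (Piv A e)) t := by
  refine (hasDerivAt_Ex E hq (fun ω => ind (A ω))).congr_deriv ?_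
  refine sum_congr rfl fun e he => ?_
  rw [← PrP_Piv_erase (q t) he]
  congr 1
  exact Ex_congr fun ω hω => ind_sub_Piv hA fun h => notMem_erase e E (hω h)

/-- Russo's formula for the homogeneous density. -/
theorem russo_const (E : Finset α) {A : Finset α → Prop} (hA : Inc A) (p : ℝ) :
    HasDerivAt (fun s : ℝ => PrP (fun _ => s) E A) (∑ e ∈ E, PrP (fun _ => p) E (Piv A e)) p := by
  refine (russo (q := fun s _ => s) (q' := fun _ => 1) E (fun e _ => hasDerivAt_id p) hA).congr_deriv ?_
  exact sum_congr rfl fun e _ => one_mul _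

open Classical in
/-- Russo's formula when only the density of the elements of `F` varies. -/
theorem russo_part (E F : Finset α) (q : α → ℝ) {A : Finset α → Prop} (hA : Inc A) (p : ℝ) :
    HasDerivAt (fun s : ℝ => PrP (fun e => if e ∈ F then s else q e) E A)
      (∑ e ∈ E.filter (· ∈ F), PrP (fun e => if e ∈ F then p else q e) E (Piv A e)) p := by
  refine (russo (q := fun s e => if e ∈ F then s else q e) (q' := fun e => if e ∈ F then 1 else 0)
    E (fun e _ => ?_) hA).congr_deriv ?_
  · by_cases h : e ∈ F
    · simp only [h, if_true]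
      exact hasDerivAt_id p
    · simp only [h, if_false]
      exact hasDerivAt_const p (q e)
  · rw [sum_filter]
    refine sum_congr rfl fun e _ => ?_
    split_ifs <;> simp

/-! ### BK inequality -/

/-- disjoint occurrence of a two-set property -/
def Dj (Φ : Finset α → Finset α → Prop) (ω : Finset α) : Prop :=
  ∃ S T, S ⊆ ω ∧ T ⊆ ω ∧ Disjoint S T ∧ Φ S T

/-- increasing in both arguments -/
def Inc2 (Φ : Finset α → Finset α → Prop) : Prop :=
  ∀ S S' T T', S ⊆ S' → T ⊆ T' → Φ S T → Φ S' T'

/-- The BK inequality, two-set form. -/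
theorem bk2 {q : α → ℝ} (hq : Pb q) (E : Finset α) {Φ : Finset α → Finset α → Prop}
    (hΦ : Inc2 Φ) :
    PrP q E (Dj Φ) ≤ Ex q E (fun ω => Ex q E (fun ω' => ind (Φ ω ω'))) := by
  induction E using Finset.induction_on generalizing Φ with
  | empty =>
    unfold PrP
    simp only [Ex_empty]
    refine ind_mono ?_
    rintro ⟨S, T, hS, hT, -, h⟩
    exact hΦ _ _ _ _ hS hT h
  | insert e E he ih =>
    have hq0 := (hq e).1
    have hq1 := (hq e).2
    -- the four restricted properties
    have i10 : Inc2 (fun S T => Φ (insert e S) T ∨ Φ S (insert e T)) := by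
      rintro S S' T T' h1 h2 (h | h)
      · exact Or.inl (hΦ _ _ _ _ (insert_subset_insert e h1) h2 h)
      · exact Or.inr (hΦ _ _ _ _ h1 (insert_subset_insert e h2) h)
    have k1 := ih hΦ
    have k2 := ih i10
    -- left side
    have l1 : PrP q (insert e E) (Dj Φ) ≤ (1 - q e) * PrP q E (Dj Φ) +
        q e * PrP q E (Dj (fun S T => Φ (insert e S) T ∨ Φ S (insert e T))) := by
      unfold PrP
      rw [Ex_insert q he]
      have h2 : Ex q E (fun ω => ind (Dj Φ (insert e ω))) ≤
          Ex q E (fun ω => ind (Dj (fun S T => Φ (insert e S) T ∨ Φ S (insert e T)) ω)) := by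
        refine Ex_mono hq fun ω hω => ind_mono ?_
        rintro ⟨S, T, hS, hT, hd, h⟩
        refine ⟨S.erase e, T.erase e, ?_, ?_, ?_, ?_⟩
        · intro x hx
          rw [mem_erase] at hx
          exact (mem_insert.1 (hS hx.2)).resolve_left hx.1
        · intro x hx
          rw [mem_erase] at hx
          exact (mem_insert.1 (hT hx.2)).resolve_left hx.1
        · exact hd.mono (erase_subset _ _) (erase_subset _ _)
        · by_cases heS : e ∈ S
          · left
            have heT : e ∉ T := fun h => (disjoint_left.1 hd) heS h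
            rw [insert_erase heS, erase_eq_of_notMem heT]
            exact h
          · right
            rw [erase_eq_of_notMem heS]
            refine hΦ _ _ _ _ (subset_refl S) ?_ h
            intro x hx
            by_cases hxe : x = e
            · rw [hxe]; exact mem_insert_self _ _
            · exact mem_insert_of_mem (mem_erase.2 ⟨hxe, hx⟩)
      have := mul_le_mul_of_nonneg_left h2 hq0
      linarith
    -- right side
    have r1 : Ex q (insert e E) (fun ω => Ex q (insert e E) (fun ω' => ind (Φ ω ω'))) =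
        Ex q E (fun ω => Ex q E (fun ω' => (1 - q e) * ((1 - q e) * ind (Φ ω ω') +
          q e * ind (Φ ω (insert e ω'))) + q e * ((1 - q e) * ind (Φ (insert e ω) ω') +
          q e * ind (Φ (insert e ω) (insert e ω'))))) := by
      rw [Ex_insert q he]
      simp only [Ex_insert q he, Ex_add, Ex_smul]
    rw [r1]
    refine l1.trans ?_
    have l2 : (1 - q e) * PrP q E (Dj Φ) +
        q e * PrP q E (Dj (fun S T => Φ (insert e S) T ∨ Φ S (insert e T))) ≤
        (1 - q e) * Ex q E (fun ω => Ex q E (fun ω' => ind (Φ ω ω'))) +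
        q e * Ex q E (fun ω => Ex q E (fun ω' => ind (Φ (insert e ω) ω' ∨ Φ ω (insert e ω')))) := by
      have h1 := mul_le_mul_of_nonneg_left k1 (sub_nonneg.2 hq1)
      have h2 := mul_le_mul_of_nonneg_left k2 hq0
      linarith
    refine l2.trans ?_
    have l3 : (1 - q e) * Ex q E (fun ω => Ex q E (fun ω' => ind (Φ ω ω'))) +
        q e * Ex q E (fun ω => Ex q E (fun ω' => ind (Φ (insert e ω) ω' ∨ Φ ω (insert e ω')))) =
        Ex q E (fun ω => Ex q E (fun ω' => (1 - q e) * ind (Φ ω ω') +
          q e * ind (Φ (insert e ω) ω' ∨ Φ ω (insert e ω')))) := by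
      simp only [Ex_add, Ex_smul]
    rw [l3]
    refine Ex_mono hq fun ω _ => Ex_mono hq fun ω' _ => ?_
    have m1 : Φ ω ω' → Φ (insert e ω) ω' := hΦ _ _ _ _ (subset_insert _ _) (subset_refl _)
    have m2 : Φ ω ω' → Φ ω (insert e ω') := hΦ _ _ _ _ (subset_refl _) (subset_insert _ _)
    have m3 : Φ (insert e ω) ω' → Φ (insert e ω) (insert e ω') :=
      hΦ _ _ _ _ (subset_refl _) (subset_insert _ _)
    have m4 : Φ ω (insert e ω') → Φ (insert e ω) (insert e ω') :=
      hΦ _ _ _ _ (subset_insert _ _) (subset_refl _)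
    by_cases a : Φ ω ω'
    · simp only [ind_true a, ind_true (m1 a), ind_true (m2 a), ind_true (m3 (m1 a)),
        ind_true (Or.inl (m1 a) : Φ (insert e ω) ω' ∨ Φ ω (insert e ω'))]
      nlinarith
    · rw [ind_false a]
      by_cases b : Φ (insert e ω) ω'
      · rw [ind_true b, ind_true (m3 b), ind_true (Or.inl b)]
        have := ind_nonneg (Φ ω (insert e ω'))
        nlinarith [mul_nonneg (mul_nonneg (sub_nonneg.2 hq1) hq0) this]
      · rw [ind_false b]
        by_cases c : Φ ω (insert e ω')
        · rw [ind_true c, ind_true (m4 c), ind_true (Or.inr c)]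
          nlinarith
        · rw [ind_false c, ind_false (not_or.2 ⟨b, c⟩)]
          have := ind_nonneg (Φ (insert e ω) (insert e ω'))
          have h3 := mul_nonneg (mul_nonneg hq0 hq0) this
          nlinarith

/-- The BK inequality for increasing events. -/
theorem bk {q : α → ℝ} (hq : Pb q) (E : Finset α) {A B : Finset α → Prop} (hA : Inc A)
    (hB : Inc B) : PrP q E (fun ω => ∃ S T, S ⊆ ω ∧ T ⊆ ω ∧ Disjoint S T ∧ A S ∧ B T) ≤
      PrP q E A * PrP q E B := by
  have h := bk2 hq E (Φ := fun S T => A S ∧ B T)
    (fun S S' T T' h1 h2 h => ⟨hA _ _ h1 h.1, hB _ _ h2 h.2⟩)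
  refine h.trans (le_of_eq ?_)
  unfold PrP
  rw [← Ex_smul']
  refine Ex_congr fun ω _ => ?_
  rw [← Ex_smul]
  exact Ex_congr fun ω' _ => ind_and _ _

end Pool.Agent.H99.NC
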