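import Mathlib
import Pool.Agent.H99.NC.PrP
import Pool.Agent.H75.Perc.RswD

set_option autoImplicit false
open Finset

/-! Crossing probabilities of rectangles for bond percolation with density `p`, and the
Russo–Seymour–Welsh theorem for general `p` (hypothesis: squares are crossed with probability bounded
below). -/

namespace Pool.Agent.H99.NC

open Pool.Agent.H75.Perc

/-- constant density -/
def cp (p : ℝ) : ℤ × ℤ → ℝ := fun _ => p

lemma cp_Pb {p : ℝ} (h0 : 0 ≤ p) (h1 : p ≤ 1) : Pb (cp p) := fun _ => ⟨h0, h1⟩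

lemma cp_compl (p : ℝ) : (fun e => 1 - cp p e) = cp (1 - p) := rfl

/-- Transport of probabilities by lattice symmetries. -/
lemma Sy_PrP (S : Sy) (p : ℝ) {E1 E2 : Finset (ℤ × ℤ)} (hE : ∀ e, e ∈ E2 ↔ S.G' e ∈ E1)
    (A : Finset (ℤ × ℤ) → Prop) : PrP (cp p) E2 A = PrP (cp p) E1 (fun ω => A (ω.map S.G)) := by
  rw [← S.map_eq hE, PrP_map]
  rfl

/-- Crossing probability of a rectangle, horizontally. -/
noncomputable def hcP (p : ℝ) (a b c d : ℤ) : ℝ := PrP (cp p) (Bx a b c d) (HC a b c d)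

lemma PrP_HC {E : Finset (ℤ × ℤ)} {a b c d : ℤ} (p : ℝ) (h : Bx a b c d ⊆ E) :
    PrP (cp p) E (HC a b c d) = hcP p a b c d := by
  unfold hcP
  rw [← PrP_restrict (cp p) h]
  exact PrP_congr fun ω _ => HC_restrict a b c d ω

lemma HC_shift (a b c d s t : ℤ) (ω : Finset (ℤ × ℤ)) :
    HC (a + s) (b + s) (c + t) (d + t) (ω.map (syT (s, t)).G) ↔ HC a b c d ω := by
  have hE : ∀ e, e ∈ Bx (a + s) (b + s) (c + t) (d + t) ↔ (syT (s, t)).G' e ∈ Bx a b c d := by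
    intro e
    rw [mem_Bx, mem_Bx]
    simp only [syT]
    omega
  unfold HC
  rw [(syT (s, t)).map_inter ω hE]
  constructor
  · rintro ⟨p, q, h1, h2, h3, h4⟩
    refine ⟨p - (s, t), q - (s, t), ?_, ?_, ?_, ?_⟩
    · unfold inB at h1 ⊢
      simp only [Prod.fst_sub, Prod.snd_sub]; omega
    · simp only [Prod.fst_sub]; omega
    · simp only [Prod.fst_sub]; omega
    · rw [← (syT (s, t)).co_iff]
      simpa [syT] using h4
  · rintro ⟨p, q, h1, h2, h3, h4⟩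
    refine ⟨p + (s, t), q + (s, t), ?_, ?_, ?_, ?_⟩
    · unfold inB at h1 ⊢
      simp only [Prod.fst_add, Prod.snd_add]; omega
    · simp only [Prod.fst_add]; omega
    · simp only [Prod.fst_add]; omega
    · rw [← (syT (s, t)).co_iff] at h4
      exact h4

lemma VC_HC (a b c d : ℤ) (ω : Finset (ℤ × ℤ)) :
    VC a b c d (ω.map syD.G) ↔ HC c d a b ω := by
  have hE : ∀ e, e ∈ Bx a b c d ↔ syD.G' e ∈ Bx c d a b := by
    intro e
    rw [mem_Bx, mem_Bx]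
    simp only [syD]
    omega
  unfold VC HC
  rw [syD.map_inter ω hE]
  constructor
  · rintro ⟨p, q, h1, h2, h3, h4⟩
    refine ⟨(p.2, p.1), (q.2, q.1), ?_, h2, h3, ?_⟩
    · unfold inB at h1 ⊢; exact ⟨h1.2, h1.1⟩
    · rw [← syD.co_iff]; exact h4
  · rintro ⟨p, q, h1, h2, h3, h4⟩
    refine ⟨(p.2, p.1), (q.2, q.1), ?_, h2, h3, ?_⟩
    · unfold inB at h1 ⊢; exact ⟨h1.2, h1.1⟩
    · rw [← syD.co_iff] at h4; exact h4

lemma hcP_shift (p : ℝ) (a b c d s t : ℤ) :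
    hcP p (a + s) (b + s) (c + t) (d + t) = hcP p a b c d := by
  unfold hcP
  have hE : ∀ e, e ∈ Bx (a + s) (b + s) (c + t) (d + t) ↔ (syT (s, t)).G' e ∈ Bx a b c d := by
    intro e
    rw [mem_Bx, mem_Bx]
    simp only [syT]
    omega
  rw [Sy_PrP (syT (s, t)) p hE]
  exact PrP_congr fun ω _ => HC_shift a b c d s t ω

/-- Crossing probability of a rectangle of width `w` and height `h`, horizontally. -/
noncomputable def fcP (p : ℝ) (w h : ℤ) : ℝ := hcP p 0 w 0 h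

lemma fcP_half (w h : ℤ) : fcP (1 / 2) w h = fc w h := PrP_half _ _

lemma hcP_eq (p : ℝ) (a b c d : ℤ) : hcP p a b c d = fcP p (b - a) (d - c) := by
  unfold fcP
  have := hcP_shift p 0 (b - a) 0 (d - c) a c
  rw [← this]
  congr 1 <;> ring

lemma PrP_HC' {E : Finset (ℤ × ℤ)} {a b c d : ℤ} (p : ℝ) (h : Bx a b c d ⊆ E) :
    PrP (cp p) E (HC a b c d) = fcP p (b - a) (d - c) := by
  rw [PrP_HC p h, hcP_eq]

lemma PrP_VC {E : Finset (ℤ × ℤ)} {a b c d : ℤ} (p : ℝ) (h : Bx a b c d ⊆ E) :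
    PrP (cp p) E (VC a b c d) = fcP p (d - c) (b - a) := by
  have h1 : PrP (cp p) E (VC a b c d) = PrP (cp p) (Bx a b c d) (VC a b c d) := by
    rw [← PrP_restrict (cp p) h]
    exact PrP_congr fun ω _ => VC_restrict a b c d ω
  rw [h1]
  have hE : ∀ e, e ∈ Bx a b c d ↔ syD.G' e ∈ Bx c d a b := by
    intro e
    rw [mem_Bx, mem_Bx]
    simp only [syD]
    omega
  rw [Sy_PrP syD p hE, ← hcP_eq p c d a b]
  unfold hcP
  exact PrP_congr fun ω _ => VC_HC a b c d ω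

section

variable {p : ℝ}

lemma fcP_nonneg (h0 : 0 ≤ p) (h1 : p ≤ 1) (w h : ℤ) : 0 ≤ fcP p w h := PrP_nonneg (cp_Pb h0 h1) _ _

lemma fcP_le_one (h0 : 0 ≤ p) (h1 : p ≤ 1) (w h : ℤ) : fcP p w h ≤ 1 :=
  PrP_le_one (cp_Pb h0 h1) _ _

/-- Monotonicity in the density. -/
lemma fcP_mono_p {p' : ℝ} (h0 : 0 ≤ p) (hpp : p ≤ p') (h1 : p' ≤ 1) (w h : ℤ) :
    fcP p w h ≤ fcP p' w h :=
  PrP_mono_q (cp_Pb h0 (hpp.trans h1)) (cp_Pb (h0.trans hpp) h1) (fun _ _ => hpp)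
    (HC_inc _ _ _ _)

lemma HC_anti {w w' h : ℤ} (h0 : 0 ≤ w') (hw : w' ≤ w) {ω : Finset (ℤ × ℤ)}
    (hω : HC 0 w 0 h ω) : HC 0 w' 0 h ω := by
  obtain ⟨p, q, h1, h2, h3, h4⟩ := hω
  rcases eq_or_lt_of_le hw with he | hlt
  · subst he; exact ⟨p, q, h1, h2, h3, h4⟩
  · obtain ⟨z, z', hz, hz', had, hcx, -⟩ := exit_co (X := inB 0 w' 0 h) h4
      (by unfold inB at h1 ⊢; omega) (by unfold inB; omega)
    refine ⟨p, z, by unfold inB at h1 ⊢; omega, h2, ?_, ?_⟩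
    · have h5 := unit_cases had.1
      have h6 := (had.inB inter_subset_right).2
      unfold inB at hz hz' h6
      omega
    · exact (hcx.box (fun z hz => hz) (by unfold inB at h1 ⊢; omega)).mono
        (inter_subset_inter_right inter_subset_left)

/-- Narrower rectangles are easier to cross. -/
lemma fcP_anti (p0 : 0 ≤ p) (p1 : p ≤ 1) {w w' h : ℤ} (h0 : 0 ≤ w') (hw : w' ≤ w) :
    fcP p w h ≤ fcP p w' h := by
  have e1 : fcP p w h = PrP (cp p) (Bx 0 w 0 h) (HC 0 w 0 h) := rfl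
  have e2 : fcP p w' h = PrP (cp p) (Bx 0 w 0 h) (HC 0 w' 0 h) := by
    rw [PrP_HC' p (Bx_sub le_rfl hw le_rfl le_rfl)]; simp
  rw [e1, e2]
  exact PrP_mono (cp_Pb p0 p1) fun ω _ hω => HC_anti h0 hw hω

/-- Higher rectangles are easier to cross. -/
lemma fcP_mono (p0 : 0 ≤ p) (p1 : p ≤ 1) {w h h' : ℤ} (hh : h ≤ h') :
    fcP p w h ≤ fcP p w h' := by
  have e1 : fcP p w h = PrP (cp p) (Bx 0 w 0 h') (HC 0 w 0 h) := by
    rw [PrP_HC' p (Bx_sub le_rfl le_rfl le_rfl hh)]; simp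
  have e2 : fcP p w h' = PrP (cp p) (Bx 0 w 0 h') (HC 0 w 0 h') := rfl
  rw [e1, e2]
  apply PrP_mono (cp_Pb p0 p1)
  rintro ω _ ⟨p, q, h1, h2, h3, h4⟩
  refine ⟨p, q, ?_, h2, h3, h4.mono (inter_subset_inter_left (Bx_sub le_rfl le_rfl le_rfl hh))⟩
  unfold inB at h1 ⊢; omega

end

lemma Inc.and {α : Type*} [DecidableEq α] {A B : Finset α → Prop} (hA : Inc A) (hB : Inc B) :
    Inc (fun ω => A ω ∧ B ω) := fun ω ω' h h' => ⟨hA ω ω' h h'.1, hB ω ω' h h'.2⟩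

/-- Harris inequality for three events. -/
lemma harris3P {α : Type*} [DecidableEq α] {q : α → ℝ} (hq : Pb q) (E : Finset α)
    {A B C : Finset α → Prop} (hA : Inc A) (hB : Inc B) (hC : Inc C) :
    PrP q E A * PrP q E B * PrP q E C ≤ PrP q E (fun ω => A ω ∧ B ω ∧ C ω) := by
  have h1 := PrP_harris hq E hB hC
  have h2 := PrP_harris hq E hA (Inc.and hB hC)
  have h3 := PrP_nonneg hq E A
  calc PrP q E A * PrP q E B * PrP q E C = PrP q E A * (PrP q E B * PrP q E C) := by ring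
    _ ≤ PrP q E A * PrP q E (fun ω => B ω ∧ C ω) := mul_le_mul_of_nonneg_left h1 h3
    _ ≤ _ := h2

/-- Harris inequality for finitely many events. -/
lemma harris_listP {α ι : Type*} [DecidableEq α] {q : α → ℝ} (hq : Pb q) (E : Finset α)
    (s : Finset ι) {A : ι → Finset α → Prop} (hA : ∀ i ∈ s, Inc (A i)) :
    ∏ i ∈ s, PrP q E (A i) ≤ PrP q E (fun ω => ∀ i ∈ s, A i ω) := by
  classical
  induction s using Finset.induction_on with
  | empty => simp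
  | @insert i s his ih =>
    rw [prod_insert his]
    have h1 := ih fun j hj => hA j (mem_insert_of_mem hj)
    have hI : Inc (fun ω => ∀ j ∈ s, A j ω) := fun ω ω' h h' j hj =>
      hA j (mem_insert_of_mem hj) ω ω' h (h' j hj)
    have h2 := PrP_harris hq E (hA i (mem_insert_self _ _)) hI
    refine (mul_le_mul_of_nonneg_left h1 (PrP_nonneg hq E _)).trans (h2.trans (le_of_eq ?_))
    refine PrP_congr fun ω _ => ?_
    simp [mem_insert]

section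

variable {p : ℝ}

lemma fcP_glue (p0 : 0 ≤ p) (p1 : p ≤ 1) {w1 w2 v h : ℤ} (h0 : 0 ≤ v) (h1 : v ≤ w1)
    (h2 : v ≤ w2) : fcP p w1 h * fcP p w2 h * fcP p h v ≤ fcP p (w1 + w2 - v) h := by
  set b := w1 + w2 - v with hb
  have e0 : fcP p b h = PrP (cp p) (Bx 0 b 0 h) (HC 0 b 0 h) := rfl
  have e1 : fcP p w1 h = PrP (cp p) (Bx 0 b 0 h) (HC 0 w1 0 h) := by
    rw [PrP_HC' p (Bx_sub le_rfl (by omega) le_rfl le_rfl)]; simp
  have e2 : fcP p w2 h = PrP (cp p) (Bx 0 b 0 h) (HC (w1 - v) b 0 h) := by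
    rw [PrP_HC' p (Bx_sub (by omega) le_rfl le_rfl le_rfl)]
    congr 1 <;> omega
  have e3 : fcP p h v = PrP (cp p) (Bx 0 b 0 h) (VC (w1 - v) w1 0 h) := by
    rw [PrP_VC p (Bx_sub (by omega) (by omega) le_rfl le_rfl)]
    congr 1 <;> omega
  rw [e0, e1, e2, e3]
  refine (harris3P (cp_Pb p0 p1) _ (HC_inc _ _ _ _) (HC_inc _ _ _ _) (VC_inc _ _ _ _)).trans ?_
  apply PrP_mono (cp_Pb p0 p1)
  rintro ω _ ⟨hA, hB, hV⟩
  exact glue_HC (by omega) (by omega) (by omega) hA hB hV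

variable {n m : ℕ}

lemma PrP_YY (p0 : 0 ≤ p) (p1 : p ≤ 1) {ω : Finset (ℤ × ℤ)} (h : reach n ω) :
    fcP p (n + m) (2 * n) / 2 ≤ PrP (cp p) (Bx (-m) n 1 (2 * n + 1)) (YY n m ω) := by
  have h1 : PrP (cp p) (Bx (-m) n 1 (2 * n + 1)) (HC (-m) n 1 (2 * n + 1)) ≤
      PrP (cp p) (Bx (-m) n 1 (2 * n + 1)) (fun ω' => YY n m ω ω' ∨
        YY n m ω (ω'.map (syY (2 * (n : ℤ) + 2)).G)) := by
    apply PrP_mono (cp_Pb p0 p1)
    intro ω' _ hH
    obtain ⟨v, l, hv, hl, hAV⟩ := last_visit h hH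
    rcases hv with hv | hv
    · exact Or.inl ⟨v, l, hv, hl, hAV⟩
    · exact Or.inr ⟨(v.1, 2 * (n : ℤ) + 2 - v.2), (l.1, 2 * (n : ℤ) + 2 - l.2), hv, hl,
        AV_mirror hAV⟩
  have hE : ∀ e, e ∈ Bx (-m) n 1 (2 * (n : ℤ) + 1) ↔
      (syY (2 * (n : ℤ) + 2)).G' e ∈ Bx (-m) n 1 (2 * (n : ℤ) + 1) := by
    intro e
    rw [mem_Bx, mem_Bx]
    simp only [syY]
    omega
  have h2 := Sy_PrP (syY (2 * (n : ℤ) + 2)) p hE (YY n m ω)
  have h3 := PrP_or_le (cp_Pb p0 p1) (Bx (-m) n 1 (2 * n + 1)) (YY n m ω)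
    (fun ω' => YY n m ω (ω'.map (syY (2 * (n : ℤ) + 2)).G))
  rw [PrP_HC' p (subset_refl _)] at h1
  have e1 : (n : ℤ) - -m = n + m := by ring
  have e2 : 2 * (n : ℤ) + 1 - 1 = 2 * n := by ring
  rw [e1, e2] at h1
  linarith

/-- The RSW lemma. -/
theorem PrP_XX (p0 : 0 ≤ p) (p1 : p ≤ 1) (hm : 1 ≤ m) :
    fcP p n n * (fcP p (n + m) (2 * n) / 2) ≤
      PrP (cp p) (Bx (-m) n 1 (2 * n + 1)) (XX n m) := by
  have h1 := resampleP (cp_Pb p0 p1) (Bx (-m) n 1 (2 * (n : ℤ) + 1)) (UU n m)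
    (fun ω ω' h1 h2 => UU_mix h1 h2) (XX n m) (VC 0 n 1 (n + 1)) (YY n m)
    (fcP p (n + m) (2 * n) / 2) (fun ω _ hV => PrP_YY p0 p1 (VC_reach hV))
    (fun ω ω' _ _ hV hY => YY_XX hm (VC_reach hV) hY)
  rw [PrP_VC p (Bx_sub (by omega) le_rfl le_rfl (by omega))] at h1
  have e1 : (n : ℤ) + 1 - 1 = n := by ring
  have e2 : (n : ℤ) - 0 = n := by ring
  rw [e1, e2] at h1
  exact h1

lemma fcP_step (p0 : 0 ≤ p) (p1 : p ≤ 1) (hm : 1 ≤ m) :
    (fcP p n n * (fcP p (n + m) (2 * n) / 2)) ^ 2 * fcP p n n ≤ fcP p (n + 2 * m) (2 * n) := by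
  set E := Bx (-m) (n + m) 1 (2 * (n : ℤ) + 1) with hE
  have hsub : Bx (-m) n 1 (2 * (n : ℤ) + 1) ⊆ E := Bx_sub le_rfl (by omega) le_rfl le_rfl
  have h1 : fcP p n n * (fcP p (n + m) (2 * n) / 2) ≤ PrP (cp p) E (XX n m) := by
    have : PrP (cp p) E (XX n m) = PrP (cp p) (Bx (-m) n 1 (2 * (n : ℤ) + 1)) (XX n m) := by
      rw [← PrP_restrict (cp p) hsub]
      exact PrP_congr fun ω _ => XX_restrict n m ω
    rw [this]
    exact PrP_XX p0 p1 hm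
  have hEE : ∀ e, e ∈ E ↔ (syX n).G' e ∈ E := by
    intro e
    rw [hE, mem_Bx, mem_Bx]
    simp only [syX]
    omega
  have h2 : PrP (cp p) E (fun ω => XX n m (ω.map (syX n).G)) = PrP (cp p) E (XX n m) :=
    (Sy_PrP (syX n) p hEE (XX n m)).symm
  have h3 : PrP (cp p) E (HC 0 n 1 (n + 1)) = fcP p n n := by
    rw [PrP_HC' p (Bx_sub (by omega) (by omega) le_rfl (by omega))]
    congr 1 <;> ring
  have h4 : PrP (cp p) E (HC (-m) (n + m) 1 (2 * n + 1)) = fcP p (n + 2 * m) (2 * n) := by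
    rw [PrP_HC' p (subset_refl _)]
    congr 1 <;> ring
  have h5 := harris3P (cp_Pb p0 p1) E (XX_inc n m) (map_inc (XX_inc n m) (syX n).G)
    (HC_inc 0 n 1 (n + 1))
  have h6 : PrP (cp p) E (fun ω => XX n m ω ∧ XX n m (ω.map (syX n).G) ∧ HC 0 n 1 (n + 1) ω) ≤
      PrP (cp p) E (HC (-m) (n + m) 1 (2 * n + 1)) :=
    PrP_mono (cp_Pb p0 p1) fun ω _ h => XX_glue h.1 h.2.1 h.2.2
  rw [h2, h3] at h5
  rw [h4] at h6
  refine le_trans ?_ (h5.trans h6)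
  have h7 : 0 ≤ fcP p n n * (fcP p (n + m) (2 * n) / 2) :=
    mul_nonneg (fcP_nonneg p0 p1 _ _) (div_nonneg (fcP_nonneg p0 p1 _ _) (by norm_num))
  have h8 := fcP_nonneg p0 p1 n n
  apply mul_le_mul_of_nonneg_right _ h8
  rw [pow_two]
  exact mul_le_mul h1 h1 h7 (h7.trans h1)

end

end Pool.Agent.H99.NC
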