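import Mathlib
import Pool.Agent.H99.NC.RectP

set_option autoImplicit false
open Finset

/-! Planar duality for rectangles: no horizontal open crossing of `[0,w+1] × [0,h]` iff the dual
configuration (reflected) crosses `[0,h+1] × [0,w]`; and `fcP p (w+1) h + fcP (1-p) (h+1) w = 1`. -/

namespace Pool.Agent.H99.NC

open Pool.Agent.H75.Perc

/-- The edges which matter for the crossing of `[0,w+1] × [0,h]`. -/
noncomputable def M2 (w h : ℕ) : Finset (ℤ × ℤ) :=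
  ((Icc (1 : ℤ) (2 * w + 1)) ×ˢ (Icc (0 : ℤ) (2 * h))).filter (fun l => (l.1 + l.2) % 2 = 1)

lemma mem_M2 {w h : ℕ} {l : ℤ × ℤ} : l ∈ M2 w h ↔
    (1 ≤ l.1 ∧ l.1 ≤ 2 * w + 1) ∧ (0 ≤ l.2 ∧ l.2 ≤ 2 * h) ∧ (l.1 + l.2) % 2 = 1 := by
  unfold M2; simp only [mem_filter, mem_product, mem_Icc]; tauto

lemma dl_mem2 {w h : ℕ} {e : ℤ × ℤ} : dl e ∈ M2 h w ↔ e ∈ M2 w h := by
  rw [mem_M2, mem_M2]
  unfold dl
  simp only
  omega

/-- The dual configuration, as a configuration in `[0,h+1] × [0,w]`. -/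
noncomputable def du2 (w h : ℕ) (ω : Finset (ℤ × ℤ)) : Finset (ℤ × ℤ) :=
  (M2 h w).filter (fun e => dl e ∉ ω)

lemma mem_du2 {w h : ℕ} {ω : Finset (ℤ × ℤ)} {e : ℤ × ℤ} :
    e ∈ du2 w h ω ↔ e ∈ M2 h w ∧ dl e ∉ ω := by
  unfold du2; rw [mem_filter]

/-- The states before the exploration stops. -/
def D2 (w h : ℕ) (c : ℤ × ℤ) : Prop :=
  (1 ≤ c.1 ∧ c.1 ≤ 2 * w + 1) ∧ (0 ≤ c.2 ∧ c.2 ≤ 2 * h)

lemma dual_step2 {w h : ℕ} {ω : Finset (ℤ × ℤ)} (hω : ω ⊆ M2 w h) {c : ℤ × ℤ}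
    (hc : D2 w h c) :
    D2 w h (nx (ω ∪ WL h) c) ∨ (nx (ω ∪ WL h) c).1 = 2 * w + 2 ∨
      (nx (ω ∪ WL h) c).2 = 2 * h + 1 := by
  unfold D2 at hc ⊢
  unfold nx
  by_cases hl : lab c ∈ ω ∪ WL h
  · rw [if_pos hl]
    have hl' := mem_union.1 hl
    have hl2 : lab c ∈ M2 w h ∨ lab c ∈ WL h := hl'.imp (fun h => hω h) id
    rw [mem_M2, mem_WL] at hl2
    rcases ty_cases c with ⟨h0, h1, h2, h3, h4, h5⟩ | ⟨h0, h1, h2, h3, h4, h5⟩ |
      ⟨h0, h1, h2, h3, h4, h5⟩ | ⟨h0, h1, h2, h3, h4, h5⟩ <;> rw [h3] at hl2 <;> rw [h5] <;>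
    simp only at hl2 ⊢ <;> omega
  · rw [if_neg hl]
    have hl2 : lab c ∉ WL h := fun h => hl (mem_union_right _ h)
    rw [mem_WL] at hl2
    rcases ty_cases c with ⟨h0, h1, h2, h3, h4, h5⟩ | ⟨h0, h1, h2, h3, h4, h5⟩ |
      ⟨h0, h1, h2, h3, h4, h5⟩ | ⟨h0, h1, h2, h3, h4, h5⟩ <;> rw [h3] at hl2 <;> rw [h4] <;>
    simp only at hl2 ⊢ <;> omega

lemma dual_conj2 {w h : ℕ} {ω : Finset (ℤ × ℤ)} (hω : ω ⊆ M2 w h) {c : ℤ × ℤ}
    (hc : D2 w h c) : nx (du2 w h ω ∪ WL w) (dl c) = dl (nx (ω ∪ WL h) c) := by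
  have hlab : lab (dl c) = dl (lab c) := by
    obtain ⟨a, b⟩ := c
    unfold dl
    rcases ty_cases (a, b) with ⟨h0, h1, h2, h3, h4, h5⟩ | ⟨h0, h1, h2, h3, h4, h5⟩ |
      ⟨h0, h1, h2, h3, h4, h5⟩ | ⟨h0, h1, h2, h3, h4, h5⟩ <;>
    rcases ty_cases (b + 1, a - 1) with ⟨g0, g1, g2, g3, g4, g5⟩ | ⟨g0, g1, g2, g3, g4, g5⟩ |
      ⟨g0, g1, g2, g3, g4, g5⟩ | ⟨g0, g1, g2, g3, g4, g5⟩ <;>
    simp only at h1 h2 g1 g2 g3 h3 ⊢ <;>
    first
    | (exfalso; omega)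
    | (rw [g3, h3]; try (refine Prod.ext ?_ ?_ <;> simp only <;> ring))
  have hkey : lab (dl c) ∈ du2 w h ω ∪ WL w ↔ lab c ∉ ω ∪ WL h := by
    rw [hlab, mem_union, mem_union, mem_WL, mem_WL, mem_du2, mem_M2, dl_dl]
    by_cases hM : lab c ∈ M2 w h
    · have hM' := mem_M2.1 hM
      unfold dl
      simp only
      by_cases hlω : lab c ∈ ω
      · simp only [hlω, not_true, and_false, false_or, true_or, iff_false]
        omega
      · simp only [hlω, not_false_eq_true, and_true, false_or]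
        omega
    · have hlω : lab c ∉ ω := fun h => hM (hω h)
      rw [mem_M2] at hM
      unfold D2 at hc
      simp only [hlω, not_false_eq_true, and_true, false_or]
      unfold dl
      rcases ty_cases c with ⟨h0, h1, h2, h3, h4, h5⟩ | ⟨h0, h1, h2, h3, h4, h5⟩ |
        ⟨h0, h1, h2, h3, h4, h5⟩ | ⟨h0, h1, h2, h3, h4, h5⟩ <;> rw [h3] at hM ⊢ <;>
      simp only at hM ⊢ <;> omega
  unfold nx
  by_cases hl : lab c ∈ ω ∪ WL h
  · rw [if_pos hl, if_neg (by rw [hkey]; exact not_not.2 hl)]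
    obtain ⟨a, b⟩ := c
    unfold dl
    rcases ty_cases (a, b) with ⟨h0, h1, h2, h3, h4, h5⟩ | ⟨h0, h1, h2, h3, h4, h5⟩ |
      ⟨h0, h1, h2, h3, h4, h5⟩ | ⟨h0, h1, h2, h3, h4, h5⟩ <;>
    rcases ty_cases (b + 1, a - 1) with ⟨g0, g1, g2, g3, g4, g5⟩ | ⟨g0, g1, g2, g3, g4, g5⟩ |
      ⟨g0, g1, g2, g3, g4, g5⟩ | ⟨g0, g1, g2, g3, g4, g5⟩ <;>
    simp only at h1 h2 g1 g2 g4 h5 ⊢ <;>
    first
    | (exfalso; omega)
    | (rw [g4, h5]; try (refine Prod.ext ?_ ?_ <;> simp only <;> ring))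
  · rw [if_neg hl, if_pos (by rw [hkey]; exact hl)]
    obtain ⟨a, b⟩ := c
    unfold dl
    rcases ty_cases (a, b) with ⟨h0, h1, h2, h3, h4, h5⟩ | ⟨h0, h1, h2, h3, h4, h5⟩ |
      ⟨h0, h1, h2, h3, h4, h5⟩ | ⟨h0, h1, h2, h3, h4, h5⟩ <;>
    rcases ty_cases (b + 1, a - 1) with ⟨g0, g1, g2, g3, g4, g5⟩ | ⟨g0, g1, g2, g3, g4, g5⟩ |
      ⟨g0, g1, g2, g3, g4, g5⟩ | ⟨g0, g1, g2, g3, g4, g5⟩ <;>
    simp only at h1 h2 g1 g2 g5 h4 ⊢ <;>
    first
    | (exfalso; omega)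
    | (rw [g5, h4]; try (refine Prod.ext ?_ ?_ <;> simp only <;> ring))

/-- The exploration path. -/
noncomputable def ep2 (h : ℕ) (ω : Finset (ℤ × ℤ)) (j : ℕ) : ℤ × ℤ :=
  (nx (ω ∪ WL h))^[j] (1, 0)

lemma ep2_zero (h : ℕ) (ω : Finset (ℤ × ℤ)) : ep2 h ω 0 = (1, 0) := rfl

lemma ep2_succ (h : ℕ) (ω : Finset (ℤ × ℤ)) (j : ℕ) :
    ep2 h ω (j + 1) = nx (ω ∪ WL h) (ep2 h ω j) := by
  unfold ep2; rw [Function.iterate_succ_apply']

/-- Stop at the right side. -/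
def stR (w h : ℕ) (ω : Finset (ℤ × ℤ)) : Prop :=
  ∃ j, (∀ i < j, D2 w h (ep2 h ω i)) ∧ (ep2 h ω j).1 = 2 * w + 2

/-- Stop at the top side. -/
def stT (w h : ℕ) (ω : Finset (ℤ × ℤ)) : Prop :=
  ∃ j, (∀ i < j, D2 w h (ep2 h ω i)) ∧ (ep2 h ω j).2 = 2 * h + 1

lemma st_or {w h : ℕ} {ω : Finset (ℤ × ℤ)} (hω : ω ⊆ M2 w h) : stR w h ω ∨ stT w h ω := by
  classical
  by_contra hcon
  have hall : ∀ j, ∀ i ≤ j, D2 w h (ep2 h ω i) := by
    intro j
    induction j with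
    | zero =>
      intro i hi
      have : i = 0 := by omega
      subst this
      rw [ep2_zero]; unfold D2; simp only; omega
    | succ j ih =>
      intro i hi
      rcases Nat.lt_or_ge i (j + 1) with h | h
      · exact ih i (by omega)
      · have : i = j + 1 := by omega
        subst this
        have h1 := dual_step2 hω (ih j le_rfl)
        rw [← ep2_succ] at h1
        rcases h1 with h1 | h1 | h1
        · exact h1
        · exact absurd (Or.inl ⟨j + 1, fun i hi => ih i (by omega), h1⟩) hcon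
        · exact absurd (Or.inr ⟨j + 1, fun i hi => ih i (by omega), h1⟩) hcon
  let S : Finset (ℤ × ℤ) := (Icc (1 : ℤ) (2 * w + 1)) ×ˢ (Icc (0 : ℤ) (2 * h))
  have hS : ∀ j, ep2 h ω j ∈ S := by
    intro j
    have := hall j j le_rfl
    unfold D2 at this
    simp only [S, mem_product, mem_Icc]
    exact this
  obtain ⟨i, hi, j, hj, hij, he⟩ := Finset.exists_ne_map_eq_of_card_lt_of_maps_to
    (s := Finset.range (S.card + 1)) (t := S) (by simp) (f := fun i => ep2 h ω i)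
    (fun i _ => hS i)
  have key : ∀ i j : ℕ, i < j → ep2 h ω i = ep2 h ω j → False := by
    intro i j hij he
    have e1 : j = i + (j - i) := by omega
    have h1 : ep2 h ω 0 = ep2 h ω (j - i) := by
      rw [e1] at he
      unfold ep2 at he ⊢
      rw [Function.iterate_add_apply] at he
      exact (nx_injective _).iterate i he
    have e2 : j - i = (j - i - 1) + 1 := by omega
    rw [e2, ep2_succ] at h1
    have h2 : pv (ω ∪ WL h) (ep2 h ω 0) = ep2 h ω (j - i - 1) := by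
      rw [h1, pv_nx]
    have h3 : pv (ω ∪ WL h) (ep2 h ω 0) = (0, 0) := by
      rw [ep2_zero]
      have hno : ((0 : ℤ), (-1 : ℤ)) ∉ ω ∪ WL h := by
        rw [mem_union]
        rintro (h | h)
        · have := mem_M2.1 (hω h)
          simp only at this; omega
        · rw [mem_WL] at h; simp only at h; omega
      unfold pv
      simp [hno]
    have h4 := hall (j - i - 1) (j - i - 1) le_rfl
    rw [← h2, h3] at h4
    unfold D2 at h4
    simp only at h4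
    omega
  rcases lt_or_gt_of_ne hij with h | h
  · exact key i j h he
  · exact key j i h he.symm

lemma ep2_dual {w h : ℕ} {ω : Finset (ℤ × ℤ)} (hω : ω ⊆ M2 w h) (j : ℕ)
    (hj : ∀ i < j, D2 w h (ep2 h ω i)) : ∀ i ≤ j, ep2 w (du2 w h ω) i = dl (ep2 h ω i) := by
  intro i
  induction i with
  | zero => intro _; rw [ep2_zero, ep2_zero]; unfold dl; norm_num
  | succ i ih =>
    intro hi
    rw [ep2_succ, ep2_succ, ih (by omega)]
    exact dual_conj2 hω (hj i (by omega))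

lemma D2_dl {w h : ℕ} {c : ℤ × ℤ} (hc : D2 w h c) : D2 h w (dl c) := by
  unfold D2 dl at *
  simp only
  omega

lemma stT_dual {w h : ℕ} {ω : Finset (ℤ × ℤ)} (hω : ω ⊆ M2 w h) (hs : stT w h ω) :
    stR h w (du2 w h ω) := by
  obtain ⟨j, h1, h2⟩ := hs
  have h3 := ep2_dual hω j h1
  refine ⟨j, fun i hi => ?_, ?_⟩
  · rw [h3 i (by omega)]; exact D2_dl (h1 i hi)
  · rw [h3 j le_rfl]; unfold dl; simp only; omega

lemma stR_HC {w h : ℕ} {ω : Finset (ℤ × ℤ)} (hω : ω ⊆ M2 w h) (hs : stR w h ω) :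
    HC 0 (w + 1) 0 h ω := by
  obtain ⟨j, h1, h2⟩ := hs
  have hsub : ω ∩ Bx 0 (w + 1) 0 h = ω := by
    apply inter_eq_left.2
    intro e he
    have := mem_M2.1 (hω he)
    rw [mem_Bx]; omega
  have key : ∀ i ≤ j, ∃ p : ℤ × ℤ, p.1 = 0 ∧ 0 ≤ p.2 ∧ p.2 ≤ h ∧
      Co ω p (vx (ep2 h ω i)) := by
    intro i
    induction i with
    | zero =>
      intro _
      refine ⟨0, by simp, by simp, by simp, ?_⟩
      have : vx (ep2 h ω 0) = 0 := by rw [ep2_zero]; decide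
      rw [this]; exact Co.refl _ _
    | succ i ih =>
      intro hi
      obtain ⟨p, p1, p2, p3, p4⟩ := ih (by omega)
      rw [ep2_succ]
      have hD := h1 i (by omega)
      unfold nx
      by_cases hl : lab (ep2 h ω i) ∈ ω ∪ WL h
      · rw [if_pos hl]
        have hv := vx_nxO (ep2 h ω i)
        rcases mem_union.1 hl with hl' | hl'
        · exact ⟨p, p1, p2, p3, Relation.ReflTransGen.tail p4 ⟨hv.1, by rw [hv.2]; exact hl'⟩⟩
        · refine ⟨vx (nxO (ep2 h ω i)), ?_, ?_, ?_, Co.refl _ _⟩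
          all_goals
            rw [mem_WL] at hl'
            have hu := unit_cases hv.1
            have hv2 := hv.2
            rw [Prod.ext_iff] at hv2
            simp only [Prod.fst_add, Prod.snd_add] at hv2
            omega
      · rw [if_neg hl, vx_nxC]
        exact ⟨p, p1, p2, p3, p4⟩
  obtain ⟨p, p1, p2, p3, p4⟩ := key j le_rfl
  refine ⟨p, vx (ep2 h ω j), ?_, p1, ?_, by rw [hsub]; exact p4⟩
  · unfold inB; omega
  · unfold vx; simp only; omega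

/-! ### Not both -/

/-- doubled vertex or label of an open edge -/
def pA (ω : Finset (ℤ × ℤ)) (z : ℤ × ℤ) : Prop :=
  (z.1 % 2 = 0 ∧ z.2 % 2 = 0) ∨ (z ∈ ω ∧ (z.1 + z.2) % 2 = 1)

lemma refine_co {ω : Finset (ℤ × ℤ)} {u v : ℤ × ℤ} {a b c d : ℤ} (hω : ω ⊆ Bx a b c d)
    (h : Co ω u v) :
    Relation.ReflTransGen (fun x y => IsUnit4 (y - x) ∧ (pA ω y ∧
      (2 * a ≤ y.1 ∧ y.1 ≤ 2 * b) ∧ (2 * c ≤ y.2 ∧ y.2 ≤ 2 * d)))
      (2 * u.1, 2 * u.2) (2 * v.1, 2 * v.2) := by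
  induction h with
  | refl => exact Relation.ReflTransGen.refl
  | @tail x y hx hxy ih =>
    have h1 := unit_cases hxy.1
    have h2 := hxy.inB hω
    unfold inB at h2
    have s1 : IsUnit4 ((x + y) - (2 * x.1, 2 * x.2)) ∧ (pA ω (x + y) ∧
        (2 * a ≤ (x + y).1 ∧ (x + y).1 ≤ 2 * b) ∧ (2 * c ≤ (x + y).2 ∧ (x + y).2 ≤ 2 * d)) := by
      refine ⟨?_, Or.inr ⟨hxy.2, (mem_Bx.1 (hω hxy.2)).2.2⟩, ?_⟩
      · simp only [IsUnit4, Prod.ext_iff, Prod.fst_sub, Prod.snd_sub, Prod.fst_add, Prod.snd_add]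
        omega
      · simp only [Prod.fst_add, Prod.snd_add]
        omega
    have s2 : IsUnit4 (((2 * y.1, 2 * y.2) : ℤ × ℤ) - (x + y)) ∧ (pA ω (2 * y.1, 2 * y.2) ∧
        (2 * a ≤ 2 * y.1 ∧ 2 * y.1 ≤ 2 * b) ∧ (2 * c ≤ 2 * y.2 ∧ 2 * y.2 ≤ 2 * d)) := by
      refine ⟨?_, Or.inl ?_, ?_⟩
      · simp only [IsUnit4, Prod.ext_iff, Prod.fst_sub, Prod.snd_sub, Prod.fst_add, Prod.snd_add]
        omega
      · simp only; omega
      · omega
    exact (ih.tail s1).tail s2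

theorem not_both {w h : ℕ} {ω : Finset (ℤ × ℤ)} (h1 : HC 0 (w + 1) 0 h ω)
    (h2 : HC 0 (h + 1) 0 w (du2 w h ω)) : False := by
  obtain ⟨p, q, p1, p2, p3, p4⟩ := h1
  obtain ⟨r, s, r1, r2, r3, r4⟩ := h2
  have c1 := refine_co inter_subset_right p4
  have c2 := refine_co inter_subset_right r4
  -- the dual path, mapped back by dl
  have c3 : Relation.ReflTransGen (fun x y => IsUnit4 (y - x) ∧
      (pA (du2 w h ω) (dl y) ∧ (1 ≤ y.1 ∧ y.1 ≤ 2 * w + 1) ∧ (-1 ≤ y.2 ∧ y.2 ≤ 2 * h + 1)))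
      (dl (2 * r.1, 2 * r.2)) (dl (2 * s.1, 2 * s.2)) := by
    refine Relation.ReflTransGen.lift dl (fun x y hxy => ?_) _ _ c2
    obtain ⟨g1, g2, g3⟩ := hxy
    have g4 := unit_cases g1
    refine ⟨?_, ?_, ?_⟩
    · unfold dl
      simp only [IsUnit4, Prod.ext_iff, Prod.fst_sub, Prod.snd_sub]
      omega
    · rw [dl_dl]
      rcases g2 with g2 | g2
      · exact Or.inl g2
      · exact Or.inr ⟨(mem_inter.1 g2.1).1, g2.2⟩
    · unfold dl; simp only; omega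
  have c1' : Relation.ReflTransGen (fun x y => King (y - x) ∧
      (pA ω y ∧ (0 ≤ y.1 ∧ y.1 ≤ 2 * w + 2) ∧ (0 ≤ y.2 ∧ y.2 ≤ 2 * h)))
      (2 * p.1, 2 * p.2) (2 * q.1, 2 * q.2) := by
    refine Relation.ReflTransGen.lift id (fun x y hxy => ?_) _ _ c1
    obtain ⟨g1, g2, g3⟩ := hxy
    refine ⟨g1.king, ?_, ?_⟩
    · rcases g2 with g2 | g2
      · exact Or.inl g2
      · exact Or.inr ⟨(mem_inter.1 g2.1).1, g2.2⟩
    · simp only [id]; omega
  have hq : inB 0 (h + 1) 0 w s := r4.inB inter_subset_right r1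
  obtain ⟨z, z1, z2⟩ := cross_set (a := 0) (b := 2 * w + 2) (c := -1) (d := 2 * h + 1) c1'
    ⟨Or.inl (by simp only; omega), by unfold inB at p1; simp only; omega⟩ c3
    ⟨Or.inl (by rw [dl_dl]; simp only; omega), by unfold inB at r1; unfold dl; simp only; omega⟩
    (fun z hz => by omega) (fun z hz => by omega) (by simp only; omega) (by simp only; omega)
    (by unfold dl; simp only; omega) (by unfold dl; simp only; omega)
  rcases z1.1 with g | g <;> rcases z2.1 with g' | g'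
  · unfold dl at g'; simp only at g'; omega
  · have := g'.2
    unfold dl at this; simp only at this; omega
  · have := g.2
    unfold dl at g'; simp only at g'; omega
  · exact (mem_du2.1 g'.1).2 (by rw [dl_dl]; exact g.1)

/-- **Planar duality** in a rectangle. -/
theorem dual_iff (w h : ℕ) (ω : Finset (ℤ × ℤ)) :
    ¬ HC 0 (w + 1) 0 h ω ↔ HC 0 (h + 1) 0 w (du2 w h ω) := by
  constructor
  · intro hn
    have e1 : du2 w h ω = du2 w h (ω ∩ M2 w h) := by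
      ext e
      rw [mem_du2, mem_du2, mem_inter]
      constructor
      · rintro ⟨g1, g2⟩; exact ⟨g1, fun g => g2 g.1⟩
      · rintro ⟨g1, g2⟩; exact ⟨g1, fun g => g2 ⟨g, dl_mem2.2 g1⟩⟩
    rw [e1]
    rcases st_or (w := w) (h := h) (ω := ω ∩ M2 w h) inter_subset_right with g | g
    · exact absurd (HC_inc _ _ _ _ _ _ inter_subset_left (stR_HC inter_subset_right g)) hn
    · have := stR_HC (w := h) (h := w) (filter_subset _ _) (stT_dual inter_subset_right g)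
      exact this
  · intro h2 h1
    exact not_both h1 h2

/-- the reflection as an embedding -/
def dlE : (ℤ × ℤ) ↪ (ℤ × ℤ) := ⟨dl, fun a b hab => by rw [← dl_dl a, hab, dl_dl]⟩

lemma M2_map (w h : ℕ) : (M2 w h).map dlE = M2 h w := by
  ext e
  rw [mem_map]
  constructor
  · rintro ⟨x, hx, rfl⟩; exact dl_mem2.2 hx
  · intro he; exact ⟨dl e, dl_mem2.2 he, dl_dl e⟩

lemma HC_M2 (w h : ℕ) (ω : Finset (ℤ × ℤ)) :
    HC 0 (w + 1) 0 h ω ↔ HC 0 (w + 1) 0 h (ω ∩ M2 w h) := by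
  rw [← not_iff_not, dual_iff, dual_iff]
  have e1 : du2 w h ω = du2 w h (ω ∩ M2 w h) := by
    ext e
    rw [mem_du2, mem_du2, mem_inter]
    constructor
    · rintro ⟨g1, g2⟩; exact ⟨g1, fun g => g2 g.1⟩
    · rintro ⟨g1, g2⟩; exact ⟨g1, fun g => g2 ⟨g, dl_mem2.2 g1⟩⟩
  rw [e1]

lemma M2_sub (w h : ℕ) : M2 w h ⊆ Bx 0 (w + 1) 0 h := by
  intro e he
  rw [mem_M2] at he
  rw [mem_Bx]
  omega

lemma fcP_M2 (p : ℝ) (w h : ℕ) : fcP p (w + 1) h = PrP (cp p) (M2 w h) (HC 0 (w + 1) 0 h) := by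
  unfold fcP hcP
  rw [← PrP_restrict (cp p) (M2_sub w h)]
  exact PrP_congr fun ω _ => HC_M2 w h ω

/-- **Duality for crossing probabilities.** -/
theorem fcP_dual (p : ℝ) (w h : ℕ) : fcP p (w + 1) h + fcP (1 - p) (h + 1) w = 1 := by
  rw [fcP_M2, fcP_M2, ← cp_compl, PrP_compl, ← M2_map w h]
  have h1 : PrP (cp p) ((M2 w h).map dlE) (fun ω => HC 0 (h + 1) 0 w ((M2 w h).map dlE \ ω)) =
      PrP (cp p) (M2 w h) (fun ω => ¬ HC 0 (w + 1) 0 h ω) := by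
    rw [PrP_map]
    refine PrP_congr fun ω hω => ?_
    rw [dual_iff]
    have : (M2 w h).map dlE \ ω.map dlE = du2 w h ω := by
      ext e
      rw [mem_sdiff, M2_map, mem_du2, mem_map]
      constructor
      · rintro ⟨g1, g2⟩
        exact ⟨g1, fun g => g2 ⟨dl e, g, dl_dl e⟩⟩
      · rintro ⟨g1, g2⟩
        refine ⟨g1, ?_⟩
        rintro ⟨x, hx, rfl⟩
        exact g2 (by rw [show dlE x = dl x from rfl, dl_dl]; exact hx)
    rw [this]
  rw [h1, PrP_not]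
  ring

end Pool.Agent.H99.NC
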