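import Mathlib
import Pool.Agent.H99.NC.RectP

set_option autoImplicit false
open Finset

/-! The Russo–Seymour–Welsh theorem for density `p`: long rectangles are crossed with probability
bounded below (resp. close to one) if squares are. -/

namespace Pool.Agent.H99.NC

open Pool.Agent.H75.Perc

lemma YY_inc (n m : ℕ) (ω : Finset (ℤ × ℤ)) : Inc (YY n m ω) := by
  rintro ω1 ω2 h ⟨v, l, hv, hl, hA⟩
  refine ⟨v, l, hv, hl, ?_⟩
  unfold AV at hA ⊢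
  exact Relation.ReflTransGen.lift id
    (fun a b hab => ⟨hab.1.mono (inter_subset_inter_right h), hab.2⟩) _ _ hA

/-- Square root trick. -/
lemma sqrt_trick {α : Type*} [DecidableEq α] {q : α → ℝ} (hq : Pb q) (E : Finset α)
    {A B : Finset α → Prop} (hA : Inc A) (hB : Inc B) (hAB : PrP q E A = PrP q E B) :
    1 - Real.sqrt (1 - PrP q E (fun ω => A ω ∨ B ω)) ≤ PrP q E A := by
  have h1 : PrP q E (fun ω => ¬ (A ω ∨ B ω)) = 1 - PrP q E (fun ω => A ω ∨ B ω) := PrP_not _ _ _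
  have h2 := PrP_harris hq E hA hB
  have h3 : PrP q E (fun ω => A ω ∨ B ω) + PrP q E (fun ω => A ω ∧ B ω) =
      PrP q E A + PrP q E B := by
    unfold PrP
    rw [← Ex_add, ← Ex_add]
    refine Ex_congr fun ω _ => ?_
    by_cases hA : A ω <;> by_cases hB : B ω <;> simp [ind, hA, hB]
  have h4 : (1 - PrP q E A) ^ 2 ≤ 1 - PrP q E (fun ω => A ω ∨ B ω) := by
    rw [← hAB] at h2 h3
    nlinarith
  have h5 := Real.sqrt_le_sqrt h4
  rw [Real.sqrt_sq (by linarith [PrP_le_one hq E A])] at h5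
  linarith

section

variable {p : ℝ} {n m : ℕ}

lemma PrP_YY' (p0 : 0 ≤ p) (p1 : p ≤ 1) {ω : Finset (ℤ × ℤ)} (h : reach n ω) :
    1 - Real.sqrt (1 - fcP p (n + m) (2 * n)) ≤
      PrP (cp p) (Bx (-m) n 1 (2 * n + 1)) (YY n m ω) := by
  have h1 : PrP (cp p) (Bx (-m) n 1 (2 * n + 1)) (HC (-m) n 1 (2 * n + 1)) ≤
      PrP (cp p) (Bx (-m) n 1 (2 * n + 1)) (fun ω' => YY n m ω ω' ∨
        YY n m ω (ω'.map (syY (2 * (n : ℤ) + 2)).G)) := by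
    apply PrP_mono (cp_Pb p0 p1)
    intro ω' _ hH
    obtain ⟨v, l, hv, hl, hAV⟩ := last_visit h hH
    rcases hv with hv | hv
    · exact Or.inl ⟨v, l, hv, hl, hAV⟩
    · exact Or.inr ⟨(v.1, 2 * (n : ℤ) + 2 - v.2), (l.1, 2 * (n : ℤ) + 2 - l.2), hv, hl,
        AV_mirror hAV⟩
  have hE : ∀ e, e ∈ Bx (-m) n 1 (2 * (n : ℤ) + 1) ↔
      (syY (2 * (n : ℤ) + 2)).G' e ∈ Bx (-m) n 1 (2 * (n : ℤ) + 1) := by
    intro e
    rw [mem_Bx, mem_Bx]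
    simp only [syY]
    omega
  have h2 := Sy_PrP (syY (2 * (n : ℤ) + 2)) p hE (YY n m ω)
  have h3 := sqrt_trick (cp_Pb p0 p1) (Bx (-m) n 1 (2 * n + 1)) (YY_inc n m ω)
    (map_inc (YY_inc n m ω) (syY (2 * (n : ℤ) + 2)).G) h2
  rw [PrP_HC' p (subset_refl _)] at h1
  have e1 : (n : ℤ) - -m = n + m := by ring
  have e2 : 2 * (n : ℤ) + 1 - 1 = 2 * n := by ring
  rw [e1, e2] at h1
  refine le_trans ?_ h3
  have h4 := Real.sqrt_le_sqrt (sub_le_sub_left h1 1)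
  linarith

/-- The RSW lemma. -/
theorem PrP_XX' (p0 : 0 ≤ p) (p1 : p ≤ 1) (hm : 1 ≤ m) :
    fcP p n n * (1 - Real.sqrt (1 - fcP p (n + m) (2 * n))) ≤
      PrP (cp p) (Bx (-m) n 1 (2 * n + 1)) (XX n m) := by
  have h1 := resampleP (cp_Pb p0 p1) (Bx (-m) n 1 (2 * (n : ℤ) + 1)) (UU n m)
    (fun ω ω' h1 h2 => UU_mix h1 h2) (XX n m) (VC 0 n 1 (n + 1)) (YY n m)
    (1 - Real.sqrt (1 - fcP p (n + m) (2 * n))) (fun ω _ hV => PrP_YY' p0 p1 (VC_reach hV))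
    (fun ω ω' _ _ hV hY => YY_XX hm (VC_reach hV) hY)
  rw [PrP_VC p (Bx_sub (by omega) le_rfl le_rfl (by omega))] at h1
  have e1 : (n : ℤ) + 1 - 1 = n := by ring
  have e2 : (n : ℤ) - 0 = n := by ring
  rw [e1, e2] at h1
  exact h1

lemma sqrt_one_sub_le_one {x : ℝ} (hx : 0 ≤ x) : 0 ≤ 1 - Real.sqrt (1 - x) := by
  have : Real.sqrt (1 - x) ≤ Real.sqrt 1 := Real.sqrt_le_sqrt (by linarith)
  rw [Real.sqrt_one] at this
  linarith

lemma fcP_step' (p0 : 0 ≤ p) (p1 : p ≤ 1) (hm : 1 ≤ m) :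
    (fcP p n n * (1 - Real.sqrt (1 - fcP p (n + m) (2 * n)))) ^ 2 * fcP p n n ≤
      fcP p (n + 2 * m) (2 * n) := by
  set E := Bx (-m) (n + m) 1 (2 * (n : ℤ) + 1) with hE
  have hsub : Bx (-m) n 1 (2 * (n : ℤ) + 1) ⊆ E := Bx_sub le_rfl (by omega) le_rfl le_rfl
  have h1 : fcP p n n * (1 - Real.sqrt (1 - fcP p (n + m) (2 * n))) ≤
      PrP (cp p) E (XX n m) := by
    have : PrP (cp p) E (XX n m) = PrP (cp p) (Bx (-m) n 1 (2 * (n : ℤ) + 1)) (XX n m) := by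
      rw [← PrP_restrict (cp p) hsub]
      exact PrP_congr fun ω _ => XX_restrict n m ω
    rw [this]
    exact PrP_XX' p0 p1 hm
  have hEE : ∀ e, e ∈ E ↔ (syX n).G' e ∈ E := by
    intro e
    rw [hE, mem_Bx, mem_Bx]
    simp only [syX]
    omega
  have h2 : PrP (cp p) E (fun ω => XX n m (ω.map (syX n).G)) = PrP (cp p) E (XX n m) :=
    (Sy_PrP (syX n) p hEE (XX n m)).symm
  have h3 : PrP (cp p) E (HC 0 n 1 (n + 1)) = fcP p n n := by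
    rw [PrP_HC' p (Bx_sub (by omega) (by omega) le_rfl (by omega))]
    exact congrArg₂ (fcP p) (by ring) (by ring)
  have h4 : PrP (cp p) E (HC (-m) (n + m) 1 (2 * n + 1)) = fcP p (n + 2 * m) (2 * n) := by
    rw [PrP_HC' p (subset_refl _)]
    exact congrArg₂ (fcP p) (by ring) (by ring)
  have h5 := harris3P (cp_Pb p0 p1) E (XX_inc n m) (map_inc (XX_inc n m) (syX n).G)
    (HC_inc 0 n 1 (n + 1))
  have h6 : PrP (cp p) E (fun ω => XX n m ω ∧ XX n m (ω.map (syX n).G) ∧ HC 0 n 1 (n + 1) ω) ≤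
      PrP (cp p) E (HC (-m) (n + m) 1 (2 * n + 1)) :=
    PrP_mono (cp_Pb p0 p1) fun ω _ h => XX_glue h.1 h.2.1 h.2.2
  rw [h2, h3] at h5
  rw [h4] at h6
  refine le_trans ?_ (h5.trans h6)
  have h7 : 0 ≤ fcP p n n * (1 - Real.sqrt (1 - fcP p (n + m) (2 * n))) :=
    mul_nonneg (fcP_nonneg p0 p1 _ _) (sqrt_one_sub_le_one (fcP_nonneg p0 p1 _ _))
  have h8 := fcP_nonneg p0 p1 n n
  apply mul_le_mul_of_nonneg_right _ h8
  rw [pow_two]
  exact mul_le_mul h1 h1 h7 (h7.trans h1)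

/-- `3 : 2` rectangles, lower bound. -/
theorem fcP_three (p0 : 0 ≤ p) (p1 : p ≤ 1) {δ : ℝ} (hδ : 0 ≤ δ) (hn : 1 ≤ n)
    (h1 : δ ≤ fcP p n n) (h2 : δ ≤ fcP p (2 * n) (2 * n)) :
    δ ^ 5 / 4 ≤ fcP p (3 * n) (2 * n) := by
  have h := fcP_step (n := n) (m := n) p0 p1 hn
  have e1 : (n : ℤ) + n = 2 * n := by ring
  have e2 : (n : ℤ) + 2 * n = 3 * n := by ring
  rw [e1, e2] at h
  refine le_trans ?_ h
  have h3 : δ * (δ / 2) ≤ fcP p n n * (fcP p (2 * n) (2 * n) / 2) :=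
    mul_le_mul h1 (by linarith) (div_nonneg hδ (by norm_num)) (hδ.trans h1)
  have h4 : (δ * (δ / 2)) ^ 2 ≤ (fcP p n n * (fcP p (2 * n) (2 * n) / 2)) ^ 2 :=
    pow_le_pow_left₀ (mul_nonneg hδ (div_nonneg hδ (by norm_num))) h3 2
  calc δ ^ 5 / 4 = (δ * (δ / 2)) ^ 2 * δ := by ring
    _ ≤ _ := mul_le_mul h4 h1 hδ (sq_nonneg _)

/-- `3 : 2` rectangles, close to one. -/
theorem fcP_three' (p0 : 0 ≤ p) (p1 : p ≤ 1) {δ : ℝ} (hδ : 0 ≤ δ) (hn : 1 ≤ n)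
    (h1 : 1 - δ ^ 2 ≤ fcP p n n) (h2 : 1 - δ ^ 2 ≤ fcP p (2 * n) (2 * n)) :
    1 - 5 * δ ≤ fcP p (3 * n) (2 * n) := by
  rcases le_or_gt (1 / 5) δ with hδ2 | hδ2
  · linarith [fcP_nonneg p0 p1 (3 * n) (2 * n)]
  have h := fcP_step' (n := n) (m := n) p0 p1 hn
  have e1 : (n : ℤ) + n = 2 * n := by ring
  have e2 : (n : ℤ) + 2 * n = 3 * n := by ring
  rw [e1, e2] at h
  refine le_trans ?_ h
  have h0 : Real.sqrt (1 - fcP p (2 * n) (2 * n)) ≤ δ := by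
    rw [← Real.sqrt_sq hδ]
    exact Real.sqrt_le_sqrt (by linarith)
  have h1' : 1 - δ ≤ fcP p n n := by nlinarith
  have h3 : (1 - δ) * (1 - δ) ≤
      fcP p n n * (1 - Real.sqrt (1 - fcP p (2 * n) (2 * n))) :=
    mul_le_mul h1' (by linarith) (by linarith) (by linarith)
  have h4 : ((1 - δ) * (1 - δ)) ^ 2 ≤
      (fcP p n n * (1 - Real.sqrt (1 - fcP p (2 * n) (2 * n)))) ^ 2 :=
    pow_le_pow_left₀ (by nlinarith) h3 2
  have h5 : 1 + (5 : ℕ) * (-δ) ≤ (1 + (-δ)) ^ 5 := one_add_mul_le_pow (by linarith) 5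
  calc 1 - 5 * δ ≤ ((1 - δ) * (1 - δ)) ^ 2 * (1 - δ) := by
        push_cast at h5
        calc 1 - 5 * δ = 1 + 5 * (-δ) := by ring
          _ ≤ (1 + (-δ)) ^ 5 := h5
          _ = _ := by ring
    _ ≤ _ := mul_le_mul h4 h1' (by linarith) (sq_nonneg _)

/-- Long rectangles, lower bound. -/
theorem fcP_long (p0 : 0 ≤ p) (p1 : p ≤ 1) {δ : ℝ} (hδ : 0 ≤ δ) (hn : 1 ≤ n)
    (h1 : δ ≤ fcP p n n) (h2 : δ ≤ fcP p (2 * n) (2 * n)) (k : ℕ) :
    (δ ^ 5 / 4 * δ) ^ k * δ ≤ fcP p ((k + 2) * n) (2 * n) := by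
  have h3 := fcP_three p0 p1 hδ hn h1 h2
  induction k with
  | zero => simpa using h2
  | succ k ih =>
    have h4 := fcP_glue (p := p) p0 p1 (w1 := ((k : ℤ) + 2) * n) (w2 := 3 * n) (v := 2 * n)
      (h := 2 * n) (by omega) (by nlinarith) (by omega)
    have e1 : ((k : ℤ) + 2) * n + 3 * n - 2 * n = ((k + 1 : ℕ) + 2) * n := by push_cast; ring
    rw [e1] at h4
    refine le_trans ?_ h4
    have g1 : 0 ≤ δ ^ 5 / 4 := div_nonneg (pow_nonneg hδ 5) (by norm_num)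
    have g2 : 0 ≤ (δ ^ 5 / 4 * δ) ^ k * δ := mul_nonneg (pow_nonneg (mul_nonneg g1 hδ) k) hδ
    calc (δ ^ 5 / 4 * δ) ^ (k + 1) * δ = ((δ ^ 5 / 4 * δ) ^ k * δ) * (δ ^ 5 / 4) * δ := by ring
      _ ≤ fcP p ((k + 2) * n) (2 * n) * fcP p (3 * n) (2 * n) * fcP p (2 * n) (2 * n) :=
        mul_le_mul (mul_le_mul ih h3 g1 (le_trans g2 ih)) h2 hδ
          (mul_nonneg (le_trans g2 ih) (le_trans g1 h3))

/-- Gluing, union bound. -/
lemma fcP_glue' (p0 : 0 ≤ p) (p1 : p ≤ 1) {w1 w2 v h : ℤ} (h0 : 0 ≤ v) (h1 : v ≤ w1)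
    (h2 : v ≤ w2) : 1 - fcP p (w1 + w2 - v) h ≤
      (1 - fcP p w1 h) + (1 - fcP p w2 h) + (1 - fcP p h v) := by
  set b := w1 + w2 - v with hb
  have hq := cp_Pb p0 p1
  have e0 : 1 - fcP p b h = PrP (cp p) (Bx 0 b 0 h) (fun ω => ¬ HC 0 b 0 h ω) :=
    (PrP_not _ _ _).symm
  have e1 : 1 - fcP p w1 h = PrP (cp p) (Bx 0 b 0 h) (fun ω => ¬ HC 0 w1 0 h ω) := by
    rw [PrP_not, PrP_HC' p (Bx_sub le_rfl (by omega) le_rfl le_rfl)]; simp
  have e2 : 1 - fcP p w2 h = PrP (cp p) (Bx 0 b 0 h) (fun ω => ¬ HC (w1 - v) b 0 h ω) := by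
    rw [PrP_not, PrP_HC' p (Bx_sub (by omega) le_rfl le_rfl le_rfl)]
    congr 2 <;> omega
  have e3 : 1 - fcP p h v = PrP (cp p) (Bx 0 b 0 h) (fun ω => ¬ VC (w1 - v) w1 0 h ω) := by
    rw [PrP_not, PrP_VC p (Bx_sub (by omega) (by omega) le_rfl le_rfl)]
    congr 2 <;> omega
  rw [e0, e1, e2, e3]
  refine le_trans ?_ (add_le_add_left (PrP_or_le hq _ _ _) _)
  refine le_trans ?_ (PrP_or_le hq _ _ _)
  refine PrP_mono hq fun ω _ hω => ?_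
  by_contra hcon
  push Not at hcon
  exact hω (glue_HC (by omega) (by omega) (by omega) hcon.1.1 hcon.1.2 hcon.2)

/-- Long rectangles, close to one. -/
theorem fcP_long' (p0 : 0 ≤ p) (p1 : p ≤ 1) {δ : ℝ} (hδ : 0 ≤ δ) (hδ1 : δ ≤ 1) (hn : 1 ≤ n)
    (h1 : 1 - δ ^ 2 ≤ fcP p n n) (h2 : 1 - δ ^ 2 ≤ fcP p (2 * n) (2 * n)) (k : ℕ) :
    1 - (6 * k + 1) * δ ≤ fcP p ((k + 2) * n) (2 * n) := by
  have h3 := fcP_three' p0 p1 hδ hn h1 h2
  have h2' : 1 - δ ≤ fcP p (2 * n) (2 * n) := by nlinarith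
  induction k with
  | zero => simpa using h2'
  | succ k ih =>
    have h4 := fcP_glue' (p := p) p0 p1 (w1 := ((k : ℤ) + 2) * n) (w2 := 3 * n) (v := 2 * n)
      (h := 2 * n) (by omega) (by nlinarith) (by omega)
    have e1 : ((k : ℤ) + 2) * n + 3 * n - 2 * n = ((k + 1 : ℕ) + 2) * n := by push_cast; ring
    rw [e1] at h4
    push_cast at h4 ⊢
    linarith

/-! ### General side lengths -/

lemma fcP_zero (h : ℤ) (hh : 0 ≤ h) : fcP p 0 h = 1 := by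
  have : fcP p 0 h = PrP (cp p) (Bx 0 0 0 h) (fun _ => True) := by
    unfold fcP hcP
    refine PrP_congr fun ω _ => ?_
    simp only [iff_true]
    exact ⟨(0, 0), (0, 0), by unfold inB; simp [hh], rfl, rfl, Co.refl _ _⟩
  rw [this, PrP_true]

lemma PrP_mem {α : Type*} [DecidableEq α] (q : α → ℝ) {E : Finset α} {e : α} (he : e ∈ E) :
    PrP q E (fun ω => e ∈ ω) = q e := by
  have h1 : PrP q E (fun ω => e ∈ ω) = PrP q E (fun ω => e ∈ ω ∩ {e}) :=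
    PrP_congr fun ω _ => by simp
  rw [h1, PrP_restrict q (singleton_subset_iff.2 he) (fun ω => e ∈ ω)]
  unfold PrP
  rw [← insert_empty_eq, Ex_insert q (by simp)]
  simp [Ex, wt, ind]

lemma fcP_one (p0 : 0 ≤ p) (p1 : p ≤ 1) : p ≤ fcP p 1 0 := by
  have h1 : p = PrP (cp p) (Bx 0 1 0 0) (fun ω => (1, 0) ∈ ω) := by
    rw [PrP_mem (cp p) (by rw [mem_Bx]; norm_num)]; rfl
  calc p = PrP (cp p) (Bx 0 1 0 0) (fun ω => (1, 0) ∈ ω) := h1
    _ ≤ PrP (cp p) (Bx 0 1 0 0) (HC 0 1 0 0) := by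
      refine PrP_mono (cp_Pb p0 p1) fun ω hω h => ?_
      refine ⟨(0, 0), (1, 0), by unfold inB; simp, rfl, rfl, Relation.ReflTransGen.single ⟨?_, ?_⟩⟩
      · left; norm_num
      · rw [mem_inter]
        have : ((0, 0) : ℤ × ℤ) + (1, 0) = (1, 0) := by norm_num
        rw [this]
        exact ⟨h, hω h⟩
    _ = fcP p 1 0 := rfl

lemma fcP_pow (p0 : 0 ≤ p) (p1 : p ≤ 1) (w : ℕ) {h : ℤ} (hh : 0 ≤ h) : p ^ w ≤ fcP p w h := by
  have key : p ^ w ≤ fcP p w 0 := by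
    induction w with
    | zero => simp [fcP_zero]
    | succ w ih =>
      have h4 := fcP_glue (p := p) p0 p1 (w1 := w) (w2 := 1) (v := 0) (h := 0) le_rfl (by omega)
        (by omega)
      rw [fcP_zero 0 le_rfl, mul_one] at h4
      push_cast
      rw [sub_zero] at h4
      refine le_trans ?_ h4
      rw [pow_succ]
      exact mul_le_mul ih (fcP_one p0 p1) p0 (fcP_nonneg p0 p1 _ _)
  exact key.trans (fcP_mono p0 p1 hh)

end

/-- **Russo–Seymour–Welsh**, all side lengths: if all squares up to side `N` are crossed with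
probability at least `δ`, then all `W × H` rectangles with `W ≤ k (H + 1)`, `H ≤ N` are crossed with
probability at least `c(δ, k)`. -/
theorem rswP (k : ℕ) {δ : ℝ} (hδ : 0 < δ) : ∃ c : ℝ, 0 < c ∧ ∀ p : ℝ, δ ≤ p → p ≤ 1 → ∀ N : ℕ,
    (∀ n : ℕ, 1 ≤ n → n ≤ N → δ ≤ fcP p n n) → ∀ W H : ℤ, 0 ≤ W → 0 ≤ H → H ≤ N →
    W ≤ k * (H + 1) → c ≤ fcP p W H := by
  refine ⟨min ((δ ^ 5 / 4 * δ) ^ (4 * k) * δ) ((min δ 1) ^ (2 * k)), ?_, ?_⟩
  · apply lt_min (by positivity)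
    have : 0 < min δ 1 := lt_min hδ one_pos
    positivity
  intro p hp p1 N hN W H hW hH hHN hWH
  have p0 : 0 ≤ p := hδ.le.trans hp
  rcases le_or_gt 2 H with h2 | h2
  · refine (min_le_left _ _).trans ?_
    obtain ⟨n, hn1, hn2⟩ : ∃ n : ℕ, 2 * (n : ℤ) ≤ H ∧ H ≤ 2 * n + 1 :=
      ⟨(H / 2).toNat, by omega, by omega⟩
    have h3 := fcP_long p0 p1 hδ.le (n := n) (by omega) (hN n (by omega) (by omega))
      (by have := hN (2 * n) (by omega) (by omega); push_cast at this; exact this) (4 * k)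
    refine h3.trans ?_
    refine (fcP_mono p0 p1 hn1).trans (fcP_anti p0 p1 hW ?_)
    have hn : (1 : ℤ) ≤ n := by omega
    have hk : (0 : ℤ) ≤ k := by omega
    have : (k : ℤ) * (H + 1) ≤ k * (4 * n) := by
      apply mul_le_mul_of_nonneg_left _ hk
      omega
    push_cast
    nlinarith
  · refine (min_le_right _ _).trans ?_
    obtain ⟨w, rfl⟩ : ∃ w : ℕ, (w : ℤ) = W := ⟨W.toNat, by omega⟩
    have hw : w ≤ 2 * k := by
      have hk : (0 : ℤ) ≤ k := by omega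
      have : (k : ℤ) * (H + 1) ≤ k * 2 := mul_le_mul_of_nonneg_left (by omega) hk
      omega
    refine le_trans ?_ (fcP_pow p0 p1 w hH)
    have h3 : 0 < min δ 1 := lt_min hδ one_pos
    calc (min δ 1) ^ (2 * k) ≤ (min δ 1) ^ w :=
          pow_le_pow_of_le_one h3.le (min_le_right _ _) hw
      _ ≤ p ^ w := pow_le_pow_left₀ h3.le ((min_le_left _ _).trans hp) w

/-- for `p ≥ 1/2` squares are crossed with probability at least `1/2`. -/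
lemma fcP_square {p : ℝ} (hp : 1 / 2 ≤ p) (p1 : p ≤ 1) (n : ℕ) : 1 / 2 ≤ fcP p n n := by
  have h1 := fc_square n
  rw [← fcP_half] at h1
  exact h1.trans (fcP_mono_p (by norm_num) hp p1 _ _)

/-- RSW for `p ≥ 1/2`, no hypothesis. -/
theorem rswP_half (k : ℕ) : ∃ c : ℝ, 0 < c ∧ ∀ p : ℝ, 1 / 2 ≤ p → p ≤ 1 → ∀ W H : ℤ, 0 ≤ W →
    0 ≤ H → W ≤ k * (H + 1) → c ≤ fcP p W H := by
  obtain ⟨c, hc, h⟩ := rswP k (δ := 1 / 2) (by norm_num)
  exact ⟨c, hc, fun p hp p1 W H hW hH hWH => h p hp p1 H.toNat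
    (fun n _ _ => fcP_square hp p1 n) W H hW hH (by omega) hWH⟩

end Pool.Agent.H99.NC
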