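import Mathlib
import Pool.Agent.H99.NC.PrP

set_option autoImplicit false
open Finset

/-! Variance of functions of independent bits and the Efron–Stein inequality for blocks. -/

namespace Pool.Agent.H99.NC

open Pool.Agent.H75.Perc

set_option linter.unusedSectionVars false

variable {α : Type*} [DecidableEq α]

/-- variance -/
noncomputable def Va (q : α → ℝ) (E : Finset α) (f : Finset α → ℝ) : ℝ :=
  Ex q E (fun ω => (f ω - Ex q E f) ^ 2)

lemma Va_nonneg {q : α → ℝ} (hq : Pb q) (E : Finset α) (f : Finset α → ℝ) : 0 ≤ Va q E f :=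
  Ex_nonneg hq fun _ _ => sq_nonneg _

lemma Va_eq (q : α → ℝ) (E : Finset α) (f : Finset α → ℝ) :
    Va q E f = Ex q E (fun ω => f ω ^ 2) - Ex q E f ^ 2 := by
  unfold Va
  have h1 : (fun ω : Finset α => (f ω - Ex q E f) ^ 2) =
      fun ω => (f ω ^ 2 - (2 * Ex q E f) * f ω) + Ex q E f ^ 2 := by
    funext ω; ring
  rw [h1, Ex_add, Ex_sub, Ex_smul, Ex_const]
  ring

lemma Va_congr {q : α → ℝ} {E : Finset α} {f g : Finset α → ℝ} (h : ∀ ω, ω ⊆ E → f ω = g ω) :
    Va q E f = Va q E g := by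
  unfold Va
  rw [Ex_congr h]
  exact Ex_congr fun ω hω => by rw [h ω hω]

/-- Jensen -/
lemma Ex_sq_le {q : α → ℝ} (hq : Pb q) (E : Finset α) (f : Finset α → ℝ) :
    Ex q E f ^ 2 ≤ Ex q E (fun ω => f ω ^ 2) := by
  have h1 := Va_nonneg hq E f
  rw [Va_eq] at h1
  linarith

/-- Two blocks. -/
lemma Va_union {q : α → ℝ} (hq : Pb q) {E1 E2 : Finset α} (hd : Disjoint E1 E2)
    (f : Finset α → ℝ) :
    Va q (E1 ∪ E2) f ≤ Ex q E1 (fun a => Va q E2 (fun b => f (a ∪ b))) +
      Ex q E2 (fun b => Va q E1 (fun a => f (a ∪ b))) := by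
  set F : Finset α → ℝ := fun a => Ex q E2 (fun b => f (a ∪ b)) with hF
  set G : Finset α → ℝ := fun b => Ex q E1 (fun a => f (a ∪ b)) with hG
  have hm1 : Ex q (E1 ∪ E2) f = Ex q E1 F := Ex_union q hd f
  have hm2 : Ex q (E1 ∪ E2) f = Ex q E2 G := by
    rw [hm1, hF, Ex_swap]
  have h1 : Va q (E1 ∪ E2) f = Ex q E1 (fun a => Va q E2 (fun b => f (a ∪ b))) + Va q E1 F := by
    rw [Va_eq, Va_eq q E1 F, ← hm1, Ex_union q hd]
    have h2 : (fun a => Va q E2 (fun b => f (a ∪ b))) =
        fun a => Ex q E2 (fun b => f (a ∪ b) ^ 2) - F a ^ 2 := by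
      funext a
      rw [Va_eq]
    rw [h2, Ex_sub]
    ring
  have h3 : Va q E1 F ≤ Ex q E2 (fun b => Va q E1 (fun a => f (a ∪ b))) := by
    unfold Va
    rw [← hm1, hm2, Ex_swap q q E2 E1 (fun b a => (f (a ∪ b) - G b) ^ 2)]
    refine Ex_mono hq fun a _ => ?_
    have h4 : F a - Ex q E2 G = Ex q E2 (fun b => f (a ∪ b) - G b) := by
      rw [Ex_sub]
    rw [h4]
    exact Ex_sq_le hq E2 _
  linarith

/-- **Efron–Stein inequality** for blocks. -/
theorem efron_stein {ι : Type*} [DecidableEq ι] {q : α → ℝ} (hq : Pb q) (s : Finset ι)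
    (B : ι → Finset α) (hd : ∀ i ∈ s, ∀ j ∈ s, i ≠ j → Disjoint (B i) (B j))
    (f : Finset α → ℝ) :
    Va q (s.biUnion B) f ≤
      ∑ i ∈ s, Ex q (s.biUnion B) (fun ω => Va q (B i) (fun x => f ((ω \ B i) ∪ x))) := by
  induction s using Finset.induction_on generalizing f with
  | empty => simp [Va]
  | @insert i s hi ih =>
    have hdis : Disjoint (B i) (s.biUnion B) := by
      rw [disjoint_biUnion_right]
      intro j hj
      exact hd i (mem_insert_self _ _) j (mem_insert_of_mem hj) (fun h => hi (h ▸ hj))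
    rw [biUnion_insert, sum_insert hi]
    refine (Va_union hq hdis f).trans ?_
    rw [add_comm]
    refine add_le_add (le_of_eq ?_) ?_
    · rw [Ex_union q hdis]
      symm
      rw [← Ex_const q (B i) (Ex q (s.biUnion B) (fun b => Va q (B i) (fun a => f (a ∪ b))))]
      refine Ex_congr fun a ha => Ex_congr fun b hb => Va_congr fun x hx => ?_
      congr 1
      ext y
      have h1 : y ∈ b → y ∉ B i := fun hy hB => (disjoint_left.1 hdis) hB (hb hy)
      have h2 : y ∈ a → y ∈ B i := fun hy => ha hy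
      simp only [mem_union, mem_sdiff]
      tauto
    · have h1 : ∀ a, a ⊆ B i → Va q (s.biUnion B) (fun b => f (a ∪ b)) ≤
          ∑ j ∈ s, Ex q (s.biUnion B)
            (fun b => Va q (B j) (fun x => f (a ∪ ((b \ B j) ∪ x)))) := by
        intro a _
        exact ih (fun j hj k hk => hd j (mem_insert_of_mem hj) k (mem_insert_of_mem hk))
          (fun b => f (a ∪ b))
      refine (Ex_mono hq h1).trans (le_of_eq ?_)
      rw [Ex_sum]
      refine sum_congr rfl fun j hj => ?_
      rw [Ex_union q hdis]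
      refine Ex_congr fun a ha => Ex_congr fun b hb => Va_congr fun x hx => ?_
      congr 1
      have hij : Disjoint (B i) (B j) := hd i (mem_insert_self _ _) j (mem_insert_of_mem hj)
        (fun h => hi (h ▸ hj))
      ext y
      have h2 : y ∈ a → y ∉ B j := fun hy hB => (disjoint_left.1 hij) (ha hy) hB
      simp only [mem_union, mem_sdiff]
      tauto

lemma Va_ind (q : α → ℝ) (E : Finset α) (X : Finset α → Prop) :
    Va q E (fun ω => ind (X ω)) = PrP q E X * (1 - PrP q E X) := by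
  rw [Va_eq]
  have h1 : (fun ω : Finset α => ind (X ω) ^ 2) = fun ω => ind (X ω) := by
    funext ω
    by_cases h : X ω <;> simp [ind, h]
  rw [h1]
  unfold PrP
  ring

lemma Va_ind_le {q : α → ℝ} (E : Finset α) (X : Finset α → Prop) :
    Va q E (fun ω => ind (X ω)) ≤
      1 / 4 * ind ((∃ x, x ⊆ E ∧ X x) ∧ ∃ y, y ⊆ E ∧ ¬ X y) := by
  by_cases h : (∃ x, x ⊆ E ∧ X x) ∧ ∃ y, y ⊆ E ∧ ¬ X y
  · rw [ind_true h, Va_ind]
    nlinarith [sq_nonneg (PrP q E X - 1 / 2)]
  · rw [ind_false h, mul_zero]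
    have h1 : (∀ x, x ⊆ E → X x) ∨ ∀ x, x ⊆ E → ¬ X x := by
      by_contra hcon
      push Not at hcon
      obtain ⟨⟨x, hx1, hx2⟩, ⟨y, hy1, hy2⟩⟩ := hcon
      exact h ⟨⟨y, hy1, hy2⟩, ⟨x, hx1, hx2⟩⟩
    rw [Va_ind]
    rcases h1 with h1 | h1
    · have : PrP q E X = 1 := by
        rw [← PrP_true q E]
        exact PrP_congr fun ω hω => ⟨fun _ => trivial, fun _ => h1 ω hω⟩
      rw [this]; norm_num
    · have : PrP q E X = 0 := by
        have h2 := PrP_not q E X
        have h3 : PrP q E (fun ω => ¬ X ω) = 1 := by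
          rw [← PrP_true q E]
          exact PrP_congr fun ω hω => ⟨fun _ => trivial, fun _ => h1 ω hω⟩
        rw [h3] at h2
        linarith
      rw [this]; norm_num

/-- The block `B` is influential for `X` at `ω`. -/
def Infl (B : Finset α) (X : Finset α → Prop) (ω : Finset α) : Prop :=
  (∃ x, x ⊆ B ∧ X ((ω \ B) ∪ x)) ∧ ∃ y, y ⊆ B ∧ ¬ X ((ω \ B) ∪ y)

lemma Infl_inc {B : Finset α} {X : Finset α → Prop} (hX : Inc X) (ω : Finset α) :
    Infl B X ω ↔ X (ω ∪ B) ∧ ¬ X (ω \ B) := by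
  constructor
  · rintro ⟨⟨x, hx, h1⟩, ⟨y, hy, h2⟩⟩
    exact ⟨hX _ _ (union_subset_union sdiff_subset hx) h1,
      fun h => h2 (hX _ _ subset_union_left h)⟩
  · rintro ⟨h1, h2⟩
    refine ⟨⟨B, subset_refl _, ?_⟩, ⟨∅, empty_subset _, by rwa [union_empty]⟩⟩
    rwa [sdiff_union_self_eq_union]

/-- Efron–Stein for events. -/
theorem efron_stein_ind {ι : Type*} [DecidableEq ι] {q : α → ℝ} (hq : Pb q) (s : Finset ι)
    (B : ι → Finset α) (hd : ∀ i ∈ s, ∀ j ∈ s, i ≠ j → Disjoint (B i) (B j))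
    (X : Finset α → Prop) :
    PrP q (s.biUnion B) X * (1 - PrP q (s.biUnion B) X) ≤
      1 / 4 * ∑ i ∈ s, PrP q (s.biUnion B) (Infl (B i) X) := by
  rw [← Va_ind]
  refine (efron_stein hq s B hd _).trans ?_
  rw [mul_sum]
  refine sum_le_sum fun i _ => ?_
  unfold PrP
  rw [← Ex_smul]
  exact Ex_mono hq fun ω _ => Va_ind_le (B i) (fun x => X ((ω \ B i) ∪ x))

/-- Efron–Stein for events with an exceptional set: the edges outside of the blocks form one more
block. -/
theorem efron_stein_ind' {ι : Type*} [DecidableEq ι] {q : α → ℝ} (hq : Pb q) {E : Finset α}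
    (s : Finset ι) (B : ι → Finset α) (hB : ∀ i ∈ s, B i ⊆ E)
    (hd : ∀ i ∈ s, ∀ j ∈ s, i ≠ j → Disjoint (B i) (B j)) (X : Finset α → Prop) :
    PrP q E X * (1 - PrP q E X) ≤
      1 / 4 * (PrP q E (Infl (E \ s.biUnion B) X) + ∑ i ∈ s, PrP q E (Infl (B i) X)) := by
  set C : Option ι → Finset α := fun o => o.elim (E \ s.biUnion B) B with hC
  set t : Finset (Option ι) := insertNone s with ht
  have hsub : s.biUnion B ⊆ E := biUnion_subset.2 hB
  have hE : t.biUnion C = E := by
    ext x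
    simp only [ht, hC, mem_biUnion, mem_insertNone, Option.mem_def]
    constructor
    · rintro ⟨o, ho, hx⟩
      cases o with
      | none => exact (mem_sdiff.1 hx).1
      | some i => exact hB i (ho i rfl) hx
    · intro hx
      by_cases h : x ∈ s.biUnion B
      · obtain ⟨i, hi, hxi⟩ := mem_biUnion.1 h
        exact ⟨some i, fun j hj => by rw [Option.some.injEq] at hj; exact hj ▸ hi, hxi⟩
      · exact ⟨none, fun j hj => by simp at hj, mem_sdiff.2 ⟨hx, h⟩⟩
  have h1 := efron_stein_ind hq t C (by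
    intro i hi j hj hij
    simp only [ht, mem_insertNone, Option.mem_def] at hi hj
    cases i with
    | none =>
      cases j with
      | none => exact absurd rfl hij
      | some j =>
        exact disjoint_left.2 fun x hx hx' =>
          (mem_sdiff.1 hx).2 (mem_biUnion.2 ⟨j, hj j rfl, hx'⟩)
    | some i =>
      cases j with
      | none =>
        exact disjoint_left.2 fun x hx hx' =>
          (mem_sdiff.1 hx').2 (mem_biUnion.2 ⟨i, hi i rfl, hx⟩)
      | some j => exact hd i (hi i rfl) j (hj j rfl) (fun h => hij (by rw [h]))) X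
  rw [hE] at h1
  refine h1.trans (le_of_eq ?_)
  congr 1
  rw [ht, sum_insertNone]
  rfl

end Pool.Agent.H99.NC
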