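import Mathlib
import Pool.Agent.H99.NC.RswP

set_option autoImplicit false
open Finset

/-! Rings of four crossings, gluing of connections; densities at least one half. -/

namespace Pool.Agent.H99.NC

open Pool.Agent.H75.Perc

/-- sup-distance at most `r` from `c` -/
def inR (c : ℤ × ℤ) (r : ℤ) (u : ℤ × ℤ) : Prop := inB (c.1 - r) (c.1 + r) (c.2 - r) (c.2 + r) u

/-- edges of the box of radius `r` around `c` -/
noncomputable def BR (c : ℤ × ℤ) (r : ℤ) : Finset (ℤ × ℤ) :=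
  Bx (c.1 - r) (c.1 + r) (c.2 - r) (c.2 + r)

lemma inR_iff {c : ℤ × ℤ} {r : ℤ} {u : ℤ × ℤ} : inR c r u ↔
    (c.1 - r ≤ u.1 ∧ u.1 ≤ c.1 + r) ∧ (c.2 - r ≤ u.2 ∧ u.2 ≤ c.2 + r) := Iff.rfl

/-- Ring event at scale `a` around `c`. -/
def Ring (c : ℤ × ℤ) (a : ℤ) (ω : Finset (ℤ × ℤ)) : Prop :=
  (HC (c.1 - 2 * a) (c.1 + 2 * a) (c.2 + a) (c.2 + 2 * a) ω ∧
    HC (c.1 - 2 * a) (c.1 + 2 * a) (c.2 - 2 * a) (c.2 - a) ω) ∧
  (VC (c.1 - 2 * a) (c.1 - a) (c.2 - 2 * a) (c.2 + 2 * a) ω ∧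
    VC (c.1 + a) (c.1 + 2 * a) (c.2 - 2 * a) (c.2 + 2 * a) ω)

lemma Ring_inc (c : ℤ × ℤ) (a : ℤ) : Inc (Ring c a) := fun _ _ h hR =>
  ⟨⟨HC_inc _ _ _ _ _ _ h hR.1.1, HC_inc _ _ _ _ _ _ h hR.1.2⟩,
    ⟨VC_inc _ _ _ _ _ _ h hR.2.1, VC_inc _ _ _ _ _ _ h hR.2.2⟩⟩

/-- Every path which crosses the annulus is connected to the ring. -/
theorem Ring.spec {c : ℤ × ℤ} {a : ℤ} (ha : 1 ≤ a) {ω : Finset (ℤ × ℤ)} (h : Ring c a ω) :
    ∃ r, ∀ u v, inR c (a - 1) u → ¬ inR c (2 * a - 1) v → Co ω u v → Co ω u r := by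
  obtain ⟨⟨⟨t, t', t1, t2, t3, t4⟩, ⟨b, b', b1, b2, b3, b4⟩⟩,
    ⟨⟨l, l', l1, l2, l3, l4⟩, ⟨r, r', r1, r2, r3, r4⟩⟩⟩ := h
  have sT : ω ∩ Bx (c.1 - 2 * a) (c.1 + 2 * a) (c.2 + a) (c.2 + 2 * a) ⊆
      Bx (c.1 - 2 * a) (c.1 + 2 * a) (c.2 - 2 * a) (c.2 + 2 * a) :=
    inter_subset_right.trans (Bx_sub le_rfl le_rfl (by omega) le_rfl)
  have sB : ω ∩ Bx (c.1 - 2 * a) (c.1 + 2 * a) (c.2 - 2 * a) (c.2 - a) ⊆
      Bx (c.1 - 2 * a) (c.1 + 2 * a) (c.2 - 2 * a) (c.2 + 2 * a) :=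
    inter_subset_right.trans (Bx_sub le_rfl le_rfl le_rfl (by omega))
  have sL : ω ∩ Bx (c.1 - 2 * a) (c.1 - a) (c.2 - 2 * a) (c.2 + 2 * a) ⊆
      Bx (c.1 - 2 * a) (c.1 + 2 * a) (c.2 - 2 * a) (c.2 + 2 * a) :=
    inter_subset_right.trans (Bx_sub le_rfl (by omega) le_rfl le_rfl)
  have sR : ω ∩ Bx (c.1 + a) (c.1 + 2 * a) (c.2 - 2 * a) (c.2 + 2 * a) ⊆
      Bx (c.1 - 2 * a) (c.1 + 2 * a) (c.2 - 2 * a) (c.2 + 2 * a) :=
    inter_subset_right.trans (Bx_sub (by omega) le_rfl le_rfl le_rfl)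
  have hT : inB (c.1 - 2 * a) (c.1 + 2 * a) (c.2 - 2 * a) (c.2 + 2 * a) t := by
    unfold inB at t1 ⊢; omega
  have hB : inB (c.1 - 2 * a) (c.1 + 2 * a) (c.2 - 2 * a) (c.2 + 2 * a) b := by
    unfold inB at b1 ⊢; omega
  have hL : inB (c.1 - 2 * a) (c.1 + 2 * a) (c.2 - 2 * a) (c.2 + 2 * a) l := by
    unfold inB at l1 ⊢; omega
  have hR : inB (c.1 - 2 * a) (c.1 + 2 * a) (c.2 - 2 * a) (c.2 + 2 * a) r := by
    unfold inB at r1 ⊢; omega
  obtain ⟨x1, x1a, x1b⟩ := cross_co sT sR hT hR t4 r4 t2 t3 r2 r3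
  obtain ⟨x2, x2a, x2b⟩ := cross_co sB sR hB hR b4 r4 b2 b3 r2 r3
  obtain ⟨x3, x3a, x3b⟩ := cross_co sT sL hT hL t4 l4 t2 t3 l2 l3
  have tr : Co ω t r := (x1a.mono inter_subset_left).trans (x1b.mono inter_subset_left).symm
  have br : Co ω b r := (x2a.mono inter_subset_left).trans (x2b.mono inter_subset_left).symm
  have lr : Co ω l r :=
    ((x3b.mono inter_subset_left).trans (x3a.mono inter_subset_left).symm).trans tr
  refine ⟨r, fun u v hu hv huv => ?_⟩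
  rw [inR_iff] at hu
  obtain ⟨z, z', c1, c2, c3, c4, c5⟩ := exit_co
    (X := inB (c.1 - (2 * a - 1)) (c.1 + (2 * a - 1)) (c.2 - (2 * a - 1)) (c.2 + (2 * a - 1))) huv
    (by unfold inB; omega) hv
  have c6 : Co (ω ∩ Bx (c.1 - (2 * a - 1)) (c.1 + (2 * a - 1)) (c.2 - (2 * a - 1))
      (c.2 + (2 * a - 1))) u z := c4.box (fun z hz => hz) (by unfold inB; omega)
  have hun := unit_cases c3.1
  set W := ω ∩ Bx (c.1 - 2 * a) (c.1 + 2 * a) (c.2 - 2 * a) (c.2 + 2 * a) with hW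
  have c7 : Co W u z := c6.mono (inter_subset_inter_left
    (Bx_sub (by omega) (by omega) (by omega) (by omega)))
  have hz'B : inB (c.1 - 2 * a) (c.1 + 2 * a) (c.2 - 2 * a) (c.2 + 2 * a) z' := by
    unfold inB at c1 ⊢; omega
  have c8 : Co W u z' := Relation.ReflTransGen.tail c7 ⟨c3.1, mem_inter.2 ⟨c3.2,
    add_mem_Bx c3.1 (by unfold inB at c1 ⊢; omega) hz'B⟩⟩
  have c9 : Co ω u z' := c8.mono inter_subset_left
  have hside : z'.1 = c.1 + 2 * a ∨ z'.1 = c.1 - 2 * a ∨ z'.2 = c.2 + 2 * a ∨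
      z'.2 = c.2 - 2 * a := by
    unfold inB at c1 c2
    omega
  rcases hside with hs | hs | hs | hs
  · -- right
    obtain ⟨y, y', d1, d2, d3, d4, -⟩ := exit_co
      (X := inB (c.1 + a) (c.1 + 2 * a) (c.2 - 2 * a) (c.2 + 2 * a)) c8.symm
      (by unfold inB at hz'B ⊢; omega) (by unfold inB; omega)
    have hy' := (d3.inB inter_subset_right).2
    have hy1 : y.1 = c.1 + a := by
      have := unit_cases d3.1
      unfold inB at d1 d2 hy'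
      omega
    have d5 : Co (W ∩ Bx (c.1 + a) (c.1 + 2 * a) (c.2 - 2 * a) (c.2 + 2 * a)) z' y :=
      d4.box (fun z hz => hz) (by unfold inB at hz'B ⊢; omega)
    obtain ⟨x, xa, xb⟩ := cross_co inter_subset_right inter_subset_right d1 r1 d5.symm r4 hy1 hs
      r2 r3
    have e1 : Co ω z' x := ((d5.trans xa).mono (inter_subset_left.trans inter_subset_left))
    exact (c9.trans e1).trans (xb.mono inter_subset_left).symm
  · -- left
    obtain ⟨y, y', d1, d2, d3, d4, -⟩ := exit_co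
      (X := inB (c.1 - 2 * a) (c.1 - a) (c.2 - 2 * a) (c.2 + 2 * a)) c8.symm
      (by unfold inB at hz'B ⊢; omega) (by unfold inB; omega)
    have hy' := (d3.inB inter_subset_right).2
    have hy1 : y.1 = c.1 - a := by
      have := unit_cases d3.1
      unfold inB at d1 d2 hy'
      omega
    have hz'X : inB (c.1 - 2 * a) (c.1 - a) (c.2 - 2 * a) (c.2 + 2 * a) z' := by
      unfold inB at hz'B ⊢; omega
    have d5 : Co (W ∩ Bx (c.1 - 2 * a) (c.1 - a) (c.2 - 2 * a) (c.2 + 2 * a)) z' y :=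
      d4.box (fun z hz => hz) hz'X
    obtain ⟨x, xa, xb⟩ := cross_co inter_subset_right inter_subset_right hz'X l1 d5 l4 hs hy1
      l2 l3
    have e1 : Co ω z' x := xa.mono (inter_subset_left.trans inter_subset_left)
    exact ((c9.trans e1).trans (xb.mono inter_subset_left).symm).trans lr
  · -- top
    obtain ⟨y, y', d1, d2, d3, d4, -⟩ := exit_co
      (X := inB (c.1 - 2 * a) (c.1 + 2 * a) (c.2 + a) (c.2 + 2 * a)) c8.symm
      (by unfold inB at hz'B ⊢; omega) (by unfold inB; omega)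
    have hy' := (d3.inB inter_subset_right).2
    have hy1 : y.2 = c.2 + a := by
      have := unit_cases d3.1
      unfold inB at d1 d2 hy'
      omega
    have d5 : Co (W ∩ Bx (c.1 - 2 * a) (c.1 + 2 * a) (c.2 + a) (c.2 + 2 * a)) z' y :=
      d4.box (fun z hz => hz) (by unfold inB at hz'B ⊢; omega)
    obtain ⟨x, xa, xb⟩ := cross_co inter_subset_right inter_subset_right t1 d1 t4 d5.symm t2 t3
      hy1 hs
    have e1 : Co ω z' x := ((d5.trans xb).mono (inter_subset_left.trans inter_subset_left))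
    exact ((c9.trans e1).trans (xa.mono inter_subset_left).symm).trans tr
  · -- bottom
    obtain ⟨y, y', d1, d2, d3, d4, -⟩ := exit_co
      (X := inB (c.1 - 2 * a) (c.1 + 2 * a) (c.2 - 2 * a) (c.2 - a)) c8.symm
      (by unfold inB at hz'B ⊢; omega) (by unfold inB; omega)
    have hy' := (d3.inB inter_subset_right).2
    have hy1 : y.2 = c.2 - a := by
      have := unit_cases d3.1
      unfold inB at d1 d2 hy'
      omega
    have hz'X : inB (c.1 - 2 * a) (c.1 + 2 * a) (c.2 - 2 * a) (c.2 - a) z' := by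
      unfold inB at hz'B ⊢; omega
    have d5 : Co (W ∩ Bx (c.1 - 2 * a) (c.1 + 2 * a) (c.2 - 2 * a) (c.2 - a)) z' y :=
      d4.box (fun z hz => hz) hz'X
    obtain ⟨x, xa, xb⟩ := cross_co inter_subset_right inter_subset_right b1 hz'X b4 d5 b2 b3
      hs hy1
    have e1 : Co ω z' x := xb.mono (inter_subset_left.trans inter_subset_left)
    exact ((c9.trans e1).trans (xa.mono inter_subset_left).symm).trans br

/-! ### Probabilities for densities at least one half -/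

/-- densities in `[1/2, 1]` -/
def Qh (q : ℤ × ℤ → ℝ) : Prop := ∀ e, 1 / 2 ≤ q e ∧ q e ≤ 1

lemma Qh.pb {q : ℤ × ℤ → ℝ} (h : Qh q) : Pb q := fun e => ⟨by linarith [(h e).1], (h e).2⟩

lemma Qh.ge_half {q : ℤ × ℤ → ℝ} (h : Qh q) {E : Finset (ℤ × ℤ)} {A : Finset (ℤ × ℤ) → Prop}
    (hA : Inc A) : PrP (cp (1 / 2)) E A ≤ PrP q E A :=
  PrP_mono_q (cp_Pb (by norm_num) (by norm_num)) h.pb (fun e _ => (h e).1) hA

/-- RSW for all densities at least `1/2` -/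
theorem rsw_q (k : ℕ) : ∃ c : ℝ, 0 < c ∧ ∀ q : ℤ × ℤ → ℝ, Qh q → ∀ (E : Finset (ℤ × ℤ))
    (a b x y : ℤ), a ≤ b → x ≤ y → Bx a b x y ⊆ E →
    (b - a ≤ k * (y - x + 1) → c ≤ PrP q E (HC a b x y)) ∧
    (y - x ≤ k * (b - a + 1) → c ≤ PrP q E (VC a b x y)) := by
  obtain ⟨c, hc, h⟩ := rswP_half k
  refine ⟨c, hc, fun q hq E a b x y hab hxy hE => ⟨fun h1 => ?_, fun h1 => ?_⟩⟩
  · refine le_trans ?_ (hq.ge_half (HC_inc a b x y))
    rw [PrP_HC' _ hE]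
    exact h _ le_rfl (by norm_num) _ _ (by omega) (by omega) h1
  · refine le_trans ?_ (hq.ge_half (VC_inc a b x y))
    rw [PrP_VC _ hE]
    exact h _ le_rfl (by norm_num) _ _ (by omega) (by omega) h1

/-- Probability of the ring. -/
theorem ring_q : ∃ c : ℝ, 0 < c ∧ ∀ q : ℤ × ℤ → ℝ, Qh q → ∀ (E : Finset (ℤ × ℤ)) (c0 : ℤ × ℤ)
    (a : ℤ), 1 ≤ a → BR c0 (2 * a) ⊆ E → c ≤ PrP q E (Ring c0 a) := by
  obtain ⟨c, hc, h⟩ := rsw_q 4
  refine ⟨(c * c) * (c * c), by positivity, fun q hq E c0 a ha hE => ?_⟩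
  unfold BR at hE
  have h1 := (h q hq E (c0.1 - 2 * a) (c0.1 + 2 * a) (c0.2 + a) (c0.2 + 2 * a) (by omega)
    (by omega) ((Bx_sub le_rfl le_rfl (by omega) le_rfl).trans hE)).1 (by push_cast; omega)
  have h2 := (h q hq E (c0.1 - 2 * a) (c0.1 + 2 * a) (c0.2 - 2 * a) (c0.2 - a) (by omega)
    (by omega) ((Bx_sub le_rfl le_rfl le_rfl (by omega)).trans hE)).1 (by push_cast; omega)
  have h3 := (h q hq E (c0.1 - 2 * a) (c0.1 - a) (c0.2 - 2 * a) (c0.2 + 2 * a) (by omega)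
    (by omega) ((Bx_sub le_rfl (by omega) le_rfl le_rfl).trans hE)).2 (by push_cast; omega)
  have h4 := (h q hq E (c0.1 + a) (c0.1 + 2 * a) (c0.2 - 2 * a) (c0.2 + 2 * a) (by omega)
    (by omega) ((Bx_sub (by omega) le_rfl le_rfl le_rfl).trans hE)).2 (by push_cast; omega)
  have k1 := PrP_harris hq.pb E (HC_inc (c0.1 - 2 * a) (c0.1 + 2 * a) (c0.2 + a) (c0.2 + 2 * a))
    (HC_inc (c0.1 - 2 * a) (c0.1 + 2 * a) (c0.2 - 2 * a) (c0.2 - a))
  have k2 := PrP_harris hq.pb E (VC_inc (c0.1 - 2 * a) (c0.1 - a) (c0.2 - 2 * a) (c0.2 + 2 * a))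
    (VC_inc (c0.1 + a) (c0.1 + 2 * a) (c0.2 - 2 * a) (c0.2 + 2 * a))
  have k3 := PrP_harris hq.pb E
    (Inc.and (HC_inc (c0.1 - 2 * a) (c0.1 + 2 * a) (c0.2 + a) (c0.2 + 2 * a))
      (HC_inc (c0.1 - 2 * a) (c0.1 + 2 * a) (c0.2 - 2 * a) (c0.2 - a)))
    (Inc.and (VC_inc (c0.1 - 2 * a) (c0.1 - a) (c0.2 - 2 * a) (c0.2 + 2 * a))
      (VC_inc (c0.1 + a) (c0.1 + 2 * a) (c0.2 - 2 * a) (c0.2 + 2 * a)))
  have m1 := (mul_le_mul h1 h2 hc.le (hc.le.trans h1)).trans k1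
  have m2 := (mul_le_mul h3 h4 hc.le (hc.le.trans h3)).trans k2
  exact (mul_le_mul m1 m2 (by positivity) (le_trans (by positivity) m1)).trans k3

/-! ### Gluing -/

/-- connection of the origin to distance at least `m` -/
def Arm (m : ℤ) (ω : Finset (ℤ × ℤ)) : Prop := ∃ z, ¬ inR 0 (m - 1) z ∧ Co ω 0 z

lemma Arm_inc (m : ℤ) : Inc (Arm m) := fun _ _ h ⟨z, h1, h2⟩ => ⟨z, h1, h2.mono h⟩

/-- connection from distance less than `A` to distance at least `n` -/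
def Arm2 (A n : ℤ) (ω : Finset (ℤ × ℤ)) : Prop :=
  ∃ u v, inR 0 (A - 1) u ∧ ¬ inR 0 (n - 1) v ∧ Co ω u v

lemma Arm2_inc (A n : ℤ) : Inc (Arm2 A n) := fun _ _ h ⟨u, v, h1, h2, h3⟩ =>
  ⟨u, v, h1, h2, h3.mono h⟩

/-- Gluing an inner and an outer arm. -/
lemma glue_arms {a A n : ℤ} (ha : 1 ≤ a) (haA : a ≤ A) (hAn : 2 * A ≤ n)
    {ω : Finset (ℤ × ℤ)} (h1 : Arm (2 * a) ω) (h2 : Arm2 A n ω) (h3 : Ring 0 a ω)
    (h4 : Ring 0 A ω) (h5 : HC 0 (2 * A) (-(a - 1)) (a - 1) ω) : Arm n ω := by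
  obtain ⟨r1, s1⟩ := h3.spec ha
  obtain ⟨r2, s2⟩ := h4.spec (by omega)
  obtain ⟨z, z1, z2⟩ := h1
  obtain ⟨u, v, u1, u2, u3⟩ := h2
  obtain ⟨p, q, p1, p2, p3, p4⟩ := h5
  have g1 := s1 0 z (by rw [inR_iff]; simp only [Prod.fst_zero, Prod.snd_zero]; omega) z1 z2
  have g2 := s2 u v u1 (fun h => u2 (by rw [inR_iff] at h ⊢; omega)) u3
  have p5 : Co ω p q := p4.mono inter_subset_left
  have g3 := s1 p q (by unfold inB at p1; rw [inR_iff]; simp only [Prod.fst_zero, Prod.snd_zero]; omega)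
    (fun h => by rw [inR_iff] at h; simp only [Prod.fst_zero] at h; omega) p5
  have g4 := s2 p q (by unfold inB at p1; rw [inR_iff]; simp only [Prod.fst_zero, Prod.snd_zero]; omega)
    (fun h => by rw [inR_iff] at h; simp only [Prod.fst_zero] at h; omega) p5
  exact ⟨v, u2, ((g1.trans g3.symm).trans (g4.trans g2.symm)).trans u3⟩

/-- Extending an arm. -/
lemma glue_arm1 {a n : ℤ} (ha : 1 ≤ a) (han : 2 * a ≤ n)
    {ω : Finset (ℤ × ℤ)} (h1 : Arm (2 * a) ω) (h3 : Ring 0 a ω)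
    (h5 : HC 0 n (-(a - 1)) (a - 1) ω) : Arm n ω := by
  obtain ⟨r1, s1⟩ := h3.spec ha
  obtain ⟨z, z1, z2⟩ := h1
  obtain ⟨p, q, p1, p2, p3, p4⟩ := h5
  have g1 := s1 0 z (by rw [inR_iff]; simp only [Prod.fst_zero, Prod.snd_zero]; omega) z1 z2
  have p5 : Co ω p q := p4.mono inter_subset_left
  have g3 := s1 p q (by unfold inB at p1; rw [inR_iff]; simp only [Prod.fst_zero, Prod.snd_zero]; omega)
    (fun h => by rw [inR_iff] at h; simp only [Prod.fst_zero] at h; omega) p5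
  exact ⟨q, fun h => by rw [inR_iff] at h; simp only [Prod.fst_zero] at h; omega,
    (g1.trans g3.symm).trans p5⟩

/-- Probabilistic gluing, two arms. The edge sets `E1`, `E2` are where the arms live. -/
theorem glue_prob (k : ℕ) : ∃ c : ℝ, 0 < c ∧ ∀ q : ℤ × ℤ → ℝ, Qh q →
    ∀ (E E1 E2 : Finset (ℤ × ℤ)) (a A n : ℤ), 1 ≤ a → a ≤ A → 2 * A ≤ n →
    2 * A ≤ k * (2 * a - 1) → BR 0 (2 * A) ⊆ E → E1 ⊆ E → E2 ⊆ E →
    c * (PrP q E1 (Arm (2 * a)) * PrP q E2 (Arm2 A n)) ≤ PrP q E (Arm n) := by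
  obtain ⟨c1, hc1, hR⟩ := ring_q
  obtain ⟨c2, hc2, hH⟩ := rsw_q k
  refine ⟨c1 * c1 * c2, by positivity, fun q hq E E1 E2 a A n ha haA hAn hk hE h1 h2 => ?_⟩
  have r1 := hR q hq E 0 a ha (by
    refine subset_trans ?_ hE
    unfold BR
    exact Bx_sub (by omega) (by omega) (by omega) (by omega))
  have r2 := hR q hq E 0 A (by omega) hE
  have r3 := (hH q hq E 0 (2 * A) (-(a - 1)) (a - 1) (by omega) (by omega) (by
    refine subset_trans ?_ hE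
    unfold BR
    simp only [Prod.fst_zero, Prod.snd_zero]
    exact Bx_sub (by omega) (by omega) (by omega) (by omega))).1 (by
      have e1 : (a - 1 - -(a - 1) + 1) = 2 * a - 1 := by ring
      rw [e1, sub_zero]
      exact hk)
  have a1 := PrP_inc hq.pb h1 (Arm_inc (2 * a))
  have a2 := PrP_inc hq.pb h2 (Arm2_inc A n)
  have f1 := harris3P hq.pb E (Ring_inc 0 a) (Ring_inc 0 A) (HC_inc 0 (2 * A) (-(a - 1)) (a - 1))
  have f2 := PrP_harris hq.pb E (Arm_inc (2 * a)) (Arm2_inc A n)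
  have f3 := PrP_harris hq.pb E
    (Inc.and (Ring_inc 0 a) (Inc.and (Ring_inc 0 A) (HC_inc 0 (2 * A) (-(a - 1)) (a - 1))))
    (Inc.and (Arm_inc (2 * a)) (Arm2_inc A n))
  have f4 : PrP q E (fun ω => (Ring 0 a ω ∧ Ring 0 A ω ∧ HC 0 (2 * A) (-(a - 1)) (a - 1) ω) ∧
      (Arm (2 * a) ω ∧ Arm2 A n ω)) ≤ PrP q E (Arm n) :=
    PrP_mono hq.pb fun ω _ h => glue_arms ha haA hAn h.2.1 h.2.2 h.1.1 h.1.2.1 h.1.2.2
  have n1 := PrP_nonneg hq.pb E1 (Arm (2 * a))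
  have n2 := PrP_nonneg hq.pb E2 (Arm2 A n)
  have m1 : c1 * c1 * c2 ≤ PrP q E (Ring 0 a) * PrP q E (Ring 0 A) *
      PrP q E (HC 0 (2 * A) (-(a - 1)) (a - 1)) :=
    mul_le_mul (mul_le_mul r1 r2 hc1.le (hc1.le.trans r1)) r3 hc2.le
      (mul_nonneg (hc1.le.trans r1) (hc1.le.trans r2))
  have m2 := m1.trans f1
  have m3 := (mul_le_mul a1 a2 n2 (n1.trans a1)).trans f2
  exact (mul_le_mul m2 m3 (mul_nonneg n1 n2) (le_trans (by positivity) m2)).trans (f3.trans f4)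

/-- Probabilistic extension of an arm. -/
theorem glue_prob1 (k : ℕ) : ∃ c : ℝ, 0 < c ∧ ∀ q : ℤ × ℤ → ℝ, Qh q →
    ∀ (E E1 : Finset (ℤ × ℤ)) (a n : ℤ), 1 ≤ a → 2 * a ≤ n →
    n ≤ k * (2 * a - 1) → BR 0 n ⊆ E → E1 ⊆ E →
    c * PrP q E1 (Arm (2 * a)) ≤ PrP q E (Arm n) := by
  obtain ⟨c1, hc1, hR⟩ := ring_q
  obtain ⟨c2, hc2, hH⟩ := rsw_q k
  refine ⟨c1 * c2, by positivity, fun q hq E E1 a n ha han hk hE h1 => ?_⟩
  have r1 := hR q hq E 0 a ha (by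
    refine subset_trans ?_ hE
    unfold BR
    exact Bx_sub (by omega) (by omega) (by omega) (by omega))
  have r3 := (hH q hq E 0 n (-(a - 1)) (a - 1) (by omega) (by omega) (by
    refine subset_trans ?_ hE
    unfold BR
    simp only [Prod.fst_zero, Prod.snd_zero]
    exact Bx_sub (by omega) (by omega) (by omega) (by omega))).1 (by
      have e1 : (a - 1 - -(a - 1) + 1) = 2 * a - 1 := by ring
      rw [e1, sub_zero]
      exact hk)
  have a1 := PrP_inc hq.pb h1 (Arm_inc (2 * a))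
  have f1 := harris3P hq.pb E (Ring_inc 0 a) (HC_inc 0 n (-(a - 1)) (a - 1)) (Arm_inc (2 * a))
  have f4 : PrP q E (fun ω => Ring 0 a ω ∧ HC 0 n (-(a - 1)) (a - 1) ω ∧ Arm (2 * a) ω) ≤
      PrP q E (Arm n) := PrP_mono hq.pb fun ω _ h => glue_arm1 ha han h.2.2 h.1 h.2.1
  have n1 := PrP_nonneg hq.pb E1 (Arm (2 * a))
  have m1 : c1 * c2 ≤ PrP q E (Ring 0 a) * PrP q E (HC 0 n (-(a - 1)) (a - 1)) :=
    mul_le_mul r1 r3 hc2.le (hc1.le.trans r1)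
  exact (mul_le_mul m1 a1 n1 (le_trans (by positivity) m1)).trans (f1.trans f4)

end Pool.Agent.H99.NC
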