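import Mathlib
import Pool.Agent.H69.NC.Defs
import Pool.Agent.H99.NC.RswP
import Pool.Agent.H99.NC.Russo
import Pool.Agent.H75.TwoArm.Rsw

set_option autoImplicit false
open Finset

/-! Calculus of the inhomogeneous product measure `PQ` (spec NC-A); `PQ = PrP`. -/

namespace Pool.Agent.H69.NC

open Pool.Agent.H75.Perc Pool.Agent.H75.TwoArm
open Pool.Agent.H99.NC (PrP Ex ind Pb wt)

section general
variable {α : Type*} [DecidableEq α]

/-- The bridge. -/
theorem PQ_eq (q : α → ℝ) (E : Finset α) (A : Finset α → Prop) : PQ q E A = PrP q E A := by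
  classical
  unfold PQ PrP Ex ind wt
  rw [sum_filter]
  refine sum_congr rfl fun ω _ => ?_
  by_cases h : A ω
  · simp [h]
  · simp [h]

theorem Wt.pb {q : α → ℝ} (hq : Wt q) : Pb q := hq

lemma PQ_half {q : α → ℝ} {E : Finset α} (h : ∀ e ∈ E, q e = 1 / 2) (A : Finset α → Prop) :
    PQ q E A = Pr E A := by
  rw [PQ_eq, ← H99.NC.PrP_half]
  exact H99.NC.Ex_congr_q h _

lemma PQ_nonneg {q : α → ℝ} (hq : Wt q) (E : Finset α) (A : Finset α → Prop) : 0 ≤ PQ q E A := by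
  rw [PQ_eq]; exact H99.NC.PrP_nonneg hq E A

lemma PQ_true (q : α → ℝ) (E : Finset α) : PQ q E (fun _ => True) = 1 := by
  rw [PQ_eq]; exact H99.NC.PrP_true q E

lemma PQ_mono {q : α → ℝ} (hq : Wt q) {E : Finset α} {A B : Finset α → Prop}
    (h : ∀ ω, ω ⊆ E → A ω → B ω) : PQ q E A ≤ PQ q E B := by
  rw [PQ_eq, PQ_eq]; exact H99.NC.PrP_mono hq h

lemma PQ_congr {q : α → ℝ} {E : Finset α} {A B : Finset α → Prop}
    (h : ∀ ω, ω ⊆ E → (A ω ↔ B ω)) : PQ q E A = PQ q E B := by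
  rw [PQ_eq, PQ_eq]; exact H99.NC.PrP_congr h

lemma PQ_congr_q {q q' : α → ℝ} {E : Finset α} (h : ∀ e ∈ E, q e = q' e) (A : Finset α → Prop) :
    PQ q E A = PQ q' E A := by
  rw [PQ_eq, PQ_eq]; exact H99.NC.Ex_congr_q h _

lemma PQ_le_one {q : α → ℝ} (hq : Wt q) (E : Finset α) (A : Finset α → Prop) : PQ q E A ≤ 1 := by
  rw [PQ_eq]; exact H99.NC.PrP_le_one hq E A

lemma PQ_not (q : α → ℝ) (E : Finset α) (A : Finset α → Prop) :
    PQ q E (fun ω => ¬ A ω) = 1 - PQ q E A := by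
  rw [PQ_eq, PQ_eq]; exact H99.NC.PrP_not q E A

lemma PQ_or_le {q : α → ℝ} (hq : Wt q) (E : Finset α) (A B : Finset α → Prop) :
    PQ q E (fun ω => A ω ∨ B ω) ≤ PQ q E A + PQ q E B := by
  rw [PQ_eq, PQ_eq, PQ_eq]; exact H99.NC.PrP_or_le hq E A B

/-- union bound over a finite index set -/
lemma PQ_exists_le {q : α → ℝ} (hq : Wt q) (E : Finset α) {ι : Type*} (I : Finset ι)
    (A : ι → Finset α → Prop) :
    PQ q E (fun ω => ∃ i ∈ I, A i ω) ≤ ∑ i ∈ I, PQ q E (A i) := by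
  simp only [PQ_eq]; exact H99.NC.PrP_exists_le hq E I A

lemma PQ_split {q : α → ℝ} {E E1 : Finset α} (h : E1 ⊆ E) (A B : Finset α → Prop) :
    PQ q E (fun ω => A (ω ∩ E1) ∧ B (ω \ E1)) = PQ q E1 A * PQ q (E \ E1) B := by
  rw [PQ_eq, PQ_eq, PQ_eq]; exact H99.NC.PrP_split q h A B

lemma PQ_restrict {q : α → ℝ} {E E1 : Finset α} (h : E1 ⊆ E) (A : Finset α → Prop) :
    PQ q E (fun ω => A (ω ∩ E1)) = PQ q E1 A := by
  rw [PQ_eq, PQ_eq]; exact H99.NC.PrP_restrict q h A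

lemma PQ_indep {q : α → ℝ} {E E1 E2 : Finset α} (h1 : E1 ⊆ E) (h2 : E2 ⊆ E) (hd : Disjoint E1 E2)
    (A B : Finset α → Prop) :
    PQ q E (fun ω => A (ω ∩ E1) ∧ B (ω ∩ E2)) = PQ q E1 A * PQ q E2 B := by
  rw [PQ_eq, PQ_eq, PQ_eq]; exact H99.NC.PrP_indep q h1 h2 hd A B

/-- three independent events -/
lemma PQ_indep3 {q : α → ℝ} {E E1 E2 E3 : Finset α} (h1 : E1 ⊆ E) (h2 : E2 ⊆ E) (h3 : E3 ⊆ E)
    (h12 : Disjoint E1 E2) (h13 : Disjoint E1 E3) (h23 : Disjoint E2 E3)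
    (A B C : Finset α → Prop) :
    PQ q E (fun ω => A (ω ∩ E1) ∧ B (ω ∩ E2) ∧ C (ω ∩ E3)) =
      PQ q E1 A * PQ q E2 B * PQ q E3 C := by
  have e1 : PQ q E (fun ω => A (ω ∩ E1) ∧ B (ω ∩ E2) ∧ C (ω ∩ E3)) =
      PQ q E (fun ω => A (ω ∩ E1) ∧
        (fun η => B (η ∩ E2) ∧ C (η ∩ E3)) (ω ∩ (E2 ∪ E3))) := by
    refine PQ_congr fun ω _ => ?_
    have a1 : ω ∩ (E2 ∪ E3) ∩ E2 = ω ∩ E2 := by
      rw [inter_assoc, inter_eq_right.2 subset_union_left]
    have a2 : ω ∩ (E2 ∪ E3) ∩ E3 = ω ∩ E3 := by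
      rw [inter_assoc, inter_eq_right.2 subset_union_right]
    simp only [a1, a2]
  have e2 := PQ_indep (q := q) h1 (union_subset h2 h3) (disjoint_union_right.2 ⟨h12, h13⟩) A
    (fun η => B (η ∩ E2) ∧ C (η ∩ E3))
  have e3 := PQ_indep (q := q) (E := E2 ∪ E3) subset_union_left subset_union_right h23 B C
  rw [e1, e2, e3, mul_assoc]

lemma PQ_inc {q : α → ℝ} (hq : Wt q) {E E1 : Finset α} (h : E1 ⊆ E) {A : Finset α → Prop}
    (hA : Inc A) : PQ q E1 A ≤ PQ q E A := by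
  rw [PQ_eq, PQ_eq]; exact H99.NC.PrP_inc hq h hA

lemma PQ_harris {q : α → ℝ} (hq : Wt q) (E : Finset α) {A B : Finset α → Prop} (hA : Inc A)
    (hB : Inc B) : PQ q E A * PQ q E B ≤ PQ q E (fun ω => A ω ∧ B ω) := by
  rw [PQ_eq, PQ_eq, PQ_eq]; exact H99.NC.PrP_harris hq E hA hB

lemma PQ_harris_prod {q : α → ℝ} (hq : Wt q) (E : Finset α) {ι : Type*} (I : Finset ι)
    (A : ι → Finset α → Prop) (hA : ∀ i ∈ I, Inc (A i)) :
    ∏ i ∈ I, PQ q E (A i) ≤ PQ q E (fun ω => ∀ i ∈ I, A i ω) := by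
  simp only [PQ_eq]; exact H99.NC.harris_listP hq E I hA

/-- square root trick -/
lemma PQ_sqrt {q : α → ℝ} (hq : Wt q) (E : Finset α) {A B : Finset α → Prop} (hA : Inc A)
    (hB : Inc B) (h : PQ q E A = PQ q E B) :
    1 - Real.sqrt (1 - PQ q E (fun ω => A ω ∨ B ω)) ≤ PQ q E A := by
  simp only [PQ_eq] at h ⊢; exact H99.NC.sqrt_trick hq E hA hB h

lemma PQ_map {β : Type*} [DecidableEq β] (q : β → ℝ) (f : α ↪ β) (E : Finset α)
    (A : Finset β → Prop) : PQ q (E.map f) A = PQ (fun e => q (f e)) E (fun ω => A (ω.map f)) := by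
  simp only [PQ_eq]; exact H99.NC.PrP_map f q E A

/-- monotonicity in the weights -/
lemma PQ_mono_q {q q' : α → ℝ} (hq : Wt q) (hq' : Wt q') {E : Finset α} (h : ∀ e ∈ E, q e ≤ q' e)
    {A : Finset α → Prop} (hA : Inc A) : PQ q E A ≤ PQ q' E A := by
  simp only [PQ_eq]; exact H99.NC.PrP_mono_q hq hq' h hA

/-- Monotone coupling for expectations: if `f ω ≤ g ω'` whenever `ω ⊆ ω'` then the expectation of
`f` for the smaller weights is at most the expectation of `g` for the larger ones. -/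
lemma Ex_couple {q q' : α → ℝ} (hq : Wt q) (hq' : Wt q') {E : Finset α}
    (h : ∀ e ∈ E, q e ≤ q' e) {f g : Finset α → ℝ}
    (hfg : ∀ ω ω', ω ⊆ E → ω' ⊆ E → ω ⊆ ω' → f ω ≤ g ω') : Ex q E f ≤ Ex q' E g := by
  induction E using Finset.induction_on generalizing f g with
  | empty =>
    simp only [H99.NC.Ex_empty]
    exact hfg ∅ ∅ (subset_refl _) (subset_refl _) (subset_refl _)
  | insert e E he ih =>
    rw [H99.NC.Ex_insert q he, H99.NC.Ex_insert q' he]
    have hE : ∀ e ∈ E, q e ≤ q' e := fun x hx => h x (mem_insert_of_mem hx)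
    have h0 := ih hE (f := f) (g := g) (fun ω ω' h1 h2 h3 =>
      hfg ω ω' (h1.trans (subset_insert _ _)) (h2.trans (subset_insert _ _)) h3)
    have h1 := ih hE (f := f) (g := fun ω => g (insert e ω)) (fun ω ω' h1 h2 h3 =>
      hfg ω _ (h1.trans (subset_insert _ _)) (insert_subset_insert _ h2)
        (h3.trans (subset_insert _ _)))
    have h2 := ih hE (f := fun ω => f (insert e ω)) (g := fun ω => g (insert e ω))
      (fun ω ω' h1 h2 h3 => hfg _ _ (insert_subset_insert _ h1) (insert_subset_insert _ h2)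
        (insert_subset_insert _ h3))
    have h4 := h e (mem_insert_self e E)
    have hq0 := (hq e).1
    have hq1 := (hq' e).2
    have a1 := mul_le_mul_of_nonneg_left h0 (sub_nonneg.2 hq1)
    have a2 := mul_le_mul_of_nonneg_left h1 (sub_nonneg.2 h4)
    have a3 := mul_le_mul_of_nonneg_left h2 hq0
    nlinarith

/-- monotone coupling: an event increasing in the second and decreasing in the first configuration;
`A` holds for the smaller configuration, `B` for the larger one -/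
lemma PQ_couple {q q' : α → ℝ} (hq : Wt q) (hq' : Wt q') {E : Finset α} (h : ∀ e ∈ E, q e ≤ q' e)
    {A B C : Finset α → Prop} (hB : Inc B)
    (hABC : ∀ ω ω', ω ⊆ E → ω' ⊆ E → ω ⊆ ω' → A ω → B ω' → C ω' ∧ ¬ C ω) (hC : Inc C) :
    PQ q E A - (1 - PQ q' E B) ≤ PQ q' E C - PQ q E C := by
  have key := Ex_couple hq hq' h (f := fun ω => ind (A ω) + ind (C ω))
    (g := fun ω => ind (¬ B ω) + ind (C ω)) (by
      intro ω ω' h1 h2 h3
      by_cases hA : A ω <;> by_cases hBω : B ω'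
      · have := hABC ω ω' h1 h2 h3 hA hBω
        simp [ind, hA, hBω, this.1, this.2]
      · by_cases hCω : C ω
        · simp [ind, hA, hBω, hCω, hC _ _ h3 hCω]
        · by_cases hCω' : C ω' <;> simp [ind, hA, hBω, hCω, hCω']
      · by_cases hCω : C ω
        · simp [ind, hA, hBω, hCω, hC _ _ h3 hCω]
        · by_cases hCω' : C ω' <;> simp [ind, hA, hBω, hCω, hCω']
      · by_cases hCω : C ω
        · simp [ind, hA, hBω, hCω, hC _ _ h3 hCω]
        · by_cases hCω' : C ω' <;> simp [ind, hA, hBω, hCω, hCω'])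
  rw [H99.NC.Ex_add, H99.NC.Ex_add] at key
  have h2 := PQ_not q' E B
  simp only [PQ_eq] at h2 ⊢
  unfold PrP at h2 ⊢
  linarith

lemma PQ_resample {q : α → ℝ} (hq : Wt q) (E : Finset α) (U : Finset α → Finset α)
    (hU : ∀ ω ω', ω ⊆ E → ω' ⊆ E → U (mix (U ω) ω ω') = U ω)
    (A B : Finset α → Prop) (Y : Finset α → Finset α → Prop) (r : ℝ)
    (hr : ∀ ω, ω ⊆ E → B ω → r ≤ PQ q E (Y ω))
    (hY : ∀ ω ω', ω ⊆ E → ω' ⊆ E → B ω → Y ω ω' → A (mix (U ω) ω ω')) :
    PQ q E B * r ≤ PQ q E A := by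
  simp only [PQ_eq] at hr ⊢; exact H99.NC.resampleP hq E U hU A B Y r hr hY

lemma PQ_resample_le {q : α → ℝ} (hq : Wt q) (E : Finset α) (U : Finset α → Finset α)
    (hU : ∀ ω ω', ω ⊆ E → ω' ⊆ E → U (mix (U ω) ω ω') = U ω)
    (A B : Finset α → Prop) (Y : Finset α → Finset α → Prop) (r : ℝ)
    (hB : ∀ ω ω', ω ⊆ E → ω' ⊆ E → B (mix (U ω) ω ω') → B ω)
    (hr : ∀ ω, ω ⊆ E → B ω → PQ q E (Y ω) ≤ r)
    (hY : ∀ ω ω', ω ⊆ E → ω' ⊆ E → B ω → A (mix (U ω) ω ω') → Y ω ω') :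
    PQ q E (fun ω => A ω ∧ B ω) ≤ PQ q E B * r := by
  simp only [PQ_eq] at hr ⊢; exact H99.NC.resampleP_le hq E U hU A B Y r hB hr hY

/-- Changing one coordinate. -/
lemma Ex_at {q : α → ℝ} {E : Finset α} {e : α} (he : e ∈ E) (f : Finset α → ℝ) :
    Ex q E f = (1 - q e) * Ex q E (fun ω => f (ω.erase e)) +
      q e * Ex q E (fun ω => f (insert e ω)) := by
  have h1 : insert e (E.erase e) = E := insert_erase he
  have key : ∀ g : Finset α → ℝ, Ex q E g = (1 - q e) * Ex q (E.erase e) g +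
      q e * Ex q (E.erase e) (fun ω => g (insert e ω)) := by
    intro g
    conv_lhs => rw [← h1]
    rw [H99.NC.Ex_insert q (notMem_erase e E)]
  rw [key f, key (fun ω => f (ω.erase e)), key (fun ω => f (insert e ω))]
  have e1 : Ex q (E.erase e) (fun ω => f (ω.erase e)) = Ex q (E.erase e) f :=
    H99.NC.Ex_congr fun ω hω => by rw [erase_eq_of_notMem fun h => notMem_erase e E (hω h)]
  have e2 : Ex q (E.erase e) (fun ω => f ((insert e ω).erase e)) = Ex q (E.erase e) f :=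
    H99.NC.Ex_congr fun ω hω => by rw [erase_insert fun h => notMem_erase e E (hω h)]
  have e3 : Ex q (E.erase e) (fun ω => f (insert e (insert e ω))) =
      Ex q (E.erase e) (fun ω => f (insert e ω)) :=
    H99.NC.Ex_congr fun ω _ => by rw [insert_eq_of_mem (mem_insert_self e ω)]
  rw [e1, e2, e3]
  ring

/-- derivative along an affine path of weights -/
lemma PQ_hasDerivAt (q0 q1 : α → ℝ) (E : Finset α) (A : Finset α → Prop) (t : ℝ) :
    HasDerivAt (fun t : ℝ => PQ (fun e => (1 - t) * q0 e + t * q1 e) E A)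
      (∑ e ∈ E, (q1 e - q0 e) * (PQ (fun e => (1 - t) * q0 e + t * q1 e) E (fun ω => A (insert e ω)) -
        PQ (fun e => (1 - t) * q0 e + t * q1 e) E (fun ω => A (ω.erase e)))) t := by
  simp only [PQ_eq]
  have h := H99.NC.hasDerivAt_Ex (q := fun s e => (1 - s) * q0 e + s * q1 e)
    (q' := fun e => q1 e - q0 e) (t := t) E (fun e _ => by
      have := ((hasDerivAt_id t).const_sub 1).mul_const (q0 e) |>.add
        ((hasDerivAt_id t).mul_const (q1 e))
      refine this.congr_deriv ?_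
      ring) (fun ω => ind (A ω))
  refine h.congr_deriv ?_
  refine sum_congr rfl fun e he => ?_
  congr 1
  have h1 : insert e (E.erase e) = E := insert_erase he
  have key : ∀ g : Finset α → ℝ, (∀ ω, g (insert e ω) = g (ω.erase e)) →
      Ex (fun e => (1 - t) * q0 e + t * q1 e) E g =
      Ex (fun e => (1 - t) * q0 e + t * q1 e) (E.erase e) g := by
    intro g hg
    conv_lhs => rw [← h1]
    rw [H99.NC.Ex_insert _ (notMem_erase e E)]
    have : Ex (fun e => (1 - t) * q0 e + t * q1 e) (E.erase e) (fun ω => g (insert e ω)) =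
        Ex (fun e => (1 - t) * q0 e + t * q1 e) (E.erase e) g :=
      H99.NC.Ex_congr fun ω hω => by
        rw [hg, erase_eq_of_notMem fun h => notMem_erase e E (hω h)]
    rw [this]; ring
  unfold PrP
  have k1 := key (fun ω => ind (A (insert e ω))) (fun ω => by
    have a1 : insert e (insert e ω) = insert e ω := insert_eq_of_mem (mem_insert_self e ω)
    have a2 : insert e (ω.erase e) = insert e ω := by
      ext x
      simp only [mem_insert, mem_erase]
      tauto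
    simp only [a1, a2])
  have k2 := key (fun ω => ind (A (ω.erase e))) (fun ω => by
    simp only [erase_insert_eq_erase, erase_idem])
  rw [k1, k2, ← H99.NC.Ex_sub]
  exact H99.NC.Ex_congr fun ω hω => by
    rw [erase_eq_of_notMem fun h => notMem_erase e E (hω h)]

lemma PQ_piv_abs {q : α → ℝ} (hq : Wt q) (E : Finset α) (A : Finset α → Prop) (e : α) :
    |PQ q E (fun ω => A (insert e ω)) - PQ q E (fun ω => A (ω.erase e))| ≤ PQ q E (Piv A e) := by
  simp only [PQ_eq]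
  unfold PrP
  rw [← H99.NC.Ex_sub, abs_le]
  constructor
  · have : -Ex q E (fun ω => ind (Piv A e ω)) = Ex q E (fun ω => (-1) * ind (Piv A e ω)) := by
      rw [H99.NC.Ex_smul]; ring
    rw [this]
    refine H99.NC.Ex_mono hq fun ω _ => ?_
    unfold Piv
    by_cases h1 : A (insert e ω) <;> by_cases h2 : A (ω.erase e) <;> simp [ind, h1, h2]
  · refine H99.NC.Ex_mono hq fun ω _ => ?_
    unfold Piv
    by_cases h1 : A (insert e ω) <;> by_cases h2 : A (ω.erase e) <;> simp [ind, h1, h2]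

lemma PQ_piv_inc {q : α → ℝ} (E : Finset α) {A : Finset α → Prop} (hA : Inc A) (e : α) :
    PQ q E (fun ω => A (insert e ω)) - PQ q E (fun ω => A (ω.erase e)) = PQ q E (Piv A e) := by
  simp only [PQ_eq]
  unfold PrP
  rw [← H99.NC.Ex_sub]
  refine H99.NC.Ex_congr fun ω _ => ?_
  unfold Piv
  by_cases h2 : A (ω.erase e)
  · have h1 : A (insert e ω) := hA _ _ ((erase_subset _ _).trans (subset_insert _ _)) h2
    simp [ind, h1, h2]
  · by_cases h1 : A (insert e ω) <;> simp [ind, h1, h2]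

/-- finite energy: changing one edge -/
lemma PQ_insert_ge {q : α → ℝ} (hq : Wt q) {E : Finset α} {e : α} (he : e ∈ E)
    (A : Finset α → Prop) : q e * PQ q E (fun ω => A (insert e ω)) ≤ PQ q E A := by
  simp only [PQ_eq]
  unfold PrP
  rw [Ex_at he (fun ω => ind (A ω))]
  have := mul_nonneg (sub_nonneg.2 (hq e).2)
    (H99.NC.Ex_nonneg hq (E := E) (f := fun ω => ind (A (ω.erase e)))
      fun _ _ => H99.NC.ind_nonneg _)
  linarith

lemma PQ_erase_ge {q : α → ℝ} (hq : Wt q) {E : Finset α} {e : α} (he : e ∈ E)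
    (A : Finset α → Prop) : (1 - q e) * PQ q E (fun ω => A (ω.erase e)) ≤ PQ q E A := by
  simp only [PQ_eq]
  unfold PrP
  rw [Ex_at he (fun ω => ind (A ω))]
  have := mul_nonneg (hq e).1
    (H99.NC.Ex_nonneg hq (E := E) (f := fun ω => ind (A (insert e ω)))
      fun _ _ => H99.NC.ind_nonneg _)
  linarith

end general

/-- transport to the dual configuration -/
lemma PQ_du (q : ℤ × ℤ → ℝ) (E : Finset (ℤ × ℤ)) (A : Finset (ℤ × ℤ) → Prop) :
    PQ q E (fun ω => A (du E ω)) = PQ (dq q) (E.map sh1) A := by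
  simp only [PQ_eq]
  have h1 : PrP q E (fun ω => A (du E ω)) = PrP (fun e => 1 - q e) E (fun ω => A (ω.map sh1)) := by
    rw [H99.NC.PrP_compl]
    rfl
  rw [h1, H99.NC.PrP_map sh1 (dq q) E A]
  have h2 : (fun e => dq q (sh1 e)) = fun e => 1 - q e := by
    funext e
    unfold dq
    have : sh1 e = (e.1 + 1, e.2 + 1) := rfl
    rw [this]
    simp
  rw [h2]

/-- Increasing events of the primal configuration on `E1` and increasing events of the dual
configuration on the disjoint set `E2` are simultaneously realised. -/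
theorem PQ_two_colours {q : ℤ × ℤ → ℝ} (hq : Wt q) {E E1 E2 : Finset (ℤ × ℤ)} (h1 : E1 ⊆ E)
    (h2 : E2 ⊆ E) (hd : Disjoint E1 E2)
    {ι κ : Type*} (I : Finset ι) (J : Finset κ) (A : ι → Finset (ℤ × ℤ) → Prop)
    (B : κ → Finset (ℤ × ℤ) → Prop) (hA : ∀ i ∈ I, Inc (A i)) (hB : ∀ j ∈ J, Inc (B j))
    (hA' : ∀ i ∈ I, ∀ ω, A i ω → A i (ω ∩ E1))
    (hB' : ∀ j ∈ J, ∀ ω, B j ω → B j (ω ∩ E2.map sh1)) :
    (∏ i ∈ I, PQ q E (A i)) * (∏ j ∈ J, PQ q E (fun ω => B j (du E ω))) ≤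
      PQ q E (fun ω => (∀ i ∈ I, A i ω) ∧ (∀ j ∈ J, B j (du E ω))) := by
  have hdq : Wt (dq q) := fun e => by
    unfold dq
    have := hq (e.1 - 1, e.2 - 1)
    constructor <;> linarith [this.1, this.2]
  have key : PQ q E (fun ω => (∀ i ∈ I, A i ω) ∧ (∀ j ∈ J, B j (du E ω))) =
      PQ q E1 (fun ω => ∀ i ∈ I, A i ω) * PQ q E2 (fun η => ∀ j ∈ J, B j (du E2 η)) := by
    rw [← PQ_indep h1 h2 hd (fun ω => ∀ i ∈ I, A i ω) (fun η => ∀ j ∈ J, B j (du E2 η))]
    apply PQ_congr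
    intro ω _
    constructor
    · rintro ⟨h3, h4⟩
      refine ⟨fun i hi => hA' i hi _ (h3 i hi), fun j hj => ?_⟩
      have := hB' j hj _ (h4 j hj)
      rwa [RswAux.du_inter h2] at this
    · rintro ⟨h3, h4⟩
      refine ⟨fun i hi => hA i hi _ _ inter_subset_left (h3 i hi), fun j hj => ?_⟩
      have := h4 j hj
      rw [← RswAux.du_inter h2] at this
      exact hB j hj _ _ inter_subset_left this
  rw [key]
  have e1 : ∏ i ∈ I, PQ q E (A i) = ∏ i ∈ I, PQ q E1 (A i) := by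
    apply prod_congr rfl
    intro i hi
    rw [← PQ_restrict h1 (A i)]
    exact PQ_congr fun ω _ => ⟨hA' i hi ω, hA i hi _ _ inter_subset_left⟩
  have e2 : ∏ j ∈ J, PQ q E (fun ω => B j (du E ω)) = ∏ j ∈ J, PQ (dq q) (E2.map sh1) (B j) := by
    apply prod_congr rfl
    intro j hj
    rw [← PQ_du q E2 (B j), ← PQ_restrict h2 (fun η => B j (du E2 η))]
    apply PQ_congr
    intro ω _
    rw [← RswAux.du_inter h2]
    exact ⟨hB' j hj _, hB j hj _ _ inter_subset_left⟩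
  have e3 : PQ q E2 (fun η => ∀ j ∈ J, B j (du E2 η)) =
      PQ (dq q) (E2.map sh1) (fun ω => ∀ j ∈ J, B j ω) :=
    PQ_du q E2 (fun ω => ∀ j ∈ J, B j ω)
  rw [e1, e2, e3]
  apply mul_le_mul (PQ_harris_prod hq E1 I A hA) (PQ_harris_prod hdq (E2.map sh1) J B hB)
  · exact prod_nonneg fun j _ => PQ_nonneg hdq _ _
  · exact PQ_nonneg hq _ _

end Pool.Agent.H69.NC
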