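import Mathlib
import Pool.Agent.H99.NC.PrP
import Pool.Agent.H75.Perc.ArmD
import Pool.Agent.H63.Bulk.Upper

set_option autoImplicit false
open Finset MeasureTheory

/-! Bond percolation on `ℤ²` with density `p`: the product measure, finite volume probabilities and the
percolation probability. -/

namespace Pool.Agent.H99.NC

open Pool.Agent.H75.Perc
open Pool.Agent.H63.Perc (tr mem_tr tr_sub tr_eq_iff exists_bits measurable_tr measurable_tr_eq)
open Pool.Agent.H65.Perc (PConf planeMeasure)
open Pool.Agent.H63.Bulk (planeGraph OneArm)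

section bridge

variable {α ι : Type*} [DecidableEq α] [DecidableEq ι]

lemma bool_false_eq (ν : Measure Bool) [IsProbabilityMeasure ν] :
    (ν {false}).toReal = 1 - (ν {true}).toReal := by
  have h : (ν {true}ᶜ).toReal = 1 - (ν {true}).toReal := by
    rw [prob_compl_eq_one_sub (measurableSet_singleton true),
      ENNReal.toReal_sub_of_le prob_le_one (by simp)]
    simp
  have h2 : ({true}ᶜ : Set Bool) = {false} := by
    ext b
    cases b <;> simp
  rwa [h2] at h

/-- Bridge between infinitely many independent coins and random subsets of a finite set. -/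
theorem infinitePi_tr {ν : ι → Measure Bool} [∀ i, IsProbabilityMeasure (ν i)] {E : Finset α}
    {φ : α → ι} (hφ : Set.InjOn φ E) (A : Finset α → Prop) :
    (Measure.infinitePi ν {ω | A (tr E φ ω)}).toReal =
      PrP (fun e => (ν (φ e) {true}).toReal) E A := by
  classical
  have h1 : {ω | A (tr E φ ω)} = ⋃ s ∈ E.powerset.filter A, {ω | tr E φ ω = s} := by
    ext ω
    simp only [Set.mem_ofPred_eq, Set.mem_iUnion, mem_filter, mem_powerset, exists_prop,
      exists_eq_right']
    exact ⟨fun h => ⟨tr_sub _ _ _, h⟩, fun h => h.2⟩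
  have h2 : ∀ s ∈ E.powerset, (Measure.infinitePi ν {ω | tr E φ ω = s}).toReal =
      wt (fun e => (ν (φ e) {true}).toReal) E s := by
    intro s hs
    rw [mem_powerset] at hs
    obtain ⟨b, hb⟩ := exists_bits hφ s
    rw [tr_eq_iff hφ hs b hb, Measure.infinitePi_pi _ (fun i _ => measurableSet_singleton _),
      prod_image hφ, ENNReal.toReal_prod, wt_eq hs]
    refine prod_congr rfl fun e he => ?_
    rw [hb e he]
    by_cases h : e ∈ s
    · rw [if_pos h, decide_eq_true h]
    · rw [if_neg h, decide_eq_false h, bool_false_eq]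
  rw [h1, measure_biUnion_finset, ENNReal.toReal_sum (fun s _ => measure_ne_top _ _),
    sum_congr rfl (fun s hs => h2 s (mem_filter.1 hs).1)]
  · unfold PrP Ex
    rw [sum_filter]
    refine sum_congr rfl fun s _ => ?_
    by_cases h : A s
    · rw [if_pos h]
      simp only [ind_true h, mul_one]
    · rw [if_neg h]
      simp only [ind_false h, mul_zero]
  · intro s _ t _ hst
    rw [Function.onFun, Set.disjoint_left]
    intro ω h2 h3
    exact hst (h2.symm.trans h3)
  · intro s hs
    exact measurable_tr_eq hφ (mem_powerset.1 (mem_filter.1 hs).1)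

end bridge

/-- the law of a coin which shows `true` with probability `p` -/
noncomputable def bernM (p : ℝ) : Measure Bool :=
  ENNReal.ofReal p • Measure.dirac true + ENNReal.ofReal (1 - p) • Measure.dirac false

lemma bernM_true (p : ℝ) : bernM p {true} = ENNReal.ofReal p := by
  simp [bernM]

lemma bernM_prob {p : ℝ} (h0 : 0 ≤ p) (h1 : p ≤ 1) : IsProbabilityMeasure (bernM p) := by
  constructor
  simp only [bernM, Measure.coe_add, Measure.coe_smul, Pi.add_apply, Pi.smul_apply,
    measure_univ, smul_eq_mul, mul_one]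
  rw [← ENNReal.ofReal_add h0 (by linarith)]
  simp

/-- bond percolation on `ℤ²` with density `p` -/
noncomputable def planeP (p : ℝ) : Measure PConf := Measure.infinitePi (fun _ => bernM p)

lemma planeP_prob {p : ℝ} (h0 : 0 ≤ p) (h1 : p ≤ 1) : IsProbabilityMeasure (planeP p) := by
  have := bernM_prob h0 h1
  unfold planeP
  infer_instance

lemma planeP_tr {p : ℝ} (h0 : 0 ≤ p) (h1 : p ≤ 1) {E : Finset (ℤ × ℤ)}
    (hE : ∀ e ∈ E, (e.1 + e.2) % 2 = 1) (A : Finset (ℤ × ℤ) → Prop) :
    (planeP p {ω | A (tr E phi ω)}).toReal = PrP (fun _ => p) E A := by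
  have := bernM_prob h0 h1
  have h := infinitePi_tr (ν := fun _ : (ℤ × ℤ) × Bool => bernM p) (phi_inj hE) A
  unfold planeP
  rw [h]
  congr 1
  funext e
  rw [bernM_true, ENNReal.toReal_ofReal h0]

lemma planeP_half : planeP (1 / 2) = planeMeasure := by
  unfold planeP planeMeasure
  congr 1
  funext i
  apply Measure.ext_of_singleton
  intro b
  rw [PMF.toMeasure_apply_singleton _ _ (measurableSet_singleton b)]
  have h : ENNReal.ofReal (1 / 2) = 2⁻¹ := by
    rw [one_div, ENNReal.ofReal_inv_of_pos (by norm_num)]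
    norm_num
  have h2 : (1 : ℝ) - 1 / 2 = 1 / 2 := by norm_num
  cases b
  · simp only [bernM, h2, h]
    simp
  · simp only [bernM, h2, h]
    simp

lemma planeGraph_eq (ω : PConf) : planeGraph ω = GD (fun _ => True) ω := by
  unfold planeGraph GD
  simp

lemma oneArm_iff (n : ℕ) (ω : PConf) :
    OneArm n ω ↔ armF n (tr (Bx (-n) n (-n) n) phi ω) := by
  have h := armD_iff (D := fun _ => True) (E := Bx (-n) n (-n) n) (n := n) (fun u v h => by
    rw [add_mem_Bx_iff h]; tauto) ω
  rw [← h]
  unfold OneArm armD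
  rw [planeGraph_eq]

/-- the one-arm probability in terms of the finite box -/
theorem oneArm_PrP {p : ℝ} (h0 : 0 ≤ p) (h1 : p ≤ 1) (n : ℕ) :
    (planeP p {ω | OneArm n ω}).toReal = PrP (fun _ => p) (Bx (-n) n (-n) n) (armF n) := by
  have h : {ω | OneArm n ω} = {ω | armF n (tr (Bx (-n) n (-n) n) phi ω)} := by
    ext ω
    exact oneArm_iff n ω
  rw [h, planeP_tr h0 h1 (fun e he => (mem_Bx.1 he).2.2)]

/-- the origin belongs to an infinite open cluster -/
def InfCl (ω : PConf) : Prop := {v : ℤ × ℤ | (planeGraph ω).Reachable (0, 0) v}.Infinite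

/-- the percolation probability -/
noncomputable def theta (p : ℝ) : ℝ := (planeP p {ω | InfCl ω}).toReal

lemma infCl_iff (ω : PConf) : InfCl ω ↔ ∀ n : ℕ, OneArm n ω := by
  constructor
  · intro h n
    by_contra hn
    apply h
    refine Set.Finite.subset (Set.finite_Icc ((-(n : ℤ), -(n : ℤ)) : ℤ × ℤ) ((n : ℤ), (n : ℤ))) ?_
    intro v hv
    have h2 : ¬ ((n : ℤ) ≤ |v.1| ∨ (n : ℤ) ≤ |v.2|) := fun h3 => hn ⟨v, h3, hv⟩
    rw [not_or, not_le, not_le, abs_lt, abs_lt] at h2
    rw [Set.mem_Icc, Prod.le_def, Prod.le_def]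
    simp only
    omega
  · intro h hfin
    obtain ⟨B, hB⟩ := (hfin.image (fun v : ℤ × ℤ => |v.1| + |v.2|)).bddAbove
    obtain ⟨v, hv, hr⟩ := h (B.toNat + 1)
    have h2 := hB ⟨v, hr, rfl⟩
    simp only at h2
    have h3 := abs_nonneg v.1
    have h4 := abs_nonneg v.2
    push_cast at hv
    omega

lemma theta_le {p : ℝ} (h0 : 0 ≤ p) (h1 : p ≤ 1) (n : ℕ) :
    theta p ≤ (planeP p {ω | OneArm n ω}).toReal := by
  have := planeP_prob h0 h1
  unfold theta
  refine ENNReal.toReal_mono (measure_ne_top _ _) (measure_mono ?_)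
  intro ω hω
  exact (infCl_iff ω).1 hω n

lemma oneArm_anti {m n : ℕ} (h : m ≤ n) {ω : PConf} (hω : OneArm n ω) : OneArm m ω := by
  obtain ⟨v, hv, hr⟩ := hω
  exact ⟨v, by omega, hr⟩

/-- continuity from above -/
theorem tendsto_theta {p : ℝ} (h0 : 0 ≤ p) (h1 : p ≤ 1) :
    Filter.Tendsto (fun n : ℕ => (planeP p {ω | OneArm n ω}).toReal) Filter.atTop
      (nhds (theta p)) := by
  have := planeP_prob h0 h1
  have h2 : {ω | InfCl ω} = ⋂ n : ℕ, {ω | OneArm n ω} := by
    ext ω
    rw [Set.mem_iInter]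
    exact infCl_iff ω
  unfold theta
  rw [h2]
  refine (ENNReal.continuousAt_toReal (measure_ne_top _ _)).tendsto.comp ?_
  refine tendsto_measure_iInter_atTop (fun n => ?_) (fun m n h ω hω => oneArm_anti h hω)
    ⟨0, measure_ne_top _ _⟩
  exact (Pool.Agent.H63.Bulk.measurableSet_oneArm n).nullMeasurableSet

lemma le_theta {p c : ℝ} (h0 : 0 ≤ p) (h1 : p ≤ 1)
    (h : ∀ n : ℕ, c ≤ (planeP p {ω | OneArm n ω}).toReal) : c ≤ theta p :=
  ge_of_tendsto' (tendsto_theta h0 h1) h

end Pool.Agent.H99.NC
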