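import Mathlib
import Pool.Agent.H99.NC.RingP
import Pool.Agent.H99.NC.Plane
import Pool.Agent.H99.NC.Prob
import Pool.Agent.H47.NC.Basic

set_option autoImplicit false
open Finset

/-! Stability of the one-arm probability in the near-critical window. -/

namespace Pool.Agent.H99.NC

open Pool.Agent.H75.Perc
open Pool.Agent.H47.NC (F4 Bq bq iq bdB RC piv_ends piv_F4 F4_local exit_bd)

lemma Arm_RC (m : ℤ) (ω : Finset (ℤ × ℤ)) :
    Arm m ω ↔ RC (fun v => v = 0) (fun v => ¬ inR 0 (m - 1) v) ω := by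
  constructor
  · rintro ⟨z, h1, h2⟩; exact ⟨0, z, rfl, h1, h2⟩
  · rintro ⟨p, z, rfl, h1, h2⟩; exact ⟨z, h1, h2⟩

lemma arm_local {m : ℤ} (hm : 0 ≤ m) {ω : Finset (ℤ × ℤ)} {w : ℤ × ℤ}
    (hw : ¬ inR 0 (m - 1) w) (h : Co ω 0 w) : Arm m (ω ∩ BR 0 m) := by
  rw [inR_iff] at hw
  simp only [Prod.fst_zero, Prod.snd_zero] at hw
  obtain ⟨z, ⟨h1, h2⟩, h3⟩ := exit_bd (a := (0 : ℤ × ℤ).1 - m) (b := (0 : ℤ × ℤ).1 + m)
    (c := (0 : ℤ × ℤ).2 - m) (d := (0 : ℤ × ℤ).2 + m) (u := 0) (v := w)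
    (by unfold inB; simp only [Prod.fst_zero, Prod.snd_zero]; omega)
    (by simp only [Prod.fst_zero, Prod.snd_zero]; omega) h
  refine ⟨z, fun h4 => ?_, h3⟩
  rw [inR_iff] at h4
  simp only [Prod.fst_zero, Prod.snd_zero] at h4 h2
  omega

lemma out_local {A n : ℤ} (hAn : A ≤ n) {ω : Finset (ℤ × ℤ)} {u v : ℤ × ℤ}
    (hu : inR 0 (A - 1) u) (hv : ¬ inR 0 (n - 1) v) (h : Co ω u v) :
    Arm2 A n (ω \ BR 0 (A - 1)) := by
  obtain ⟨z, z', h1, h2, h3, h4, -⟩ := exit_co (X := fun w => ¬ inR 0 (A - 1) w) h.symm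
    (fun h5 => hv (by rw [inR_iff] at h5 ⊢; omega)) (not_not.2 hu)
  have key : ∀ a b : ℤ × ℤ, ¬ inR 0 (A - 1) a → Ad ω a b → Ad (ω \ BR 0 (A - 1)) a b := by
    intro a b ha hab
    refine ⟨hab.1, mem_sdiff.2 ⟨hab.2, fun h5 => ha ?_⟩⟩
    exact (Ad.inB (Finset.Subset.refl _) ⟨hab.1, h5⟩).1
  have h5 : ∀ w, CoX ω (fun w => ¬ inR 0 (A - 1) w) v w → Co (ω \ BR 0 (A - 1)) v w := by
    intro w hw
    induction hw with
    | refl => exact Co.refl _ _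
    | @tail b c hab hbc ih =>
      refine Relation.ReflTransGen.tail ih (key b c ?_ hbc.1)
      exact CoX.mem (X := fun w => ¬ inR 0 (A - 1) w) hab
        (fun h5 => hv (by rw [inR_iff] at h5 ⊢; omega))
  have h6 : Co (ω \ BR 0 (A - 1)) v z' := Relation.ReflTransGen.tail (h5 z h4) (key z z' h1 h3)
  exact ⟨z', v, not_not.1 h2, hv, h6.symm⟩

/-- A pivotal edge for the arm event: inner arm, four strands, outer arm. -/
lemma piv_split {x y : ℤ × ℤ} {r N : ℤ} (hxy : IsUnit4 (y - x)) (hr : 16 ≤ r) (hN : 4 * r ≤ N)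
    (hx : inR 0 r x) (hx' : ¬ inR 0 (r - 1) x) {ω : Finset (ℤ × ℤ)}
    (h : Piv (Arm N) (x + y) ω) :
    Arm (2 * (r / 8)) (ω ∩ BR 0 (2 * (r / 8))) ∧ F4 x y (r / 2) (ω ∩ Bq x (r / 2)) ∧
      Arm2 (2 * r) N (ω \ BR 0 (2 * r - 1)) := by
  have h' : Piv (RC (fun v => v = 0) (fun v => ¬ inR 0 (N - 1) v)) (x + y) ω := by
    unfold Piv at h ⊢
    rw [Arm_RC, Arm_RC] at h
    exact h
  have hu := unit_cases hxy
  rw [inR_iff] at hx hx'
  simp only [Prod.fst_zero, Prod.snd_zero] at hx hx'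
  have hxi : ¬ inR 0 (2 * (r / 8) - 1) x := by
    rw [inR_iff]; simp only [Prod.fst_zero, Prod.snd_zero]; omega
  have hyi : ¬ inR 0 (2 * (r / 8) - 1) y := by
    rw [inR_iff]; simp only [Prod.fst_zero, Prod.snd_zero]; omega
  have hxo : inR 0 (2 * r - 1) x := by
    rw [inR_iff]; simp only [Prod.fst_zero, Prod.snd_zero]; omega
  have hyo : inR 0 (2 * r - 1) y := by
    rw [inR_iff]; simp only [Prod.fst_zero, Prod.snd_zero]; omega
  have hF := piv_F4 (m := r / 2) (by omega) hxy (fun v hv => by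
    subst hv; unfold iq; simp only [Prod.fst_zero, Prod.snd_zero]; omega) (fun v hv => by
    rw [inR_iff] at hv; simp only [Prod.fst_zero, Prod.snd_zero] at hv; unfold iq; omega) h'
  obtain ⟨-, p, z, hp, hz, h1⟩ := piv_ends hxy h'
  subst hp
  have e1 : ∀ {u v : ℤ × ℤ}, Co (ω.erase (x + y)) u v → Co ω u v :=
    fun h => h.mono (erase_subset _ _)
  refine ⟨?_, (F4_local ω).1 hF, ?_⟩
  · rcases h1 with ⟨h2, -⟩ | ⟨h2, -⟩
    · exact arm_local (by omega) hxi (e1 h2)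
    · exact arm_local (by omega) hyi (e1 h2)
  · rcases h1 with ⟨-, h2⟩ | ⟨-, h2⟩
    · exact out_local (by omega) hyo hz (e1 h2)
    · exact out_local (by omega) hxo hz (e1 h2)

theorem piv_large : ∃ C : ℝ, 0 < C ∧ ∀ q : ℤ × ℤ → ℝ, Qh q → ∀ (x y : ℤ × ℤ) (r N : ℤ),
    IsUnit4 (y - x) → 16 ≤ r → 4 * r ≤ N → inR 0 r x → ¬ inR 0 (r - 1) x →
    PrP q (BR 0 N) (Piv (Arm N) (x + y)) ≤
      C * (PrP q (Bq x (r / 2)) (F4 x y (r / 2)) * PrP q (BR 0 N) (Arm N)) := by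
  obtain ⟨c, hc, hg⟩ := glue_prob 64
  refine ⟨1 / c, by positivity, fun q hq x y r N hxy hr hN hx hx' => ?_⟩
  have g := hg q hq (BR 0 N) (BR 0 (2 * (r / 8))) (BR 0 N \ BR 0 (2 * r - 1)) (r / 8) (2 * r) N
    (by omega) (by omega) (by omega) (by push_cast; omega)
    (by unfold BR; exact Bx_sub (by omega) (by omega) (by omega) (by omega))
    (by unfold BR; exact Bx_sub (by omega) (by omega) (by omega) (by omega)) sdiff_subset
  have s1 : BR 0 (2 * (r / 8)) ⊆ BR 0 N := by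
    unfold BR; exact Bx_sub (by omega) (by omega) (by omega) (by omega)
  have hx2 := hx
  have hx2' := hx'
  rw [inR_iff] at hx2 hx2'
  simp only [Prod.fst_zero, Prod.snd_zero] at hx2 hx2'
  have s2 : Bq x (r / 2) ⊆ BR 0 N := by
    unfold BR Bq; simp only [Prod.fst_zero, Prod.snd_zero]
    exact Bx_sub (by omega) (by omega) (by omega) (by omega)
  have d12 : Disjoint (BR 0 (2 * (r / 8))) (Bq x (r / 2)) := by
    rw [disjoint_left]
    intro l h1 h2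
    unfold BR at h1
    unfold Bq at h2
    rw [mem_Bx] at h1 h2
    simp only [Prod.fst_zero, Prod.snd_zero] at h1
    omega
  have t1 : BR 0 (2 * (r / 8)) ⊆ BR 0 (2 * r - 1) := by
    unfold BR; exact Bx_sub (by omega) (by omega) (by omega) (by omega)
  have t2 : Bq x (r / 2) ⊆ BR 0 (2 * r - 1) := by
    unfold BR Bq; simp only [Prod.fst_zero, Prod.snd_zero]
    exact Bx_sub (by omega) (by omega) (by omega) (by omega)
  have d13 : Disjoint (BR 0 (2 * (r / 8))) (BR 0 N \ BR 0 (2 * r - 1)) :=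
    disjoint_of_subset_left t1 disjoint_sdiff
  have d23 : Disjoint (Bq x (r / 2)) (BR 0 N \ BR 0 (2 * r - 1)) :=
    disjoint_of_subset_left t2 disjoint_sdiff
  have i3 := Pool.Agent.H69.NC.PQ_indep3 (q := q) s1 s2 sdiff_subset d12 d13 d23
    (Arm (2 * (r / 8))) (F4 x y (r / 2)) (Arm2 (2 * r) N)
  simp only [Pool.Agent.H69.NC.PQ_eq] at i3
  have le1 : PrP q (BR 0 N) (Piv (Arm N) (x + y)) ≤ PrP q (BR 0 N) (fun ω =>
      Arm (2 * (r / 8)) (ω ∩ BR 0 (2 * (r / 8))) ∧ F4 x y (r / 2) (ω ∩ Bq x (r / 2)) ∧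
      Arm2 (2 * r) N (ω ∩ (BR 0 N \ BR 0 (2 * r - 1)))) := by
    refine PrP_mono hq.pb fun ω hω h => ?_
    have := piv_split hxy hr hN hx hx' h
    have e1 : ω ∩ (BR 0 N \ BR 0 (2 * r - 1)) = ω \ BR 0 (2 * r - 1) := by
      ext l
      simp only [mem_inter, mem_sdiff]
      constructor
      · rintro ⟨a, -, b⟩; exact ⟨a, b⟩
      · rintro ⟨a, b⟩; exact ⟨a, hω a, b⟩
    rw [e1]
    exact this
  rw [i3] at le1
  refine le1.trans ?_
  have nF := PrP_nonneg hq.pb (Bq x (r / 2)) (F4 x y (r / 2))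
  have g' : PrP q (BR 0 (2 * (r / 8))) (Arm (2 * (r / 8))) *
      PrP q (BR 0 N \ BR 0 (2 * r - 1)) (Arm2 (2 * r) N) ≤ 1 / c * PrP q (BR 0 N) (Arm N) := by
    rw [one_div, inv_mul_eq_div, le_div_iff₀ hc, mul_comm]
    exact g
  have := mul_le_mul_of_nonneg_left g' nF
  nlinarith [this]


/-! ### The sum over the edges -/

/-- weight of a coordinate -/
noncomputable def gw (j : ℤ) : ℝ := ((|j| : ℤ) + 1 : ℝ) ^ (-(5 / 8) : ℝ)

lemma gw_nonneg (j : ℤ) : 0 ≤ gw j := by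
  unfold gw
  exact Real.rpow_nonneg (by positivity) _

lemma gw_mul {i j r : ℤ} (hi : |i| ≤ r) (hj : |j| ≤ r) (hr : 0 ≤ r) :
    ((r : ℝ) + 1) ^ (-(5 / 4) : ℝ) ≤ gw i * gw j := by
  have hr' : (0 : ℝ) < (r : ℝ) + 1 := by
    have : (0 : ℝ) ≤ (r : ℝ) := by exact_mod_cast hr
    linarith
  have key : ∀ i : ℤ, |i| ≤ r → ((r : ℝ) + 1) ^ (-(5 / 8) : ℝ) ≤ gw i := by
    intro i hi
    unfold gw
    refine Real.rpow_le_rpow_of_nonpos (by positivity) ?_ (by norm_num)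
    have : ((|i| : ℤ) : ℝ) ≤ (r : ℝ) := by exact_mod_cast hi
    linarith
  have e1 : ((r : ℝ) + 1) ^ (-(5 / 4) : ℝ) =
      ((r : ℝ) + 1) ^ (-(5 / 8) : ℝ) * ((r : ℝ) + 1) ^ (-(5 / 8) : ℝ) := by
    rw [← Real.rpow_add hr']; norm_num
  rw [e1]
  exact mul_le_mul (key i hi) (key j hj) (Real.rpow_nonneg hr'.le _) (gw_nonneg i)

lemma sum_pow (n : ℕ) : ∑ j ∈ range n, ((j : ℝ) + 1) ^ (-(5 / 8) : ℝ) ≤
    3 * (n : ℝ) ^ (3 / 8 : ℝ) := by
  induction n with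
  | zero => simp
  | succ n ih =>
    rw [sum_range_succ]
    have hn : (0 : ℝ) < (n : ℝ) + 1 := by positivity
    have h1 : (n : ℝ) ^ (3 / 8 : ℝ) ≤
        ((n : ℝ) + 1) ^ (3 / 8 : ℝ) * (1 - 3 / 8 * (1 / ((n : ℝ) + 1))) := by
      have h2 : (n : ℝ) = ((n : ℝ) + 1) * (1 + (-(1 / ((n : ℝ) + 1)))) := by
        field_simp; ring
      have h3 : 0 ≤ 1 + (-(1 / ((n : ℝ) + 1))) := by
        have : 1 / ((n : ℝ) + 1) ≤ 1 := by
          rw [div_le_one hn]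
          have := Nat.cast_nonneg (α := ℝ) n
          linarith
        linarith
      conv_lhs => rw [h2]
      rw [Real.mul_rpow hn.le h3]
      refine mul_le_mul_of_nonneg_left ?_ (Real.rpow_nonneg hn.le _)
      have := rpow_one_add_le_one_add_mul_self (s := -(1 / ((n : ℝ) + 1))) (p := 3 / 8)
        (by linarith) (by norm_num) (by norm_num)
      linarith
    have h4 : ((n : ℝ) + 1) ^ (-(5 / 8) : ℝ) =
        ((n : ℝ) + 1) ^ (3 / 8 : ℝ) * (1 / ((n : ℝ) + 1)) := by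
      rw [one_div, ← Real.rpow_neg_one ((n : ℝ) + 1), ← Real.rpow_add hn]; norm_num
    have h5 : 0 ≤ ((n : ℝ) + 1) ^ (3 / 8 : ℝ) * (1 / ((n : ℝ) + 1)) := by positivity
    push_cast
    rw [h4]
    nlinarith [h1, ih, h5]

lemma sum_gw (k : ℤ) (hk : 1 ≤ k) :
    ∑ l ∈ Icc (2 * -k) (2 * k), gw (l / 2) ≤ 24 * (k : ℝ) ^ (3 / 8 : ℝ) := by
  obtain ⟨n, rfl⟩ := Int.eq_ofNat_of_zero_le (show 0 ≤ k by omega)
  -- each j is hit at most twice
  have h1 : ∑ l ∈ Icc (2 * -(n : ℤ)) (2 * (n : ℤ)), gw (l / 2) ≤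
      ∑ l ∈ Icc (2 * -(n : ℤ)) (2 * (n : ℤ)), 2 * ((|l| : ℤ) + 1 : ℝ) ^ (-(5 / 8) : ℝ) := by
    refine sum_le_sum fun l _ => ?_
    have h2 : ((|l| : ℤ) + 1 : ℝ) / 2 ≤ ((|l / 2| : ℤ) + 1 : ℝ) := by
      have : |l| + 1 ≤ 2 * (|l / 2| + 1) := by
        rcases abs_cases l with ⟨h, _⟩ | ⟨h, _⟩ <;> rcases abs_cases (l / 2) with ⟨h', _⟩ | ⟨h', _⟩ <;>
          rw [h, h'] <;> omega
      have : ((|l| + 1 : ℤ) : ℝ) ≤ ((2 * (|l / 2| + 1) : ℤ) : ℝ) := by exact_mod_cast this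
      push_cast at this ⊢
      linarith
    have h3 : (0 : ℝ) < ((|l| : ℤ) + 1 : ℝ) / 2 := by positivity
    have h4 : gw (l / 2) ≤ (((|l| : ℤ) + 1 : ℝ) / 2) ^ (-(5 / 8) : ℝ) := by
      unfold gw
      exact Real.rpow_le_rpow_of_nonpos h3 h2 (by norm_num)
    refine h4.trans ?_
    rw [div_eq_mul_inv, mul_comm, Real.mul_rpow (by norm_num) (by positivity)]
    refine mul_le_mul_of_nonneg_right ?_ (Real.rpow_nonneg (by positivity) _)
    rw [Real.inv_rpow (by norm_num), ← Real.rpow_neg (by norm_num), neg_neg]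
    calc (2 : ℝ) ^ (5 / 8 : ℝ) ≤ (2 : ℝ) ^ (1 : ℝ) :=
          Real.rpow_le_rpow_of_exponent_le (by norm_num) (by norm_num)
      _ = 2 := Real.rpow_one 2
  -- two halves
  have h5 : ∑ l ∈ Icc (2 * -(n : ℤ)) (2 * (n : ℤ)), 2 * ((|l| : ℤ) + 1 : ℝ) ^ (-(5 / 8) : ℝ) ≤
      2 * (2 * ∑ j ∈ range (2 * n + 1), ((j : ℝ) + 1) ^ (-(5 / 8) : ℝ)) := by
    rw [← mul_sum]
    refine mul_le_mul_of_nonneg_left ?_ (by norm_num)
    have h6 : Icc (2 * -(n : ℤ)) (2 * (n : ℤ)) ⊆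
        (range (2 * n + 1)).image (fun j : ℕ => (j : ℤ)) ∪
          (range (2 * n + 1)).image (fun j : ℕ => -(j : ℤ)) := by
      intro l hl
      rw [mem_Icc] at hl
      rw [mem_union, mem_image, mem_image]
      rcases le_total 0 l with h | h
      · exact Or.inl ⟨l.toNat, by rw [mem_range]; omega, by omega⟩
      · exact Or.inr ⟨(-l).toNat, by rw [mem_range]; omega, by omega⟩
    have hpos : ∀ l : ℤ, 0 ≤ ((|l| : ℤ) + 1 : ℝ) ^ (-(5 / 8) : ℝ) := fun l =>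
      Real.rpow_nonneg (by positivity) _
    refine (sum_le_sum_of_subset_of_nonneg h6 fun l _ _ => hpos l).trans ?_
    have h7 : ∀ s t : Finset ℤ, ∑ l ∈ s ∪ t, ((|l| : ℤ) + 1 : ℝ) ^ (-(5 / 8) : ℝ) ≤
        ∑ l ∈ s, ((|l| : ℤ) + 1 : ℝ) ^ (-(5 / 8) : ℝ) +
          ∑ l ∈ t, ((|l| : ℤ) + 1 : ℝ) ^ (-(5 / 8) : ℝ) := by
      intro s t
      rw [← sum_union_inter]
      have := sum_nonneg (s := s ∩ t) (f := fun l : ℤ => ((|l| : ℤ) + 1 : ℝ) ^ (-(5 / 8) : ℝ))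
        fun l _ => hpos l
      linarith
    refine (h7 _ _).trans ?_
    have h8 : ∑ l ∈ (range (2 * n + 1)).image (fun j : ℕ => (j : ℤ)),
        ((|l| : ℤ) + 1 : ℝ) ^ (-(5 / 8) : ℝ) =
        ∑ j ∈ range (2 * n + 1), ((j : ℝ) + 1) ^ (-(5 / 8) : ℝ) := by
      rw [sum_image (fun a _ b _ h => by simpa using h)]
      refine sum_congr rfl fun j _ => ?_
      have : |(j : ℤ)| = j := abs_of_nonneg (by positivity)
      rw [this]; norm_cast
    have h9 : ∑ l ∈ (range (2 * n + 1)).image (fun j : ℕ => -(j : ℤ)),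
        ((|l| : ℤ) + 1 : ℝ) ^ (-(5 / 8) : ℝ) =
        ∑ j ∈ range (2 * n + 1), ((j : ℝ) + 1) ^ (-(5 / 8) : ℝ) := by
      rw [sum_image (fun a _ b _ h => by simpa using h)]
      refine sum_congr rfl fun j _ => ?_
      have : |-(j : ℤ)| = j := by rw [abs_neg]; exact abs_of_nonneg (by positivity)
      rw [this]; norm_cast
    rw [h8, h9]
    linarith
  have h10 := sum_pow (2 * n + 1)
  have h11 : ((2 * n + 1 : ℕ) : ℝ) ^ (3 / 8 : ℝ) ≤ 2 * (n : ℝ) ^ (3 / 8 : ℝ) := by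
    have hn : (1 : ℝ) ≤ (n : ℝ) := by exact_mod_cast hk
    have h12 : ((2 * n + 1 : ℕ) : ℝ) ≤ 4 * (n : ℝ) := by push_cast; linarith
    calc ((2 * n + 1 : ℕ) : ℝ) ^ (3 / 8 : ℝ) ≤ (4 * (n : ℝ)) ^ (3 / 8 : ℝ) :=
          Real.rpow_le_rpow (by positivity) h12 (by norm_num)
      _ = (4 : ℝ) ^ (3 / 8 : ℝ) * (n : ℝ) ^ (3 / 8 : ℝ) := Real.mul_rpow (by norm_num) (by positivity)
      _ ≤ 2 * (n : ℝ) ^ (3 / 8 : ℝ) := by
          refine mul_le_mul_of_nonneg_right ?_ (by positivity)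
          calc (4 : ℝ) ^ (3 / 8 : ℝ) ≤ (4 : ℝ) ^ (1 / 2 : ℝ) :=
                Real.rpow_le_rpow_of_exponent_le (by norm_num) (by norm_num)
            _ = 2 := by
                rw [show (4 : ℝ) = 2 ^ (2 : ℝ) by norm_num, ← Real.rpow_mul (by norm_num)]
                norm_num
  have e : (((n : ℤ)) : ℝ) = (n : ℝ) := by simp
  rw [e]
  linarith

/-- lower left end of an edge label -/
def lo (l : ℤ × ℤ) : ℤ × ℤ := (l.1 / 2, l.2 / 2)

/-- upper right end of an edge label -/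
def hi (l : ℤ × ℤ) : ℤ × ℤ := ((l.1 + 1) / 2, (l.2 + 1) / 2)

lemma lo_add_hi {l : ℤ × ℤ} : lo l + hi l = l := by
  unfold lo hi
  refine Prod.ext ?_ ?_
  · simp only [Prod.fst_add]; omega
  · simp only [Prod.snd_add]; omega

lemma unit_lo_hi {l : ℤ × ℤ} (h : (l.1 + l.2) % 2 = 1) : IsUnit4 (hi l - lo l) := by
  have : hi l - lo l = (1, 0) ∨ hi l - lo l = (0, 1) := by
    unfold lo hi
    rcases Int.emod_two_eq_zero_or_one l.1 with h1 | h1
    · right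
      refine Prod.ext ?_ ?_
      · simp only [Prod.fst_sub]; omega
      · simp only [Prod.snd_sub]; omega
    · left
      refine Prod.ext ?_ ?_
      · simp only [Prod.fst_sub]; omega
      · simp only [Prod.snd_sub]; omega
  rcases this with h | h <;> rw [h] <;> unfold IsUnit4 <;> decide


/-! ### The main estimate for a single pivotal edge -/

/-- four-strand bound for all densities in `[1/2, p]` -/
def F4B (p K : ℝ) (k : ℤ) : Prop :=
  ∀ q : ℤ × ℤ → ℝ, (∀ e, 1 / 2 ≤ q e ∧ q e ≤ p) → ∀ (x y : ℤ × ℤ) (m : ℤ), IsUnit4 (y - x) →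
    1 ≤ m → m ≤ k → PrP q (Bq x m) (F4 x y m) ≤ K * (m : ℝ) ^ (-(5 / 4) : ℝ)

theorem piv_all : ∃ C : ℝ, 0 < C ∧ ∀ (p K : ℝ) (k : ℤ), p ≤ 1 → 0 ≤ K → 1 ≤ k → F4B p K k →
    ∀ q : ℤ × ℤ → ℝ, (∀ e, 1 / 2 ≤ q e ∧ q e ≤ p) → ∀ l ∈ BR 0 k,
    PrP q (BR 0 (4 * k)) (Piv (Arm (4 * k)) l) ≤
      C * (1 + K) * (gw (l.1 / 2) * gw (l.2 / 2)) * PrP q (BR 0 (4 * k)) (Arm (4 * k)) := by
  obtain ⟨C1, hC1, h1⟩ := piv_large
  refine ⟨C1 * 8 + 1000, by positivity, fun p K k hp hK hk hF q hq l hl => ?_⟩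
  have hQ : Qh q := fun e => ⟨(hq e).1, (hq e).2.trans hp⟩
  have hA := PrP_nonneg hQ.pb (BR 0 (4 * k)) (Arm (4 * k))
  have hl' := hl
  unfold BR at hl'
  rw [mem_Bx] at hl'
  simp only [Prod.fst_zero, Prod.snd_zero] at hl'
  have hun := unit_lo_hi hl'.2.2
  have hle : lo l + hi l = l := lo_add_hi
  obtain ⟨r, hr1, hr2, hr3⟩ : ∃ r : ℤ, |l.1 / 2| ≤ r ∧ |l.2 / 2| ≤ r ∧
      (r = |l.1 / 2| ∨ r = |l.2 / 2|) := by
    rcases le_total |l.1 / 2| |l.2 / 2| with h | h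
    · exact ⟨_, h, le_rfl, Or.inr rfl⟩
    · exact ⟨_, le_rfl, h, Or.inl rfl⟩
  have hr0 : 0 ≤ r := (abs_nonneg _).trans hr1
  have hrk : r ≤ k := by
    rcases hr3 with h | h
    · rw [h, abs_le]; omega
    · rw [h, abs_le]; omega
  have hg := gw_mul hr1 hr2 hr0
  have hrR : (0 : ℝ) ≤ (r : ℝ) := by exact_mod_cast hr0
  have hkR : (1 : ℝ) ≤ (k : ℝ) := by exact_mod_cast hk
  have hpw : 0 < ((r : ℝ) + 1) ^ (-(5 / 4) : ℝ) := Real.rpow_pos_of_pos (by linarith) _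
  have hgg : 0 ≤ gw (l.1 / 2) * gw (l.2 / 2) := mul_nonneg (gw_nonneg _) (gw_nonneg _)
  by_cases h16 : 16 ≤ r
  · have hx : inR 0 r (lo l) := by
      rw [inR_iff]; unfold lo; simp only [Prod.fst_zero, Prod.snd_zero]
      rw [abs_le] at hr1 hr2; omega
    have hx' : ¬ inR 0 (r - 1) (lo l) := by
      rw [inR_iff]; unfold lo; simp only [Prod.fst_zero, Prod.snd_zero]
      rintro ⟨h2, h3⟩
      rcases hr3 with h | h
      · have : |l.1 / 2| ≤ r - 1 := abs_le.2 (by omega)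
        omega
      · have : |l.2 / 2| ≤ r - 1 := abs_le.2 (by omega)
        omega
    have h2 := h1 q hQ (lo l) (hi l) r (4 * k) hun h16 (by omega) hx hx'
    rw [hle] at h2
    have h3 := hF q hq (lo l) (hi l) (r / 2) hun (by omega) (by omega)
    have h4 : (((r / 2 : ℤ)) : ℝ) ^ (-(5 / 4) : ℝ) ≤ 8 * ((r : ℝ) + 1) ^ (-(5 / 4) : ℝ) := by
      have h5 : ((r : ℝ) + 1) / 4 ≤ ((r / 2 : ℤ) : ℝ) := by
        have : r + 1 ≤ 4 * (r / 2) := by omega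
        have : ((r + 1 : ℤ) : ℝ) ≤ ((4 * (r / 2) : ℤ) : ℝ) := by exact_mod_cast this
        push_cast at this
        linarith
      have h6 : ((r / 2 : ℤ) : ℝ) ^ (-(5 / 4) : ℝ) ≤ (((r : ℝ) + 1) / 4) ^ (-(5 / 4) : ℝ) :=
        Real.rpow_le_rpow_of_nonpos (by linarith) h5 (by norm_num)
      refine h6.trans ?_
      rw [div_eq_mul_inv, mul_comm, Real.mul_rpow (by norm_num) (by linarith)]
      refine mul_le_mul_of_nonneg_right ?_ hpw.le
      rw [Real.inv_rpow (by norm_num), ← Real.rpow_neg (by norm_num), neg_neg]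
      calc (4 : ℝ) ^ (5 / 4 : ℝ) ≤ (4 : ℝ) ^ (3 / 2 : ℝ) :=
            Real.rpow_le_rpow_of_exponent_le (by norm_num) (by norm_num)
        _ = 8 := by
            rw [show (4 : ℝ) = 2 ^ (2 : ℝ) by norm_num, ← Real.rpow_mul (by norm_num)]
            norm_num
    have h7 : PrP q (Bq (lo l) (r / 2)) (F4 (lo l) (hi l) (r / 2)) ≤
        K * (8 * (gw (l.1 / 2) * gw (l.2 / 2))) :=
      h3.trans (mul_le_mul_of_nonneg_left (h4.trans (by linarith)) hK)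
    refine h2.trans ?_
    have h8 := mul_le_mul_of_nonneg_left (mul_le_mul_of_nonneg_right h7 hA) hC1.le
    refine h8.trans ?_
    have h9 : 0 ≤ (gw (l.1 / 2) * gw (l.2 / 2)) * PrP q (BR 0 (4 * k)) (Arm (4 * k)) :=
      mul_nonneg hgg hA
    have h10 : 0 ≤ C1 * 8 + 1000 * (1 + K) := by positivity
    nlinarith [mul_nonneg h10 h9]
  · have hlE : l ∈ BR 0 (4 * k) := by
      refine (show BR 0 k ⊆ BR 0 (4 * k) from ?_) hl
      unfold BR; exact Bx_sub (by omega) (by omega) (by omega) (by omega)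
    have h2 := Pool.Agent.H69.NC.PQ_insert_ge (q := q) hQ.pb hlE (Arm (4 * k))
    simp only [Pool.Agent.H69.NC.PQ_eq] at h2
    have h3 : PrP q (BR 0 (4 * k)) (Piv (Arm (4 * k)) l) ≤
        PrP q (BR 0 (4 * k)) (fun ω => Arm (4 * k) (insert l ω)) :=
      PrP_mono hQ.pb fun ω _ h => h.1
    have h4 := (hq l).1
    have h5 : 0 ≤ PrP q (BR 0 (4 * k)) (fun ω => Arm (4 * k) (insert l ω)) :=
      PrP_nonneg hQ.pb _ _
    have h6 : PrP q (BR 0 (4 * k)) (Piv (Arm (4 * k)) l) ≤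
        2 * PrP q (BR 0 (4 * k)) (Arm (4 * k)) := by nlinarith
    have h7 : (1 : ℝ) ≤ 64 * ((r : ℝ) + 1) ^ (-(5 / 4) : ℝ) := by
      have h8 : (r : ℝ) + 1 ≤ 16 := by
        have : r + 1 ≤ 16 := by omega
        have : ((r + 1 : ℤ) : ℝ) ≤ ((16 : ℤ) : ℝ) := by exact_mod_cast this
        push_cast at this
        linarith
      have h9 : (16 : ℝ) ^ (-(5 / 4) : ℝ) ≤ ((r : ℝ) + 1) ^ (-(5 / 4) : ℝ) :=
        Real.rpow_le_rpow_of_nonpos (by linarith) h8 (by norm_num)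
      have h10 : (16 : ℝ) ^ (-(5 / 4) : ℝ) = 1 / 32 := by
        rw [show (16 : ℝ) = 2 ^ (4 : ℝ) by norm_num, ← Real.rpow_mul (by norm_num)]
        norm_num
      rw [h10] at h9
      linarith
    have h8 : (1 : ℝ) ≤ 64 * (gw (l.1 / 2) * gw (l.2 / 2)) := by linarith
    refine h6.trans ?_
    have h9 := mul_le_mul_of_nonneg_right h8 hA
    have h10 : 0 ≤ (gw (l.1 / 2) * gw (l.2 / 2)) * PrP q (BR 0 (4 * k)) (Arm (4 * k)) :=
      mul_nonneg hgg hA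
    have h11 : 0 ≤ C1 * 8 * (1 + K) + 1000 * K := by positivity
    nlinarith [mul_nonneg h11 h10]

lemma sum_BR {k : ℤ} (hk : 1 ≤ k) :
    ∑ l ∈ BR 0 k, gw (l.1 / 2) * gw (l.2 / 2) ≤ 576 * (k : ℝ) ^ (3 / 4 : ℝ) := by
  have hkR : (1 : ℝ) ≤ (k : ℝ) := by exact_mod_cast hk
  have h1 : BR 0 k ⊆ (Icc (2 * -k) (2 * k)) ×ˢ (Icc (2 * -k) (2 * k)) := by
    intro l hl
    unfold BR at hl
    rw [mem_Bx] at hl
    simp only [Prod.fst_zero, Prod.snd_zero] at hl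
    rw [mem_product, mem_Icc, mem_Icc]
    omega
  refine (sum_le_sum_of_subset_of_nonneg h1 fun l _ _ =>
    mul_nonneg (gw_nonneg _) (gw_nonneg _)).trans ?_
  rw [sum_product]
  simp only [← mul_sum]
  rw [← sum_mul]
  have h2 := sum_gw k hk
  have h3 : 0 ≤ ∑ l ∈ Icc (2 * -k) (2 * k), gw (l / 2) := sum_nonneg fun l _ => gw_nonneg _
  have h4 : (k : ℝ) ^ (3 / 4 : ℝ) = (k : ℝ) ^ (3 / 8 : ℝ) * (k : ℝ) ^ (3 / 8 : ℝ) := by
    rw [← Real.rpow_add (by linarith)]; norm_num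
  rw [h4]
  have := mul_le_mul h2 h2 h3 (by positivity)
  linarith

/-- Groenwall. -/
lemma gronwall' {f f' : ℝ → ℝ} {a b M : ℝ} (hab : a ≤ b)
    (hf : ∀ s, a ≤ s → s ≤ b → HasDerivAt f (f' s) s)
    (hM : ∀ s, a ≤ s → s ≤ b → f' s ≤ M * f s) : f b ≤ f a * Real.exp (M * (b - a)) := by
  have h1 : AntitoneOn (fun s => f s * Real.exp (-(M * s))) (Set.Icc a b) := by
    have hd : ∀ s, a ≤ s → s ≤ b → HasDerivAt (fun s => f s * Real.exp (-(M * s)))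
        (f' s * Real.exp (-(M * s)) + f s * (Real.exp (-(M * s)) * (-(M * 1)))) s := by
      intro s h1 h2
      exact (hf s h1 h2).mul (((hasDerivAt_id s).const_mul M).neg.exp)
    refine antitoneOn_of_deriv_nonpos (convex_Icc a b) ?_ ?_ ?_
    · intro s hs
      exact (hd s hs.1 hs.2).continuousAt.continuousWithinAt
    · intro s hs
      rw [interior_Icc] at hs
      exact (hd s hs.1.le hs.2.le).differentiableAt.differentiableWithinAt
    · intro s hs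
      rw [interior_Icc] at hs
      rw [(hd s hs.1.le hs.2.le).deriv]
      have := hM s hs.1.le hs.2.le
      have he := Real.exp_pos (-(M * s))
      nlinarith
  have h2 := h1 (Set.left_mem_Icc.2 hab) (Set.right_mem_Icc.2 hab) hab
  simp only at h2
  have h3 : Real.exp (M * (b - a)) = Real.exp (M * b) * Real.exp (-(M * a)) := by
    rw [← Real.exp_add]; congr 1; ring
  have h4 : f b = f b * Real.exp (-(M * b)) * Real.exp (M * b) := by
    rw [mul_assoc, ← Real.exp_add]; simp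
  rw [h4, h3]
  have := mul_le_mul_of_nonneg_right h2 (Real.exp_pos (M * b)).le
  calc f b * Real.exp (-(M * b)) * Real.exp (M * b) ≤ f a * Real.exp (-(M * a)) * Real.exp (M * b) :=
        this
    _ = f a * (Real.exp (M * b) * Real.exp (-(M * a))) := by ring


lemma Arm_anti {m m' : ℤ} (h : m' ≤ m) {ω : Finset (ℤ × ℤ)} (hA : Arm m ω) : Arm m' ω := by
  obtain ⟨z, h1, h2⟩ := hA
  exact ⟨z, fun h3 => h1 (by rw [inR_iff] at h3 ⊢; omega), h2⟩

/-- The one-arm probability at scale one. -/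
lemma arm_one : (1 / 2 : ℝ) ≤ PrP (cp (1 / 2)) (BR 0 1) (Arm 1) := by
  have hq : Pb (cp (1 / 2)) := cp_Pb (by norm_num) (by norm_num)
  have he : ((1, 0) : ℤ × ℤ) ∈ BR 0 1 := by
    unfold BR; rw [mem_Bx]; simp only [Prod.fst_zero, Prod.snd_zero]; omega
  have h := Pool.Agent.H69.NC.PQ_insert_ge (q := cp (1 / 2)) hq he (Arm 1)
  simp only [Pool.Agent.H69.NC.PQ_eq] at h
  have h1 : PrP (cp (1 / 2)) (BR 0 1) (fun ω => Arm 1 (insert (1, 0) ω)) = 1 := by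
    refine (PrP_congr (B := fun _ => True) fun ω _ => iff_true_intro ?_).trans (PrP_true _ _)
    refine ⟨(1, 0), ?_, ?_⟩
    · rw [inR_iff]; simp only [Prod.fst_zero, Prod.snd_zero]; omega
    · refine Relation.ReflTransGen.single ⟨Or.inl (by simp), ?_⟩
      rw [zero_add]; exact mem_insert_self _ _
  rw [h1] at h
  have : cp (1 / 2) (1, 0) = 1 / 2 := rfl
  rw [this] at h
  linarith

open Classical in
/-- Stability of the one-arm probability, with the four-strand bound as a hypothesis. -/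
theorem one_arm_stab : ∃ C : ℝ, 0 < C ∧ ∀ (p K : ℝ) (k : ℤ), 1 / 2 ≤ p → p ≤ 1 → 0 ≤ K → 1 ≤ k →
    F4B p K k → PrP (cp p) (BR 0 k) (Arm k) ≤
      C * Real.exp (C * (1 + K) * ((p - 1 / 2) * (k : ℝ) ^ (3 / 4 : ℝ))) *
        PrP (cp (1 / 2)) (BR 0 k) (Arm k) := by
  obtain ⟨C1, hC1, h1⟩ := piv_all
  obtain ⟨c, hc, h2⟩ := glue_prob1 12
  refine ⟨576 * C1 + 1 / c + 2, by positivity, fun p K k hp hp1 hK hk hF => ?_⟩
  have hkR : (1 : ℝ) ≤ (k : ℝ) := by exact_mod_cast hk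
  have hQh : Pb (cp (1 / 2)) := cp_Pb (by norm_num) (by norm_num)
  have hQp : Pb (cp p) := cp_Pb (by linarith) hp1
  have hkp : 0 ≤ (k : ℝ) ^ (3 / 4 : ℝ) := Real.rpow_nonneg (by linarith) _
  have hexp : 0 ≤ (p - 1 / 2) * (k : ℝ) ^ (3 / 4 : ℝ) := mul_nonneg (by linarith) hkp
  have hE1 : 1 ≤ Real.exp ((576 * C1 + 1 / c + 2) * (1 + K) *
      ((p - 1 / 2) * (k : ℝ) ^ (3 / 4 : ℝ))) := by
    refine Real.one_le_exp ?_
    positivity
  have hH := PrP_nonneg hQh (BR 0 k) (Arm k)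
  rcases eq_or_lt_of_le hk with hk1 | hk2
  · -- k = 1
    subst hk1
    have h3 := arm_one
    have h4 := PrP_le_one hQp (BR 0 1) (Arm 1)
    have h5 : (2 : ℝ) ≤ (576 * C1 + 1 / c + 2) * Real.exp ((576 * C1 + 1 / c + 2) * (1 + K) *
        ((p - 1 / 2) * ((1 : ℤ) : ℝ) ^ (3 / 4 : ℝ))) := by
      have : (0 : ℝ) ≤ 576 * C1 + 1 / c := by positivity
      nlinarith
    nlinarith
  -- the family of densities
  set q : ℝ → ℤ × ℤ → ℝ := fun s e => if e ∈ BR 0 k then s else cp (1 / 2) e with hqdef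
  have hq1 : ∀ s, 1 / 2 ≤ s → s ≤ p → ∀ e, 1 / 2 ≤ q s e ∧ q s e ≤ p := by
    intro s h3 h4 e
    simp only [hqdef]
    split_ifs with h
    · exact ⟨h3, h4⟩
    · exact ⟨le_rfl, hp⟩
  set N : ℤ := 4 * k with hN
  set f : ℝ → ℝ := fun s => PrP (q s) (BR 0 N) (Arm N) with hf
  have hder : ∀ s, HasDerivAt f
      (∑ e ∈ (BR 0 N).filter (· ∈ BR 0 k), PrP (q s) (BR 0 N) (Piv (Arm N) e)) s := by
    intro s
    have h := russo_part (BR 0 N) (BR 0 k) (cp (1 / 2)) (Arm_inc N) s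
    simp only [hf, hqdef]
    convert h using 2
  have hbound : ∀ s, 1 / 2 ≤ s → s ≤ p →
      (∑ e ∈ (BR 0 N).filter (· ∈ BR 0 k), PrP (q s) (BR 0 N) (Piv (Arm N) e)) ≤
        (576 * C1 * (1 + K) * (k : ℝ) ^ (3 / 4 : ℝ)) * f s := by
    intro s h3 h4
    have hs : Pb (q s) := fun e => ⟨by linarith [(hq1 s h3 h4 e).1], (hq1 s h3 h4 e).2.trans hp1⟩
    have hfs : 0 ≤ f s := PrP_nonneg hs _ _
    calc (∑ e ∈ (BR 0 N).filter (· ∈ BR 0 k), PrP (q s) (BR 0 N) (Piv (Arm N) e))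
        ≤ ∑ e ∈ BR 0 k, PrP (q s) (BR 0 N) (Piv (Arm N) e) :=
          sum_le_sum_of_subset_of_nonneg (fun e he => (mem_filter.1 he).2)
            fun e _ _ => PrP_nonneg hs _ _
      _ ≤ ∑ e ∈ BR 0 k, C1 * (1 + K) * (gw (e.1 / 2) * gw (e.2 / 2)) * f s :=
          sum_le_sum fun e he => h1 p K k hp1 hK hk hF (q s) (hq1 s h3 h4) e he
      _ = C1 * (1 + K) * (∑ e ∈ BR 0 k, gw (e.1 / 2) * gw (e.2 / 2)) * f s := by
          rw [← sum_mul, ← mul_sum]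
      _ ≤ C1 * (1 + K) * (576 * (k : ℝ) ^ (3 / 4 : ℝ)) * f s := by
          refine mul_le_mul_of_nonneg_right ?_ hfs
          exact mul_le_mul_of_nonneg_left (sum_BR hk) (by positivity)
      _ = (576 * C1 * (1 + K) * (k : ℝ) ^ (3 / 4 : ℝ)) * f s := by ring
  have hG := gronwall' hp (fun s _ _ => hder s) hbound
  -- left end
  have hleft : f (1 / 2) ≤ PrP (cp (1 / 2)) (BR 0 k) (Arm k) := by
    have e1 : q (1 / 2) = cp (1 / 2) := by
      funext e; simp only [hqdef, cp]; split_ifs <;> rfl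
    simp only [hf]
    rw [e1, ← PrP_restrict (cp (1 / 2)) (E := BR 0 N) (E1 := BR 0 k)
      (by unfold BR; exact Bx_sub (by omega) (by omega) (by omega) (by omega))]
    refine PrP_mono hQh fun ω _ h => ?_
    obtain ⟨z, h3, h4⟩ := h
    exact arm_local (by omega) (fun h5 => h3 (by rw [inR_iff] at h5 ⊢; omega)) h4
  -- right end
  have hQq : Qh (q p) := fun e => ⟨(hq1 p hp le_rfl e).1, (hq1 p hp le_rfl e).2.trans hp1⟩
  have hright : c * PrP (cp p) (BR 0 k) (Arm k) ≤ f p := by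
    have h3 := h2 (q p) hQq (BR 0 N) (BR 0 k) (k / 2) N (by omega) (by omega)
      (by push_cast; omega) le_rfl
      (by unfold BR; exact Bx_sub (by omega) (by omega) (by omega) (by omega))
    refine le_trans (mul_le_mul_of_nonneg_left ?_ hc.le) h3
    have e1 : PrP (cp p) (BR 0 k) (Arm k) = PrP (q p) (BR 0 k) (Arm k) := by
      refine Ex_congr_q (fun e he => ?_) _
      simp only [hqdef, if_pos he, cp]
    rw [e1]
    exact PrP_mono hQq.pb fun ω _ h => Arm_anti (by omega) h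
  have h3 : c * PrP (cp p) (BR 0 k) (Arm k) ≤ PrP (cp (1 / 2)) (BR 0 k) (Arm k) *
      Real.exp ((576 * C1 * (1 + K) * (k : ℝ) ^ (3 / 4 : ℝ)) * (p - 1 / 2)) :=
    hright.trans (hG.trans (mul_le_mul_of_nonneg_right hleft (Real.exp_pos _).le))
  have h4 : Real.exp ((576 * C1 * (1 + K) * (k : ℝ) ^ (3 / 4 : ℝ)) * (p - 1 / 2)) ≤
      Real.exp ((576 * C1 + 1 / c + 2) * (1 + K) * ((p - 1 / 2) * (k : ℝ) ^ (3 / 4 : ℝ))) := by
    rw [Real.exp_le_exp]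
    have h5 : 0 ≤ (1 / c + 2) * (1 + K) * ((p - 1 / 2) * (k : ℝ) ^ (3 / 4 : ℝ)) := by positivity
    linarith
  have h5 : PrP (cp p) (BR 0 k) (Arm k) ≤ 1 / c * (PrP (cp (1 / 2)) (BR 0 k) (Arm k) *
      Real.exp ((576 * C1 + 1 / c + 2) * (1 + K) * ((p - 1 / 2) * (k : ℝ) ^ (3 / 4 : ℝ)))) := by
    rw [one_div_mul_eq_div, le_div_iff₀ hc, mul_comm]
    exact h3.trans (mul_le_mul_of_nonneg_left h4 hH)
  refine h5.trans ?_
  have h6 : 0 ≤ (576 * C1 + 2) * (PrP (cp (1 / 2)) (BR 0 k) (Arm k) *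
      Real.exp ((576 * C1 + 1 / c + 2) * (1 + K) * ((p - 1 / 2) * (k : ℝ) ^ (3 / 4 : ℝ)))) := by
    positivity
  linarith

lemma BR_nat (n : ℕ) : BR 0 (n : ℤ) = Bx (-(n : ℤ)) n (-(n : ℤ)) n := by
  unfold BR
  simp only [Prod.fst_zero, Prod.snd_zero, zero_sub, zero_add]

lemma Arm_armF {n : ℕ} (hn : 1 ≤ n) (q : ℤ × ℤ → ℝ) :
    PrP q (Bx (-n) n (-n) n) (armF n) = PrP q (BR 0 n) (Arm n) := by
  rw [BR_nat]
  refine PrP_congr fun ω hω => ?_
  constructor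
  · rintro ⟨z, h1, h2⟩
    refine ⟨z, fun h3 => ?_, h2⟩
    rw [inR_iff] at h3
    simp only [Prod.fst_zero, Prod.snd_zero] at h3
    rcases h1 with h1 | h1
    · have : |z.1| ≤ (n : ℤ) - 1 := abs_le.2 (by omega)
      omega
    · have : |z.2| ≤ (n : ℤ) - 1 := abs_le.2 (by omega)
      omega
  · rintro ⟨z, h1, h2⟩
    have h3 : inB (-n) n (-n) n z := h2.inB hω (by unfold inB; simp)
    rw [inR_iff] at h1
    unfold inB at h3
    simp only [Prod.fst_zero, Prod.snd_zero] at h1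
    refine ⟨z, ?_, h2⟩
    rcases abs_cases z.1 with ⟨h4, _⟩ | ⟨h4, _⟩ <;> rcases abs_cases z.2 with ⟨h5, _⟩ | ⟨h5, _⟩ <;>
      rw [h4, h5] <;> omega

/-- The one-arm probability in the near-critical window. -/
theorem one_arm_window_q (K a : ℝ) (hK : 0 ≤ K) : ∃ C : ℝ, 0 < C ∧ ∀ (p : ℝ) (n : ℕ),
    1 ≤ n → 1 / 2 ≤ p → p ≤ 1 → (p - 1 / 2) * (n : ℝ) ^ (3 / 4 : ℝ) ≤ a → F4B p K n →
    PrP (cp p) (Bx (-n) n (-n) n) (armF n) ≤ C * Pr (Bx (-n) n (-n) n) (armF n) := by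
  obtain ⟨C, hC, h⟩ := one_arm_stab
  refine ⟨C * Real.exp (C * (1 + K) * a), by positivity, fun p n hn hp hp1 hw hF => ?_⟩
  have h1 := h p K n hp hp1 hK (by exact_mod_cast hn) hF
  rw [← Arm_armF hn, ← Arm_armF hn] at h1
  have e1 : PrP (cp (1 / 2)) (Bx (-n) n (-n) n) (armF n) = Pr (Bx (-n) n (-n) n) (armF n) :=
    PrP_half _ _
  rw [e1] at h1
  have h2 : 0 ≤ Pr (Bx (-n) n (-n) n) (armF n) := by
    rw [← e1]; exact PrP_nonneg (cp_Pb (by norm_num) (by norm_num)) _ _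
  refine h1.trans (mul_le_mul_of_nonneg_right ?_ h2)
  refine mul_le_mul_of_nonneg_left ?_ hC.le
  rw [Real.exp_le_exp]
  have e2 : (((n : ℤ)) : ℝ) = (n : ℝ) := by simp
  rw [e2]
  exact mul_le_mul_of_nonneg_left hw (by positivity)

end Pool.Agent.H99.NC
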