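import Mathlib
import Pool.Agent.H99.NC.VarP

set_option autoImplicit false
open Finset

/-! Conditional variances given the complement of a block; refinement of blocks. -/

namespace Pool.Agent.H99.NC

open Pool.Agent.H75.Perc

set_option linter.unusedSectionVars false

variable {α : Type*} [DecidableEq α]

/-- Resampling a block does not change expectations. -/
lemma Ex_block (q : α → ℝ) {E B : Finset α} (hB : B ⊆ E) (H : Finset α → ℝ) :
    Ex q E (fun ω => Ex q B (fun η => H ((ω \ B) ∪ η))) = Ex q E H := by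
  rw [Ex_split q hB, Ex_split q hB H, Ex_swap q q B (E \ B) (fun a b => H (a ∪ b)),
    Ex_swap q q B (E \ B) (fun a b => Ex q B (fun η => H (((a ∪ b) \ B) ∪ η)))]
  refine Ex_congr fun b hb => ?_
  rw [← Ex_const q B (Ex q B (fun a => H (a ∪ b)))]
  refine Ex_congr fun a ha => Ex_congr fun η hη => ?_
  congr 1
  ext y
  have h1 : y ∈ a → y ∈ B := fun h => ha h
  have h2 : y ∈ b → y ∉ B := fun h => (mem_sdiff.1 (hb h)).2
  simp only [mem_union, mem_sdiff]
  tauto

/-- conditional variance of `f` given the configuration outside of `B` -/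
noncomputable def cV (q : α → ℝ) (B : Finset α) (f : Finset α → ℝ) (ω : Finset α) : ℝ :=
  Va q B (fun x => f ((ω \ B) ∪ x))

lemma cV_nonneg {q : α → ℝ} (hq : Pb q) (B : Finset α) (f : Finset α → ℝ) (ω : Finset α) :
    0 ≤ cV q B f ω := Va_nonneg hq _ _

lemma cV_full (q : α → ℝ) (E : Finset α) (f : Finset α → ℝ) {ω : Finset α} (hω : ω ⊆ E) :
    cV q E f ω = Va q E f := by
  unfold cV
  rw [sdiff_eq_empty_iff_subset.2 hω]
  simp

/-- **Refinement.** The expected conditional variance of a block is at most the sum of those of its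
sub-blocks. -/
theorem cV_refine {κ : Type*} [DecidableEq κ] {q : α → ℝ} (hq : Pb q) {E : Finset α}
    (t : Finset κ) (C : κ → Finset α)
    (hd : ∀ i ∈ t, ∀ j ∈ t, i ≠ j → Disjoint (C i) (C j)) (hE : t.biUnion C ⊆ E)
    (f : Finset α → ℝ) :
    Ex q E (cV q (t.biUnion C) f) ≤ ∑ k ∈ t, Ex q E (cV q (C k) f) := by
  set B := t.biUnion C with hB
  have h1 : ∀ ω, ω ⊆ E → cV q B f ω ≤
      ∑ k ∈ t, Ex q B (fun η => cV q (C k) f ((ω \ B) ∪ η)) := by
    intro ω _
    unfold cV
    refine (efron_stein hq t C hd (fun x => f ((ω \ B) ∪ x))).trans (le_of_eq ?_)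
    refine sum_congr rfl fun k hk => Ex_congr fun η _ => Va_congr fun x _ => ?_
    have hkB : C k ⊆ B := subset_biUnion_of_mem C hk
    congr 1
    ext y
    have h2 : y ∈ C k → y ∈ B := fun h => hkB h
    simp only [mem_union, mem_sdiff]
    tauto
  refine (Ex_mono hq h1).trans (le_of_eq ?_)
  rw [Ex_sum]
  exact sum_congr rfl fun k _ => Ex_block q hE (cV q (C k) f)

/-- Monotonicity: a larger block has a larger expected conditional variance. -/
theorem cV_mono {q : α → ℝ} (hq : Pb q) {E B C : Finset α} (hCB : C ⊆ B) (hBE : B ⊆ E)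
    (f : Finset α → ℝ) : Ex q E (cV q C f) ≤ Ex q E (cV q B f) := by
  have h1 : ∀ ω, ω ⊆ E → Ex q B (fun η => cV q C f ((ω \ B) ∪ η)) ≤ cV q B f ω := by
    intro ω _
    unfold cV
    set g : Finset α → ℝ := fun x => f ((ω \ B) ∪ x) with hg
    have h2 : ∀ η, η ⊆ B → Va q C (fun x => f ((((ω \ B) ∪ η) \ C) ∪ x)) =
        Va q C (fun x => g ((η \ C) ∪ x)) := by
      intro η _
      refine Va_congr fun x _ => ?_
      simp only [hg]
      congr 1
      ext y
      have h3 : y ∈ C → y ∈ B := fun h => hCB h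
      simp only [mem_union, mem_sdiff]
      tauto
    rw [Ex_congr h2]
    -- E Var_C g <= Var_B g
    have h4 : Ex q B (fun η => Va q C (fun x => g ((η \ C) ∪ x))) =
        Ex q B (fun η => g η ^ 2) - Ex q B (fun η => (Ex q C (fun x => g ((η \ C) ∪ x))) ^ 2) := by
      have h5 : (fun η : Finset α => Va q C (fun x => g ((η \ C) ∪ x))) = fun η =>
          Ex q C (fun x => g ((η \ C) ∪ x) ^ 2) - (Ex q C (fun x => g ((η \ C) ∪ x))) ^ 2 := by
        funext η
        rw [Va_eq]
      rw [h5, Ex_sub, Ex_block q hCB (fun η => g η ^ 2)]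
    have h6 : Ex q B g ^ 2 ≤ Ex q B (fun η => (Ex q C (fun x => g ((η \ C) ∪ x))) ^ 2) := by
      have h7 := Ex_sq_le hq B (fun η => Ex q C (fun x => g ((η \ C) ∪ x)))
      rwa [Ex_block q hCB g] at h7
    rw [h4, Va_eq]
    linarith
  have h8 := Ex_mono hq h1
  rwa [Ex_block q hBE (cV q C f)] at h8

/-- Variance of an event bounded by influence. -/
lemma cV_ind_le {q : α → ℝ} (B : Finset α) (X : Finset α → Prop) (ω : Finset α) :
    cV q B (fun ω => ind (X ω)) ω ≤ 1 / 4 * ind (Infl B X ω) :=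
  Va_ind_le B (fun x => X ((ω \ B) ∪ x))

/-- The conditional variance of an event. -/
lemma cV_ind (q : α → ℝ) (B : Finset α) (X : Finset α → Prop) (ω : Finset α) :
    cV q B (fun ω => ind (X ω)) ω =
      PrP q B (fun x => X ((ω \ B) ∪ x)) * (1 - PrP q B (fun x => X ((ω \ B) ∪ x))) :=
  Va_ind q B (fun x => X ((ω \ B) ∪ x))

/-- The expected conditional variance is the probability that the event changes from true to false
when the block is resampled. -/
lemma Ex_cV_ind (q : α → ℝ) {E B : Finset α} (hB : B ⊆ E) (X : Finset α → Prop) :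
    Ex q E (cV q B (fun ω => ind (X ω))) =
      Ex q E (fun ω => Ex q B (fun x => ind (X ω ∧ ¬ X ((ω \ B) ∪ x)))) := by
  have h1 : ∀ ω, cV q B (fun ω => ind (X ω)) ω =
      Ex q B (fun y => Ex q B (fun x => ind (X ((ω \ B) ∪ y) ∧ ¬ X ((ω \ B) ∪ x)))) := by
    intro ω
    rw [cV_ind]
    have h2 := PrP_not q B (fun x => X ((ω \ B) ∪ x))
    rw [← h2]
    unfold PrP
    rw [← Ex_smul']
    refine Ex_congr fun y _ => ?_
    rw [← Ex_smul]
    exact Ex_congr fun x _ => (ind_and _ _).symm
  rw [Ex_congr fun ω _ => h1 ω]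
  have h3 := Ex_block q hB (fun ω => Ex q B (fun x => ind (X ω ∧ ¬ X ((ω \ B) ∪ x))))
  rw [← h3]
  refine Ex_congr fun ω _ => Ex_congr fun y hy => Ex_congr fun x _ => ?_
  have h4 : ((ω \ B) ∪ y) \ B = ω \ B := by
    ext z
    have h5 : z ∈ y → z ∈ B := fun h => hy h
    simp only [mem_union, mem_sdiff]
    tauto
  rw [h4]

end Pool.Agent.H99.NC
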