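import Mathlib
import Pool.Agent.H47.NC.Defs
import Pool.Agent.H99.NC.VarP2
import Pool.Agent.H99.NC.DualP
import Pool.Agent.H81.NC.Cell

set_option autoImplicit false
open Finset

/-! T5: the expected conditional variance of a square crossing given the outside of a large
concentric square is bounded below. -/

namespace Pool.Agent.H99.NC

open Pool.Agent.H75.Perc Pool.Agent.H47.NC

/-- the `1 × 1` square -/
lemma fcP_one_one {p : ℝ} (p0 : 0 ≤ p) (p1 : p ≤ 1) : fcP p 1 1 ≤ 2 * p := by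
  have hq := cp_Pb p0 p1
  have h1 : fcP p 1 1 ≤ PrP (cp p) (Bx 0 1 0 1) (fun ω => (1, 0) ∈ ω ∨ (1, 2) ∈ ω) := by
    change PrP (cp p) (Bx 0 1 0 1) (HC 0 1 0 1) ≤ _
    refine PrP_mono hq fun ω hω h => ?_
    obtain ⟨x, y, a1, a2, a3, a4⟩ := h
    obtain ⟨z, z', b1, b2, b3, -, -⟩ := exit_co (X := fun u => u.1 ≤ 0) a4 (by omega) (by omega)
    have c1 := unit_cases b3.1
    have c2 := b3.inB inter_subset_right
    have c3 := (mem_inter.1 b3.2).1
    unfold inB at c2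
    have e1 : z = (0, z.2) := Prod.ext (by simp only; omega) rfl
    have e2 : z' = (1, z.2) := Prod.ext (by simp only; omega) (by simp only; omega)
    rw [e1, e2] at c3
    simp only [Prod.mk_add_mk] at c3
    have h2 : z.2 = 0 ∨ z.2 = 1 := by omega
    rcases h2 with h2 | h2
    · left; rw [h2] at c3; exact c3
    · right; rw [h2] at c3; exact c3
  have h2 := PrP_or_le hq (Bx 0 1 0 1) (fun ω => (1, 0) ∈ ω) (fun ω => (1, 2) ∈ ω)
  rw [PrP_mem (cp p) (by rw [mem_Bx]; norm_num), PrP_mem (cp p) (by rw [mem_Bx]; norm_num)] at h2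
  have : cp p (1, 0) + cp p (1, 2) = 2 * p := by unfold cp; ring
  linarith

/-- RSW for the dual density under `RS`. -/
theorem rsw_dual (k : ℕ) {δ : ℝ} (hδ : 0 < δ) : ∃ c : ℝ, 0 < c ∧ ∀ p : ℝ, 0 ≤ p → p ≤ 1 →
    ∀ N : ℕ, 1 ≤ N → RS δ p N → ∀ W H : ℤ, 0 ≤ W → 0 ≤ H → H ≤ N → W ≤ k * (H + 1) →
    c ≤ fcP (1 - p) W H := by
  obtain ⟨c, hc, h⟩ := rswP k (δ := δ / 2) (by positivity)
  refine ⟨c, hc, fun p p0 p1 N hN hRS W H hW hH hHN hWH => ?_⟩
  have h1 := hRS 1 le_rfl hN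
  have h2 := fcP_one_one (p := 1 - p) (by linarith) (by linarith)
  push_cast at h1
  exact h (1 - p) (by linarith) (by linarith) N
    (fun n hn hnN => by have := hRS n hn hnN; linarith) W H hW hH hHN hWH

/-- **T5.** -/
theorem base_case {δ : ℝ} (hδ : 0 < δ) : ∃ c : ℝ, 0 < c ∧ ∀ (p : ℝ) (N M : ℕ), 1 / 2 ≤ p → p ≤ 1 →
    1 ≤ N → N ≤ 2 * M → M ≤ N → RS δ p (2 * N) →
    c ≤ Ex (cp p) (Bq (0, 0) N) (cV (cp p) (Bq (0, 0) M)
      (fun ω => ind (QC (-N) N (-N) N (fun v => v.1 = -N) (fun v => v.1 = N) ω))) := by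
  obtain ⟨c1, hc1, h1⟩ := rswP_half 2
  obtain ⟨c2, hc2, h2⟩ := rsw_dual 3 hδ
  refine ⟨c1 * c2, by positivity, fun p N M hp p1 hN hNM hMN hRS => ?_⟩
  have p0 : 0 ≤ p := by linarith
  have hq := cp_Pb p0 p1
  set E := Bq (0, 0) (N : ℤ) with hE
  set B := Bq (0, 0) (M : ℤ) with hB
  have hEe : E = Bx (-N) N (-N) N := by rw [hE]; unfold Bq; simp
  have hBe : B = Bx (-M) M (-M) M := by rw [hB]; unfold Bq; simp
  have hBE : B ⊆ E := by rw [hEe, hBe]; exact Bx_sub (by omega) (by omega) (by omega) (by omega)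
  obtain ⟨h, hh1, hh2⟩ : ∃ h : ℤ, (N : ℤ) ≤ 2 * h ∧ 2 * h ≤ N + 1 := ⟨(N + 1) / 2, by omega, by omega⟩
  have hhM : h ≤ M := by omega
  set X : Finset (ℤ × ℤ) → Prop := QC (-N) N (-N) N (fun v => v.1 = -N) (fun v => v.1 = N) with hX
  rw [Ex_cV_ind (cp p) hBE X]
  -- the two strips
  set E1 := Bx (-N) N (-h) h with hE1
  set E2 := Bx (-h) h (-N) N with hE2
  have hE1E : E1 ⊆ E := by rw [hEe]; exact Bx_sub (by omega) (by omega) (by omega) (by omega)
  have hE2E : E2 ⊆ E := by rw [hEe]; exact Bx_sub (by omega) (by omega) (by omega) (by omega)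
  set S : Finset (ℤ × ℤ) → Prop := HC (-N) N (-h) h with hS
  set D : Finset (ℤ × ℤ) → Prop := fun ω => ¬ HC (-h) h (-N) N ω with hD
  have s1 : ∀ ω, S ω → X ω := by
    rintro ω ⟨x, y, a1, a2, a3, a4⟩
    refine ⟨x, y, by unfold inB at a1 ⊢; omega, a2, a3, a4.mono (inter_subset_inter_left ?_)⟩
    exact Bx_sub (by omega) (by omega) (by omega) (by omega)
  have s2 : ∀ ω, D ω → ¬ X ω := by
    rintro ω hDω ⟨x, y, a1, a2, a3, a4⟩
    exact hDω (H81.NC.HC_sub (by omega) (by omega) (by omega) ⟨x, y, a1, a2, a3, a4⟩)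
  have hlow : Ex (cp p) E (fun ω => ind (S (ω ∩ E1)) *
      (fun η => Ex (cp p) B (fun x => ind (D (η ∪ x)))) (ω ∩ (E2 \ B))) ≤
      Ex (cp p) E (fun ω => Ex (cp p) B (fun x => ind (X ω ∧ ¬ X ((ω \ B) ∪ x)))) := by
    refine Ex_mono hq fun ω hω => ?_
    simp only
    rw [← Ex_smul]
    refine Ex_mono hq fun x hx => ?_
    rw [← ind_and]
    refine ind_mono fun hh => ⟨s1 ω ?_, s2 _ ?_⟩
    · exact (HC_restrict _ _ _ _ _).2 hh.1
    · have hd := hh.2
      simp only [hD] at hd ⊢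
      rw [HC_restrict] at hd ⊢
      have e1 : (ω \ B ∪ x) ∩ Bx (-h) h (-N) N = (ω ∩ (E2 \ B) ∪ x) ∩ Bx (-h) h (-N) N := by
        ext z
        simp only [mem_inter, mem_union, mem_sdiff, hE2]
        tauto
      rw [e1]
      exact hd
  refine le_trans ?_ hlow
  have hdis : Disjoint E1 (E2 \ B) := by
    rw [disjoint_left]
    intro e g1 g2
    rw [mem_sdiff] at g2
    apply g2.2
    have g3 := mem_Bx.1 g1
    have g4 := mem_Bx.1 g2.1
    rw [hBe, mem_Bx]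
    omega
  rw [Ex_indep (cp p) hE1E (sdiff_subset.trans hE2E) hdis (fun η => ind (S η))
    (fun η => Ex (cp p) B (fun x => ind (D (η ∪ x))))]
  have t1 : c1 ≤ Ex (cp p) E1 (fun η => ind (S η)) := by
    have : Ex (cp p) E1 (fun η => ind (S η)) = fcP p (2 * N) (2 * h) := by
      change PrP (cp p) E1 (HC (-N) N (-h) h) = _
      rw [PrP_HC' p (subset_refl _)]
      congr 1 <;> ring
    rw [this]
    exact h1 p hp p1 _ _ (by omega) (by omega) (by push_cast; omega)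
  have t2 : c2 ≤ Ex (cp p) (E2 \ B) (fun η => Ex (cp p) B (fun x => ind (D (η ∪ x)))) := by
    have e1 : Ex (cp p) (E2 \ B) (fun η => Ex (cp p) B (fun x => ind (D (η ∪ x)))) =
        PrP (cp p) ((E2 \ B) ∪ B) D := by
      unfold PrP
      rw [Ex_union (cp p) sdiff_disjoint]
    have e2 : PrP (cp p) ((E2 \ B) ∪ B) D = 1 - fcP p (2 * h) (2 * N) := by
      simp only [hD]
      rw [PrP_not, PrP_HC' p (by rw [sdiff_union_self_eq_union]; exact subset_union_left)]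
      congr 2 <;> ring
    rw [e1, e2]
    obtain ⟨w, hw⟩ : ∃ w : ℕ, 2 * h = (w : ℤ) + 1 := ⟨(2 * h - 1).toNat, by omega⟩
    have e3 := fcP_dual p w (2 * N)
    push_cast at e3
    rw [hw]
    have e4 := h2 p p0 p1 (2 * N) (by omega) hRS (2 * (N : ℤ) + 1) w (by omega) (by omega)
      (by push_cast; omega) (by push_cast; omega)
    linarith
  exact mul_le_mul t1 t2 hc2.le (hc1.le.trans t1)

end Pool.Agent.H99.NC
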