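import Mathlib
import Pool.Agent.H99.NC.RswP
import Pool.Agent.H99.NC.Plane

set_option autoImplicit false
open Finset

/-! Renormalisation: if the rectangle `2N × (N-1)` is crossed the long way with probability at least
`49/50` then `theta p` is at least one eighth of the one-arm probability at distance `N`. -/

namespace Pool.Agent.H99.NC

open Pool.Agent.H75.Perc
open Pool.Agent.H63.Bulk (OneArm)

section doubling

variable {p : ℝ}

/-- Stacking two independent copies. -/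
lemma stack (p0 : 0 ≤ p) (p1 : p ≤ 1) {w n : ℤ} (hn : 1 ≤ n) :
    1 - fcP p w (2 * n - 1) ≤ (1 - fcP p w (n - 1)) ^ 2 := by
  have hq := cp_Pb p0 p1
  set E := Bx 0 w 0 (2 * n - 1) with hE
  have hs1 : Bx 0 w 0 (n - 1) ⊆ E := Bx_sub le_rfl le_rfl le_rfl (by omega)
  have hs2 : Bx 0 w n (2 * n - 1) ⊆ E := Bx_sub le_rfl le_rfl (by omega) le_rfl
  have hd : Disjoint (Bx 0 w 0 (n - 1)) (Bx 0 w n (2 * n - 1)) := by
    rw [disjoint_left]
    intro e h1 h2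
    rw [mem_Bx] at h1 h2
    omega
  have e0 : 1 - fcP p w (2 * n - 1) = PrP (cp p) E (fun ω => ¬ HC 0 w 0 (2 * n - 1) ω) :=
    (PrP_not _ _ _).symm
  have e1 : PrP (cp p) E (fun ω => (fun η => ¬ HC 0 w 0 (n - 1) η) (ω ∩ Bx 0 w 0 (n - 1)) ∧
      (fun η => ¬ HC 0 w n (2 * n - 1) η) (ω ∩ Bx 0 w n (2 * n - 1))) =
      (1 - fcP p w (n - 1)) * (1 - fcP p w (n - 1)) := by
    have e2 := PrP_indep (cp p) hs1 hs2 hd (fun η => ¬ HC 0 w 0 (n - 1) η)
      (fun η => ¬ HC 0 w n (2 * n - 1) η)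
    rw [PrP_not, PrP_not, PrP_HC' p (subset_refl _), PrP_HC' p (subset_refl _)] at e2
    have e3 : n - 1 - 0 = n - 1 := by ring
    have e4 : 2 * n - 1 - n = n - 1 := by ring
    have e5 : w - 0 = w := by ring
    rw [e3, e4, e5] at e2
    exact e2
  rw [e0, pow_two, ← e1]
  refine PrP_mono hq fun ω _ h => ⟨fun h1 => h ?_, fun h1 => h ?_⟩
  · have h2 := (HC_restrict 0 w 0 (n - 1) ω).2 h1
    obtain ⟨x, y, a1, a2, a3, a4⟩ := h2
    exact ⟨x, y, by unfold inB at a1 ⊢; omega, a2, a3,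
      a4.mono (inter_subset_inter_left (Bx_sub le_rfl le_rfl le_rfl (by omega)))⟩
  · have h2 := (HC_restrict 0 w n (2 * n - 1) ω).2 h1
    obtain ⟨x, y, a1, a2, a3, a4⟩ := h2
    exact ⟨x, y, by unfold inB at a1 ⊢; omega, a2, a3,
      a4.mono (inter_subset_inter_left (Bx_sub le_rfl le_rfl (by omega) le_rfl))⟩

lemma doubling (p0 : 0 ≤ p) (p1 : p ≤ 1) {n : ℤ} (hn : 1 ≤ n) :
    1 - fcP p (4 * n) (2 * n - 1) ≤ 25 * (1 - fcP p (2 * n) (n - 1)) ^ 2 := by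
  have h1 := stack p0 p1 (w := 4 * n) hn
  have h2 : 1 - fcP p (n - 1) n ≤ 1 - fcP p (2 * n) (n - 1) := by
    have a1 := fcP_anti p0 p1 (w := 2 * n) (w' := n - 1) (h := n) (by omega) (by omega)
    have a2 := fcP_mono p0 p1 (w := 2 * n) (h := n - 1) (h' := n) (by omega)
    linarith
  have h3 := fcP_glue' p0 p1 (w1 := 2 * n) (w2 := 2 * n) (v := n) (h := n - 1) (by omega)
    (by omega) (by omega)
  have h4 := fcP_glue' p0 p1 (w1 := 3 * n) (w2 := 2 * n) (v := n) (h := n - 1) (by omega)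
    (by omega) (by omega)
  have e1 : 2 * n + 2 * n - n = 3 * n := by ring
  have e2 : 3 * n + 2 * n - n = 4 * n := by ring
  rw [e1] at h3
  rw [e2] at h4
  have h5 : 1 - fcP p (4 * n) (n - 1) ≤ 5 * (1 - fcP p (2 * n) (n - 1)) := by linarith
  have h6 : 0 ≤ 1 - fcP p (4 * n) (n - 1) := by linarith [fcP_le_one p0 p1 (4 * n) (n - 1)]
  have h7 := pow_le_pow_left₀ h6 h5 2
  nlinarith

lemma all_scales (p0 : 0 ≤ p) (p1 : p ≤ 1) {N : ℤ} (hN : 1 ≤ N)
    (h : 1 - fcP p (2 * N) (N - 1) ≤ 1 / 50) (j : ℕ) :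
    1 - fcP p (2 * (2 ^ j * N)) (2 ^ j * N - 1) ≤ 1 / 50 * (1 / 2) ^ j := by
  induction j with
  | zero => simpa using h
  | succ j ih =>
    have h2 : (1 : ℤ) ≤ 2 ^ j * N := by
      have : (1 : ℤ) ≤ 2 ^ j := one_le_pow₀ (by norm_num)
      nlinarith
    have h1 := doubling p0 p1 h2
    have e1 : 4 * (2 ^ j * N) = 2 * (2 ^ (j + 1) * N) := by ring
    have e2 : 2 * (2 ^ j * N) - 1 = 2 ^ (j + 1) * N - 1 := by ring
    rw [e1, e2] at h1
    refine h1.trans ?_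
    have h3 : 0 ≤ 1 - fcP p (2 * (2 ^ j * N)) (2 ^ j * N - 1) := by
      linarith [fcP_le_one p0 p1 (2 * (2 ^ j * N)) (2 ^ j * N - 1)]
    have h4 := pow_le_pow_left₀ h3 ih 2
    have h5 : (0 : ℝ) < (1 / 2) ^ j := by positivity
    have h6 : ((1 : ℝ) / 2) ^ j ≤ 1 := pow_le_one₀ (by norm_num) (by norm_num)
    have h7 : ((1 : ℝ) / 2) ^ (j + 1) = (1 / 2) ^ j * (1 / 2) := pow_succ _ _
    rw [h7]
    nlinarith

end doubling

section chain

/-- `x` is connected to a crossing of the rectangle of scale `a` -/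
def Ch (a : ℤ) (even : Prop) (ω : Finset (ℤ × ℤ)) (x : ℤ × ℤ) : Prop :=
  (even → ∃ p q, inB 0 (2 * a) 0 (a - 1) p ∧ p.1 = 0 ∧ q.1 = 2 * a ∧
    Co (ω ∩ Bx 0 (2 * a) 0 (a - 1)) p q ∧ Co ω x p) ∧
  (¬ even → ∃ p q, inB 0 (a - 1) 0 (2 * a) p ∧ p.2 = 0 ∧ q.2 = 2 * a ∧
    Co (ω ∩ Bx 0 (a - 1) 0 (2 * a)) p q ∧ Co ω x p)

/-- the crossing event of the `j`-th rectangle -/
def Cj (N : ℤ) (j : ℕ) (ω : Finset (ℤ × ℤ)) : Prop :=
  (Even j → HC 0 (2 * (2 ^ j * N)) 0 (2 ^ j * N - 1) ω) ∧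
  (¬ Even j → VC 0 (2 ^ j * N - 1) 0 (2 * (2 ^ j * N)) ω)

lemma Cj_inc (N : ℤ) (j : ℕ) : Inc (Cj N j) := fun ω ω' h hC =>
  ⟨fun he => HC_inc _ _ _ _ _ _ h (hC.1 he), fun he => VC_inc _ _ _ _ _ _ h (hC.2 he)⟩

lemma Ch_step {N : ℤ} (hN : 1 ≤ N) (j : ℕ) {ω : Finset (ℤ × ℤ)} {x : ℤ × ℤ}
    (h : Ch (2 ^ j * N) (Even j) ω x) (hC : Cj N (j + 1) ω) :
    Ch (2 ^ (j + 1) * N) (Even (j + 1)) ω x := by
  have ha : (1 : ℤ) ≤ 2 ^ j * N := by
    have : (1 : ℤ) ≤ 2 ^ j := one_le_pow₀ (by norm_num)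
    nlinarith
  have e1 : (2 : ℤ) ^ (j + 1) * N = 2 * (2 ^ j * N) := by ring
  unfold Cj at hC
  rw [e1] at hC ⊢
  generalize (2 : ℤ) ^ j * N = a at *
  constructor
  · intro he
    have hj : ¬ Even j := by rw [Nat.even_add_one] at he; exact he
    obtain ⟨p, q, a1, a2, a3, a4, a5⟩ := h.2 hj
    obtain ⟨r, s, b1, b2, b3, b4⟩ := hC.1 he
    have s1 : ω ∩ Bx 0 (2 * (2 * a)) 0 (2 * a - 1) ⊆ Bx 0 (2 * (2 * a)) 0 (2 * a) :=
      inter_subset_right.trans (Bx_sub le_rfl le_rfl le_rfl (by omega))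
    have s2 : ω ∩ Bx 0 (a - 1) 0 (2 * a) ⊆ Bx 0 (2 * (2 * a)) 0 (2 * a) :=
      inter_subset_right.trans (Bx_sub le_rfl (by omega) le_rfl le_rfl)
    obtain ⟨z, z1, z2⟩ := cross_co s1 s2 (p := r) (q := s) (r := p) (s := q)
      (by unfold inB at b1 ⊢; omega) (by unfold inB at a1 ⊢; omega) b4 a4 b2 b3 a2 a3
    refine ⟨r, s, b1, b2, b3, b4, ?_⟩
    exact (a5.trans (z2.mono inter_subset_left)).trans (z1.mono inter_subset_left).symm
  · intro he
    have hj : Even j := by rw [Nat.even_add_one, not_not] at he; exact he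
    obtain ⟨p, q, a1, a2, a3, a4, a5⟩ := h.1 hj
    obtain ⟨r, s, b1, b2, b3, b4⟩ := hC.2 he
    have s1 : ω ∩ Bx 0 (2 * a) 0 (a - 1) ⊆ Bx 0 (2 * a) 0 (2 * (2 * a)) :=
      inter_subset_right.trans (Bx_sub le_rfl le_rfl le_rfl (by omega))
    have s2 : ω ∩ Bx 0 (2 * a - 1) 0 (2 * (2 * a)) ⊆ Bx 0 (2 * a) 0 (2 * (2 * a)) :=
      inter_subset_right.trans (Bx_sub le_rfl (by omega) le_rfl le_rfl)
    obtain ⟨z, z1, z2⟩ := cross_co s1 s2 (p := p) (q := q) (r := r) (s := s)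
      (by unfold inB at a1 ⊢; omega) (by unfold inB at b1 ⊢; omega) a4 b4 a2 a3 b2 b3
    refine ⟨r, s, b1, b2, b3, b4, ?_⟩
    exact (a5.trans (z1.mono inter_subset_left)).trans (z2.mono inter_subset_left).symm

lemma Ch_far {a : ℤ} {e : Prop} {ω : Finset (ℤ × ℤ)} {x : ℤ × ℤ} (h : Ch a e ω x) :
    ∃ v : ℤ × ℤ, (2 * a ≤ |v.1| ∨ 2 * a ≤ |v.2|) ∧ Co ω x v := by
  by_cases he : e
  · obtain ⟨p, q, a1, a2, a3, a4, a5⟩ := h.1 he
    exact ⟨q, Or.inl (by rw [← a3]; exact le_abs_self _),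
      a5.trans (a4.mono inter_subset_left)⟩
  · obtain ⟨p, q, a1, a2, a3, a4, a5⟩ := h.2 he
    exact ⟨q, Or.inr (by rw [← a3]; exact le_abs_self _),
      a5.trans (a4.mono inter_subset_left)⟩

/-- arm to the right side -/
def armR (n : ℤ) (ω : Finset (ℤ × ℤ)) : Prop := ∃ v : ℤ × ℤ, n ≤ v.1 ∧ Co ω (0, 0) v

lemma armR_inc (n : ℤ) : Inc (armR n) := fun _ _ h ⟨v, h1, h2⟩ => ⟨v, h1, h2.mono h⟩

lemma armF_cases {n : ℕ} {ω : Finset (ℤ × ℤ)} (h : armF n ω) :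
    armR n ω ∨ armR n (ω.map (syX 0).G) ∨ armR n (ω.map syD.G) ∨
      armR n ((ω.map syD.G).map (syX 0).G) := by
  obtain ⟨v, hv, hc⟩ := h
  rcases hv with hv | hv
  · rcases le_abs.1 (le_of_eq hv.symm) with h1 | h1
    · exact Or.inl ⟨v, h1, hc⟩
    · right; left
      refine ⟨(syX 0).g v, by simp only [syX]; omega, ?_⟩
      have := ((syX 0).co_iff ω (0, 0) v).2 hc
      simpa [syX] using this
  · rcases le_abs.1 (le_of_eq hv.symm) with h1 | h1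
    · right; right; left
      refine ⟨syD.g v, by simp only [syD]; omega, ?_⟩
      have := (syD.co_iff ω (0, 0) v).2 hc
      simpa [syD] using this
    · right; right; right
      refine ⟨(syX 0).g (syD.g v), by simp only [syX, syD]; omega, ?_⟩
      have := ((syX 0).co_iff _ _ _).2 ((syD.co_iff ω (0, 0) v).2 hc)
      simpa [syX, syD] using this

lemma arm_quarter {p : ℝ} (p0 : 0 ≤ p) (p1 : p ≤ 1) (n : ℕ) :
    PrP (cp p) (Bx (-n) n (-n) n) (armF n) ≤ 4 * PrP (cp p) (Bx (-n) n (-n) n) (armR n) := by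
  have hq := cp_Pb p0 p1
  set E := Bx (-n) n (-n) n with hE
  have hX : ∀ e, e ∈ E ↔ (syX 0).G' e ∈ E := by
    intro e
    rw [hE, mem_Bx, mem_Bx]
    simp only [syX]
    omega
  have hD : ∀ e, e ∈ E ↔ syD.G' e ∈ E := by
    intro e
    rw [hE, mem_Bx, mem_Bx]
    simp only [syD]
    omega
  have e1 := Sy_PrP (syX 0) p hX (armR n)
  have e2 := Sy_PrP syD p hD (armR n)
  have e3 := Sy_PrP syD p hD (fun ω => armR n (ω.map (syX 0).G))
  have h1 : PrP (cp p) E (armF n) ≤ PrP (cp p) E (fun ω => armR n ω ∨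
      armR n (ω.map (syX 0).G) ∨ armR n (ω.map syD.G) ∨
      armR n ((ω.map syD.G).map (syX 0).G)) := PrP_mono hq fun ω _ h => armF_cases h
  have h2 := PrP_or_le hq E (armR n) (fun ω => armR n (ω.map (syX 0).G) ∨
      armR n (ω.map syD.G) ∨ armR n ((ω.map syD.G).map (syX 0).G))
  have h3 := PrP_or_le hq E (fun ω => armR n (ω.map (syX 0).G)) (fun ω =>
      armR n (ω.map syD.G) ∨ armR n ((ω.map syD.G).map (syX 0).G))
  have h4 := PrP_or_le hq E (fun ω => armR n (ω.map syD.G)) (fun ω =>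
      armR n ((ω.map syD.G).map (syX 0).G))
  linarith

/-- Start of the chain. -/
lemma Ch_start {N : ℤ} (hN : 1 ≤ N) {ω ω0 : Finset (ℤ × ℤ)} (hω0 : ω0 ⊆ ω)
    (hω0' : ω0 ⊆ Bx (-N) N (-N) N) (h1 : armR N ω0) (h2 : VC 1 N (-N) N ω)
    (h3 : HC 0 (2 * N) 0 (N - 1) ω) : Ch N True ω (0, 0) := by
  obtain ⟨v, hv, hc⟩ := h1
  have hvB : inB (-N) N (-N) N v := hc.inB hω0' (by unfold inB; simp only; omega)
  obtain ⟨z, z', b1, b2, b3, b4, b5⟩ := exit_co (X := inB 1 N (-N) N) hc.symm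
    (by unfold inB at hvB ⊢; omega) (by unfold inB; simp only; omega)
  have hz'B : inB (-N) N (-N) N z' := (b3.inB hω0').2
  have hz1 : z.1 = 1 := by
    have := unit_cases b3.1
    unfold inB at b1 b2 hz'B
    omega
  have c1 : Co (ω0 ∩ Bx 1 N (-N) N) z v :=
    (b4.box (fun z hz => hz) (by unfold inB at hvB ⊢; omega)).symm
  have c2 : Co ω (0, 0) v := hc.mono hω0
  obtain ⟨r, s, r1, r2, r3, r4⟩ := h2
  -- the arm meets the vertical crossing
  obtain ⟨y, y1, y2⟩ := cross_co (a := 1) (b := N) (c := -N) (d := N) inter_subset_right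
    inter_subset_right b1 r1 c1 r4 hz1 (by unfold inB at hvB; omega) r2 r3
  obtain ⟨p, q, p1, p2, p3, p4⟩ := h3
  have s1 : ω ∩ Bx 0 (2 * N) 0 (N - 1) ⊆ Bx 0 (2 * N) (-N) N :=
    inter_subset_right.trans (Bx_sub le_rfl le_rfl (by omega) (by omega))
  have s2 : ω ∩ Bx 1 N (-N) N ⊆ Bx 0 (2 * N) (-N) N :=
    inter_subset_right.trans (Bx_sub (by omega) (by omega) le_rfl le_rfl)
  obtain ⟨x, x1, x2⟩ := cross_co s1 s2 (p := p) (q := q) (r := r) (s := s)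
    (by unfold inB at p1 ⊢; omega) (by unfold inB at r1 ⊢; omega) p4 r4 p2 p3 r2 r3
  refine ⟨fun _ => ⟨p, q, p1, p2, p3, p4, ?_⟩, fun h => absurd trivial h⟩
  have d1 : Co ω (0, 0) y := c2.trans
    (((c1.mono (inter_subset_left.trans hω0)).symm).trans (y1.mono (inter_subset_left.trans hω0)))
  have d2 : Co ω y r := (y2.mono inter_subset_left).symm
  have d3 : Co ω r x := x2.mono inter_subset_left
  exact ((d1.trans d2).trans d3).trans (x1.mono inter_subset_left).symm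

lemma prod_ge (J : ℕ) (a : ℕ → ℝ) (h0 : ∀ j, 0 ≤ a j) (h1 : ∀ j, a j ≤ 1 / 50 * (1 / 2) ^ j) :
    24 / 25 ≤ ∏ j ∈ range J, (1 - a j) := by
  have key : 1 - 1 / 25 * (1 - (1 / 2) ^ J) ≤ ∏ j ∈ range J, (1 - a j) := by
    induction J with
    | zero => simp
    | succ J ih =>
      rw [prod_range_succ]
      have h3 := h1 J
      have h4 := h0 J
      have h5 : (0 : ℝ) < (1 / 2) ^ J := by positivity
      have h6 : ((1 : ℝ) / 2) ^ J ≤ 1 := pow_le_one₀ (by norm_num) (by norm_num)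
      have h7 : 0 ≤ 1 - a J := by nlinarith
      have h8 := mul_le_mul_of_nonneg_right ih h7
      refine le_trans ?_ h8
      rw [pow_succ]
      nlinarith
  have h5 : (0 : ℝ) < (1 / 2) ^ J := by positivity
  linarith

end chain

/-- Finite volume version. -/
theorem super_arm {p : ℝ} (p0 : 0 ≤ p) (p1 : p ≤ 1) {N : ℕ} (hN : 1 ≤ N)
    (h : 1 - fcP p (2 * N) (N - 1) ≤ 1 / 50) (J : ℕ) :
    1 / 8 * PrP (cp p) (Bx (-N) N (-N) N) (armF N) ≤
      PrP (cp p) (Bx (-((2 * (2 ^ J * N) : ℕ) : ℤ)) ((2 * (2 ^ J * N) : ℕ) : ℤ)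
        (-((2 * (2 ^ J * N) : ℕ) : ℤ)) ((2 * (2 ^ J * N) : ℕ) : ℤ)) (armF (2 * (2 ^ J * N))) := by
  have hq := cp_Pb p0 p1
  set M : ℕ := 2 * (2 ^ J * N) with hM
  set E := Bx (-(M : ℤ)) M (-(M : ℤ)) M with hE
  have hNz : (1 : ℤ) ≤ N := by exact_mod_cast hN
  have hpow : ∀ j ≤ J, (2 : ℤ) ^ j * N ≤ 2 ^ J * N := fun j hj =>
    mul_le_mul_of_nonneg_right (pow_le_pow_right₀ (by norm_num) hj) (by omega)
  have hMz : (M : ℤ) = 2 * (2 ^ J * N) := by rw [hM]; push_cast; ring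
  have hN1 : (N : ℤ) ≤ 2 ^ J * N := by simpa using hpow 0 (Nat.zero_le _)
  have hscale : ∀ j ≤ J, PrP (cp p) E (Cj N j) = 1 - (1 - fcP p (2 * (2 ^ j * N)) (2 ^ j * N - 1)) := by
    intro j hj
    have hj' := hpow j hj
    rw [sub_sub_cancel]
    by_cases he : Even j
    · have : PrP (cp p) E (Cj N j) = PrP (cp p) E (HC 0 (2 * (2 ^ j * N)) 0 (2 ^ j * N - 1)) :=
        PrP_congr fun ω _ => ⟨fun h => h.1 he, fun h => ⟨fun _ => h, fun h' => absurd he h'⟩⟩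
      rw [this, PrP_HC' p (Bx_sub (by omega) (by omega) (by omega) (by omega)), sub_zero, sub_zero]
    · have : PrP (cp p) E (Cj N j) = PrP (cp p) E (VC 0 (2 ^ j * N - 1) 0 (2 * (2 ^ j * N))) :=
        PrP_congr fun ω _ => ⟨fun h => h.2 he, fun h => ⟨fun h' => absurd h' he, fun _ => h⟩⟩
      rw [this, PrP_VC p (Bx_sub (by omega) (by omega) (by omega) (by omega)), sub_zero, sub_zero]
  have hV : PrP (cp p) E (VC 1 N (-N) N) = fcP p (2 * N) (N - 1) := by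
    rw [PrP_VC p (Bx_sub (by omega) (by omega) (by omega) (by omega))]
    congr 1
    ring
  have hsubN : Bx (-(N : ℤ)) N (-(N : ℤ)) N ⊆ E :=
    Bx_sub (by omega) (by omega) (by omega) (by omega)
  have hA : PrP (cp p) (Bx (-(N : ℤ)) N (-(N : ℤ)) N) (armR N) =
      PrP (cp p) E (fun ω => armR N (ω ∩ Bx (-(N : ℤ)) N (-(N : ℤ)) N)) :=
    (PrP_restrict (cp p) hsubN (armR N)).symm
  have hAinc : Inc (fun ω => armR N (ω ∩ Bx (-(N : ℤ)) N (-(N : ℤ)) N)) :=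
    fun ω ω' h h' => armR_inc _ _ _ (inter_subset_inter_right h) h'
  have hCinc : Inc (fun ω => ∀ j ∈ range (J + 1), Cj N j ω) :=
    fun ω ω' h h' j hj => Cj_inc _ _ _ _ h (h' j hj)
  have h1 := harris3P hq E hAinc (VC_inc 1 N (-N) N) hCinc
  have h2 := harris_listP hq E (range (J + 1)) (A := Cj N) (fun j _ => Cj_inc N j)
  have h3 : ∏ j ∈ range (J + 1), PrP (cp p) E (Cj N j) =
      ∏ j ∈ range (J + 1), (1 - (1 - fcP p (2 * (2 ^ j * N)) (2 ^ j * N - 1))) :=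
    prod_congr rfl fun j hj => hscale j (by rw [mem_range] at hj; omega)
  have h4 := prod_ge (J + 1) (fun j => 1 - fcP p (2 * (2 ^ j * N)) (2 ^ j * N - 1))
    (fun j => by linarith [fcP_le_one p0 p1 (2 * (2 ^ j * N)) (2 ^ j * N - 1)])
    (fun j => all_scales p0 p1 hNz h j)
  rw [h3] at h2
  have h5 : PrP (cp p) E (fun ω => armR N (ω ∩ Bx (-(N : ℤ)) N (-(N : ℤ)) N) ∧
      VC 1 N (-N) N ω ∧ ∀ j ∈ range (J + 1), Cj N j ω) ≤ PrP (cp p) E (armF M) := by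
    refine PrP_mono hq fun ω hω hh => ?_
    obtain ⟨g1, g2, g3⟩ := hh
    have start : Ch ((2 : ℤ) ^ 0 * N) (Even 0) ω (0, 0) := by
      have := Ch_start hNz inter_subset_left inter_subset_right g1 g2
        (by have := (g3 0 (by simp)).1 (by simp); simpa using this)
      have e0 : (Even 0) = True := by simp
      rw [e0, pow_zero, one_mul]
      exact this
    have all : ∀ j ≤ J, Ch ((2 : ℤ) ^ j * N) (Even j) ω (0, 0) := by
      intro j
      induction j with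
      | zero => intro _; exact start
      | succ j ih =>
        intro hj
        exact Ch_step hNz j (ih (by omega)) (g3 (j + 1) (by rw [mem_range]; omega))
    obtain ⟨v, hv, hc⟩ := Ch_far (all J le_rfl)
    refine ⟨v, ?_, hc⟩
    have hvB : inB (-(M : ℤ)) M (-(M : ℤ)) M v :=
      hc.inB hω (by unfold inB; simp only; omega)
    have k1 : |v.1| ≤ M := abs_le.2 hvB.1
    have k2 : |v.2| ≤ M := abs_le.2 hvB.2
    rw [← hMz] at hv
    rcases hv with hv | hv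
    · exact Or.inl (le_antisymm k1 hv)
    · exact Or.inr (le_antisymm k2 hv)
  have h6 := arm_quarter p0 p1 N
  have h7 : 0 ≤ PrP (cp p) (Bx (-(N : ℤ)) N (-(N : ℤ)) N) (armR N) := PrP_nonneg hq _ _
  rw [← hA, hV] at h1
  have h8 : 49 / 50 ≤ fcP p (2 * N) (N - 1) := by linarith
  have h9 := h4.trans h2
  have h10 : PrP (cp p) (Bx (-(N : ℤ)) N (-(N : ℤ)) N) (armR N) * (49 / 50) * (24 / 25) ≤
      PrP (cp p) E (armF M) := by
    refine le_trans ?_ (h1.trans h5)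
    exact mul_le_mul (mul_le_mul_of_nonneg_left h8 h7) h9 (by norm_num)
      (mul_nonneg h7 (by linarith))
  linarith

/-- **Lower bound for the percolation probability.** -/
theorem theta_ge {p : ℝ} (p0 : 0 ≤ p) (p1 : p ≤ 1) {N : ℕ} (hN : 1 ≤ N)
    (h : 1 - fcP p (2 * N) (N - 1) ≤ 1 / 50) :
    1 / 8 * PrP (cp p) (Bx (-N) N (-N) N) (armF N) ≤ theta p := by
  apply le_theta p0 p1
  intro n
  have := planeP_prob p0 p1
  refine (super_arm p0 p1 hN h n).trans ?_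
  rw [show cp p = fun _ => p from rfl, ← oneArm_PrP p0 p1]
  refine ENNReal.toReal_mono (MeasureTheory.measure_ne_top _ _) (MeasureTheory.measure_mono ?_)
  intro ω hω
  refine oneArm_anti ?_ hω
  have h1 : n < 2 ^ n := Nat.lt_two_pow_self
  nlinarith

/-- Two scales of squares are enough. -/
theorem theta_ge' {p : ℝ} (p0 : 0 ≤ p) (p1 : p ≤ 1) {n : ℕ} (hn : 1 ≤ n)
    (h1 : 1 - (1 / 1250) ^ 2 ≤ fcP p n n) (h2 : 1 - (1 / 1250) ^ 2 ≤ fcP p (2 * n) (2 * n)) :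
    1 / 8 * PrP (cp p) (Bx (-((2 * n + 1 : ℕ) : ℤ)) ((2 * n + 1 : ℕ) : ℤ)
      (-((2 * n + 1 : ℕ) : ℤ)) ((2 * n + 1 : ℕ) : ℤ)) (armF (2 * n + 1)) ≤ theta p := by
  apply theta_ge p0 p1 (by omega)
  have h3 := fcP_long' p0 p1 (δ := 1 / 1250) (by norm_num) (by norm_num) hn h1 h2 4
  have h4 := fcP_anti p0 p1 (w := ((4 : ℕ) + 2) * (n : ℤ)) (w' := 2 * ((2 * n + 1 : ℕ) : ℤ))
    (h := 2 * n) (by omega) (by push_cast; omega)
  have e1 : (((2 * n + 1 : ℕ) : ℤ) - 1) = 2 * n := by push_cast; ring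
  rw [e1]
  norm_num at h3 h4 ⊢
  linarith

end Pool.Agent.H99.NC
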