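import Mathlib
import Pool.Agent.H99.NC.RingP

set_option autoImplicit false
open Finset

/-! Rings and gluing of arms for densities at least `p`, where `p` may be less than one half; the
crossing probabilities of squares at density `p` are assumed to be bounded below up to scale `N`. -/

namespace Pool.Agent.H99.NC

open Pool.Agent.H75.Perc

/-- densities in `[p, 1]` -/
def Ql (p : ℝ) (q : ℤ × ℤ → ℝ) : Prop := ∀ e, p ≤ q e ∧ q e ≤ 1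

/-- all squares up to side `N` are crossed with probability at least `δ` at density `p` -/
def SqL (δ p : ℝ) (N : ℕ) : Prop := ∀ n : ℕ, 1 ≤ n → n ≤ N → δ ≤ fcP p n n

lemma SqL_half (N : ℕ) : SqL (1 / 2) (1 / 2) N := fun n _ _ =>
  fcP_square le_rfl (by norm_num) n

lemma Ql.pb {p : ℝ} (h0 : 0 ≤ p) {q : ℤ × ℤ → ℝ} (h : Ql p q) : Pb q :=
  fun e => ⟨h0.trans (h e).1, (h e).2⟩

lemma Ql.ge {p : ℝ} (h0 : 0 ≤ p) (h1 : p ≤ 1) {q : ℤ × ℤ → ℝ} (h : Ql p q) {E : Finset (ℤ × ℤ)}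
    {A : Finset (ℤ × ℤ) → Prop} (hA : Inc A) : PrP (cp p) E A ≤ PrP q E A :=
  PrP_mono_q (cp_Pb h0 h1) (h.pb h0) (fun e _ => (h e).1) hA

/-- RSW for all densities at least `p` -/
theorem rsw_l (k : ℕ) {δ : ℝ} (hδ : 0 < δ) : ∃ c : ℝ, 0 < c ∧ ∀ p : ℝ, δ ≤ p → p ≤ 1 →
    ∀ N : ℕ, SqL δ p N → ∀ q : ℤ × ℤ → ℝ, Ql p q → ∀ (E : Finset (ℤ × ℤ))
    (a b x y : ℤ), a ≤ b → x ≤ y → Bx a b x y ⊆ E →
    (y - x ≤ N → b - a ≤ k * (y - x + 1) → c ≤ PrP q E (HC a b x y)) ∧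
    (b - a ≤ N → y - x ≤ k * (b - a + 1) → c ≤ PrP q E (VC a b x y)) := by
  obtain ⟨c, hc, h⟩ := rswP k hδ
  refine ⟨c, hc, fun p hp p1 N hN q hq E a b x y hab hxy hE =>
    ⟨fun h0 h1 => ?_, fun h0 h1 => ?_⟩⟩
  · refine le_trans ?_ (hq.ge (hδ.le.trans hp) p1 (HC_inc a b x y))
    rw [PrP_HC' _ hE]
    exact h p hp p1 N hN _ _ (by omega) (by omega) h0 h1
  · refine le_trans ?_ (hq.ge (hδ.le.trans hp) p1 (VC_inc a b x y))
    rw [PrP_VC _ hE]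
    exact h p hp p1 N hN _ _ (by omega) (by omega) h0 h1

/-- Probability of the ring. -/
theorem ring_l {δ : ℝ} (hδ : 0 < δ) : ∃ c : ℝ, 0 < c ∧ ∀ p : ℝ, δ ≤ p → p ≤ 1 →
    ∀ N : ℕ, SqL δ p N → ∀ q : ℤ × ℤ → ℝ, Ql p q → ∀ (E : Finset (ℤ × ℤ)) (c0 : ℤ × ℤ)
    (a : ℤ), 1 ≤ a → a ≤ N → BR c0 (2 * a) ⊆ E → c ≤ PrP q E (Ring c0 a) := by
  obtain ⟨c, hc, h⟩ := rsw_l 4 hδ
  refine ⟨(c * c) * (c * c), by positivity, fun p hp p1 N hN q hq E c0 a ha haN hE => ?_⟩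
  unfold BR at hE
  have hpb := hq.pb (hδ.le.trans hp)
  have h1 := (h p hp p1 N hN q hq E (c0.1 - 2 * a) (c0.1 + 2 * a) (c0.2 + a) (c0.2 + 2 * a)
    (by omega) (by omega) ((Bx_sub le_rfl le_rfl (by omega) le_rfl).trans hE)).1 (by omega)
    (by push_cast; omega)
  have h2 := (h p hp p1 N hN q hq E (c0.1 - 2 * a) (c0.1 + 2 * a) (c0.2 - 2 * a) (c0.2 - a)
    (by omega) (by omega) ((Bx_sub le_rfl le_rfl le_rfl (by omega)).trans hE)).1 (by omega)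
    (by push_cast; omega)
  have h3 := (h p hp p1 N hN q hq E (c0.1 - 2 * a) (c0.1 - a) (c0.2 - 2 * a) (c0.2 + 2 * a)
    (by omega) (by omega) ((Bx_sub le_rfl (by omega) le_rfl le_rfl).trans hE)).2 (by omega)
    (by push_cast; omega)
  have h4 := (h p hp p1 N hN q hq E (c0.1 + a) (c0.1 + 2 * a) (c0.2 - 2 * a) (c0.2 + 2 * a)
    (by omega) (by omega) ((Bx_sub (by omega) le_rfl le_rfl le_rfl).trans hE)).2 (by omega)
    (by push_cast; omega)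
  have k1 := PrP_harris hpb E (HC_inc (c0.1 - 2 * a) (c0.1 + 2 * a) (c0.2 + a) (c0.2 + 2 * a))
    (HC_inc (c0.1 - 2 * a) (c0.1 + 2 * a) (c0.2 - 2 * a) (c0.2 - a))
  have k2 := PrP_harris hpb E (VC_inc (c0.1 - 2 * a) (c0.1 - a) (c0.2 - 2 * a) (c0.2 + 2 * a))
    (VC_inc (c0.1 + a) (c0.1 + 2 * a) (c0.2 - 2 * a) (c0.2 + 2 * a))
  have k3 := PrP_harris hpb E
    (Inc.and (HC_inc (c0.1 - 2 * a) (c0.1 + 2 * a) (c0.2 + a) (c0.2 + 2 * a))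
      (HC_inc (c0.1 - 2 * a) (c0.1 + 2 * a) (c0.2 - 2 * a) (c0.2 - a)))
    (Inc.and (VC_inc (c0.1 - 2 * a) (c0.1 - a) (c0.2 - 2 * a) (c0.2 + 2 * a))
      (VC_inc (c0.1 + a) (c0.1 + 2 * a) (c0.2 - 2 * a) (c0.2 + 2 * a)))
  have m1 := (mul_le_mul h1 h2 hc.le (hc.le.trans h1)).trans k1
  have m2 := (mul_le_mul h3 h4 hc.le (hc.le.trans h3)).trans k2
  exact (mul_le_mul m1 m2 (by positivity) (le_trans (by positivity) m1)).trans k3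

/-- Probabilistic gluing, two arms. The edge sets `E1`, `E2` are where the arms live. -/
theorem glue_prob_l (k : ℕ) {δ : ℝ} (hδ : 0 < δ) : ∃ c : ℝ, 0 < c ∧ ∀ p : ℝ, δ ≤ p → p ≤ 1 →
    ∀ N : ℕ, SqL δ p N → ∀ q : ℤ × ℤ → ℝ, Ql p q →
    ∀ (E E1 E2 : Finset (ℤ × ℤ)) (a A n : ℤ), 1 ≤ a → a ≤ A → 2 * A ≤ n → 2 * A ≤ N →
    2 * A ≤ k * (2 * a - 1) → BR 0 (2 * A) ⊆ E → E1 ⊆ E → E2 ⊆ E →
    c * (PrP q E1 (Arm (2 * a)) * PrP q E2 (Arm2 A n)) ≤ PrP q E (Arm n) := by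
  obtain ⟨c1, hc1, hR⟩ := ring_l hδ
  obtain ⟨c2, hc2, hH⟩ := rsw_l k hδ
  refine ⟨c1 * c1 * c2, by positivity,
    fun p hp p1 N hN q hq E E1 E2 a A n ha haA hAn hAN hk hE h1 h2 => ?_⟩
  have hpb := hq.pb (hδ.le.trans hp)
  have r1 := hR p hp p1 N hN q hq E 0 a ha (by omega) (by
    refine subset_trans ?_ hE
    unfold BR
    exact Bx_sub (by omega) (by omega) (by omega) (by omega))
  have r2 := hR p hp p1 N hN q hq E 0 A (by omega) (by omega) hE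
  have r3 := (hH p hp p1 N hN q hq E 0 (2 * A) (-(a - 1)) (a - 1) (by omega) (by omega) (by
    refine subset_trans ?_ hE
    unfold BR
    simp only [Prod.fst_zero, Prod.snd_zero]
    exact Bx_sub (by omega) (by omega) (by omega) (by omega))).1 (by omega) (by
      have e1 : (a - 1 - -(a - 1) + 1) = 2 * a - 1 := by ring
      rw [e1, sub_zero]
      exact hk)
  have a1 := PrP_inc hpb h1 (Arm_inc (2 * a))
  have a2 := PrP_inc hpb h2 (Arm2_inc A n)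
  have f1 := harris3P hpb E (Ring_inc 0 a) (Ring_inc 0 A) (HC_inc 0 (2 * A) (-(a - 1)) (a - 1))
  have f2 := PrP_harris hpb E (Arm_inc (2 * a)) (Arm2_inc A n)
  have f3 := PrP_harris hpb E
    (Inc.and (Ring_inc 0 a) (Inc.and (Ring_inc 0 A) (HC_inc 0 (2 * A) (-(a - 1)) (a - 1))))
    (Inc.and (Arm_inc (2 * a)) (Arm2_inc A n))
  have f4 : PrP q E (fun ω => (Ring 0 a ω ∧ Ring 0 A ω ∧ HC 0 (2 * A) (-(a - 1)) (a - 1) ω) ∧
      (Arm (2 * a) ω ∧ Arm2 A n ω)) ≤ PrP q E (Arm n) :=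
    PrP_mono hpb fun ω _ h => glue_arms ha haA hAn h.2.1 h.2.2 h.1.1 h.1.2.1 h.1.2.2
  have n1 := PrP_nonneg hpb E1 (Arm (2 * a))
  have n2 := PrP_nonneg hpb E2 (Arm2 A n)
  have m1 : c1 * c1 * c2 ≤ PrP q E (Ring 0 a) * PrP q E (Ring 0 A) *
      PrP q E (HC 0 (2 * A) (-(a - 1)) (a - 1)) :=
    mul_le_mul (mul_le_mul r1 r2 hc1.le (hc1.le.trans r1)) r3 hc2.le
      (mul_nonneg (hc1.le.trans r1) (hc1.le.trans r2))
  have m2 := m1.trans f1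
  have m3 := (mul_le_mul a1 a2 n2 (n1.trans a1)).trans f2
  exact (mul_le_mul m2 m3 (mul_nonneg n1 n2) (le_trans (by positivity) m2)).trans (f3.trans f4)

/-- Probabilistic extension of an arm. -/
theorem glue_prob1_l (k : ℕ) {δ : ℝ} (hδ : 0 < δ) : ∃ c : ℝ, 0 < c ∧ ∀ p : ℝ, δ ≤ p → p ≤ 1 →
    ∀ N : ℕ, SqL δ p N → ∀ q : ℤ × ℤ → ℝ, Ql p q →
    ∀ (E E1 : Finset (ℤ × ℤ)) (a n : ℤ), 1 ≤ a → 2 * a ≤ n → 2 * a ≤ N →
    n ≤ k * (2 * a - 1) → BR 0 n ⊆ E → E1 ⊆ E →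
    c * PrP q E1 (Arm (2 * a)) ≤ PrP q E (Arm n) := by
  obtain ⟨c1, hc1, hR⟩ := ring_l hδ
  obtain ⟨c2, hc2, hH⟩ := rsw_l k hδ
  refine ⟨c1 * c2, by positivity, fun p hp p1 N hN q hq E E1 a n ha han haN hk hE h1 => ?_⟩
  have hpb := hq.pb (hδ.le.trans hp)
  have r1 := hR p hp p1 N hN q hq E 0 a ha (by omega) (by
    refine subset_trans ?_ hE
    unfold BR
    exact Bx_sub (by omega) (by omega) (by omega) (by omega))
  have r3 := (hH p hp p1 N hN q hq E 0 n (-(a - 1)) (a - 1) (by omega) (by omega) (by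
    refine subset_trans ?_ hE
    unfold BR
    simp only [Prod.fst_zero, Prod.snd_zero]
    exact Bx_sub (by omega) (by omega) (by omega) (by omega))).1 (by omega) (by
      have e1 : (a - 1 - -(a - 1) + 1) = 2 * a - 1 := by ring
      rw [e1, sub_zero]
      exact hk)
  have a1 := PrP_inc hpb h1 (Arm_inc (2 * a))
  have f1 := harris3P hpb E (Ring_inc 0 a) (HC_inc 0 n (-(a - 1)) (a - 1)) (Arm_inc (2 * a))
  have f4 : PrP q E (fun ω => Ring 0 a ω ∧ HC 0 n (-(a - 1)) (a - 1) ω ∧ Arm (2 * a) ω) ≤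
      PrP q E (Arm n) := PrP_mono hpb fun ω _ h => glue_arm1 ha han h.2.2 h.1 h.2.1
  have n1 := PrP_nonneg hpb E1 (Arm (2 * a))
  have m1 : c1 * c2 ≤ PrP q E (Ring 0 a) * PrP q E (HC 0 n (-(a - 1)) (a - 1)) :=
    mul_le_mul r1 r3 hc2.le (hc1.le.trans r1)
  exact (mul_le_mul m1 a1 n1 (le_trans (by positivity) m1)).trans (f1.trans f4)

end Pool.Agent.H99.NC
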