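import Mathlib
import Pool.Agent.H99.NC.RingL
import Pool.Agent.H99.NC.OneArmP

set_option autoImplicit false
open Finset

/-! Stability of the one-arm probability between two densities `p1 ≤ p2` (both sides of `1/2`). -/

namespace Pool.Agent.H99.NC

open Pool.Agent.H75.Perc
open Pool.Agent.H47.NC (F4 Bq bq iq bdB RC piv_ends piv_F4 F4_local exit_bd)

theorem piv_large_l {δ : ℝ} (hδ : 0 < δ) : ∃ C : ℝ, 0 < C ∧ ∀ p : ℝ, δ ≤ p → p ≤ 1 →
    ∀ M : ℕ, SqL δ p M → ∀ q : ℤ × ℤ → ℝ, Ql p q → ∀ (x y : ℤ × ℤ) (r N : ℤ),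
    IsUnit4 (y - x) → 16 ≤ r → 4 * r ≤ N → 4 * r ≤ M → inR 0 r x → ¬ inR 0 (r - 1) x →
    PrP q (BR 0 N) (Piv (Arm N) (x + y)) ≤
      C * (PrP q (Bq x (r / 2)) (F4 x y (r / 2)) * PrP q (BR 0 N) (Arm N)) := by
  obtain ⟨c, hc, hg⟩ := glue_prob_l 64 hδ
  refine ⟨1 / c, by positivity, fun p hp p1 M hM q hq x y r N hxy hr hN hrM hx hx' => ?_⟩
  have hpb := hq.pb (hδ.le.trans hp)
  have g := hg p hp p1 M hM q hq (BR 0 N) (BR 0 (2 * (r / 8))) (BR 0 N \ BR 0 (2 * r - 1)) (r / 8)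
    (2 * r) N (by omega) (by omega) (by omega) (by omega) (by push_cast; omega)
    (by unfold BR; exact Bx_sub (by omega) (by omega) (by omega) (by omega))
    (by unfold BR; exact Bx_sub (by omega) (by omega) (by omega) (by omega)) sdiff_subset
  have s1 : BR 0 (2 * (r / 8)) ⊆ BR 0 N := by
    unfold BR; exact Bx_sub (by omega) (by omega) (by omega) (by omega)
  have hx2 := hx
  have hx2' := hx'
  rw [inR_iff] at hx2 hx2'
  simp only [Prod.fst_zero, Prod.snd_zero] at hx2 hx2'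
  have s2 : Bq x (r / 2) ⊆ BR 0 N := by
    unfold BR Bq; simp only [Prod.fst_zero, Prod.snd_zero]
    exact Bx_sub (by omega) (by omega) (by omega) (by omega)
  have d12 : Disjoint (BR 0 (2 * (r / 8))) (Bq x (r / 2)) := by
    rw [disjoint_left]
    intro l h1 h2
    unfold BR at h1
    unfold Bq at h2
    rw [mem_Bx] at h1 h2
    simp only [Prod.fst_zero, Prod.snd_zero] at h1
    omega
  have t1 : BR 0 (2 * (r / 8)) ⊆ BR 0 (2 * r - 1) := by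
    unfold BR; exact Bx_sub (by omega) (by omega) (by omega) (by omega)
  have t2 : Bq x (r / 2) ⊆ BR 0 (2 * r - 1) := by
    unfold BR Bq; simp only [Prod.fst_zero, Prod.snd_zero]
    exact Bx_sub (by omega) (by omega) (by omega) (by omega)
  have d13 : Disjoint (BR 0 (2 * (r / 8))) (BR 0 N \ BR 0 (2 * r - 1)) :=
    disjoint_of_subset_left t1 disjoint_sdiff
  have d23 : Disjoint (Bq x (r / 2)) (BR 0 N \ BR 0 (2 * r - 1)) :=
    disjoint_of_subset_left t2 disjoint_sdiff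
  have i3 := Pool.Agent.H69.NC.PQ_indep3 (q := q) s1 s2 sdiff_subset d12 d13 d23
    (Arm (2 * (r / 8))) (F4 x y (r / 2)) (Arm2 (2 * r) N)
  simp only [Pool.Agent.H69.NC.PQ_eq] at i3
  have le1 : PrP q (BR 0 N) (Piv (Arm N) (x + y)) ≤ PrP q (BR 0 N) (fun ω =>
      Arm (2 * (r / 8)) (ω ∩ BR 0 (2 * (r / 8))) ∧ F4 x y (r / 2) (ω ∩ Bq x (r / 2)) ∧
      Arm2 (2 * r) N (ω ∩ (BR 0 N \ BR 0 (2 * r - 1)))) := by
    refine PrP_mono hpb fun ω hω h => ?_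
    have := piv_split hxy hr hN hx hx' h
    have e1 : ω ∩ (BR 0 N \ BR 0 (2 * r - 1)) = ω \ BR 0 (2 * r - 1) := by
      ext l
      simp only [mem_inter, mem_sdiff]
      constructor
      · rintro ⟨a, -, b⟩; exact ⟨a, b⟩
      · rintro ⟨a, b⟩; exact ⟨a, hω a, b⟩
    rw [e1]
    exact this
  rw [i3] at le1
  refine le1.trans ?_
  have nF := PrP_nonneg hpb (Bq x (r / 2)) (F4 x y (r / 2))
  have g' : PrP q (BR 0 (2 * (r / 8))) (Arm (2 * (r / 8))) *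
      PrP q (BR 0 N \ BR 0 (2 * r - 1)) (Arm2 (2 * r) N) ≤ 1 / c * PrP q (BR 0 N) (Arm N) := by
    rw [one_div, inv_mul_eq_div, le_div_iff₀ hc, mul_comm]
    exact g
  have := mul_le_mul_of_nonneg_left g' nF
  nlinarith [this]

/-- four-strand bound for all densities in `[p1, p2]` -/
def F4R (p1 p2 K : ℝ) (k : ℤ) : Prop :=
  ∀ q : ℤ × ℤ → ℝ, (∀ e, p1 ≤ q e ∧ q e ≤ p2) → ∀ (x y : ℤ × ℤ) (m : ℤ), IsUnit4 (y - x) →
    1 ≤ m → m ≤ k → PrP q (Bq x m) (F4 x y m) ≤ K * (m : ℝ) ^ (-(5 / 4) : ℝ)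

theorem piv_all_l {δ : ℝ} (hδ : 0 < δ) : ∃ C : ℝ, 0 < C ∧ ∀ (p1 p2 K : ℝ) (k : ℤ), δ ≤ p1 →
    p1 ≤ 1 → p2 ≤ 1 → 0 ≤ K → 1 ≤ k → ∀ M : ℕ, 4 * k ≤ M → SqL δ p1 M → F4R p1 p2 K k →
    ∀ q : ℤ × ℤ → ℝ, (∀ e, p1 ≤ q e ∧ q e ≤ p2) → ∀ l ∈ BR 0 k,
    PrP q (BR 0 (4 * k)) (Piv (Arm (4 * k)) l) ≤
      C * (1 + K) * (gw (l.1 / 2) * gw (l.2 / 2)) * PrP q (BR 0 (4 * k)) (Arm (4 * k)) := by
  obtain ⟨C1, hC1, h1⟩ := piv_large_l hδ
  refine ⟨C1 * 8 + 64 / δ, by positivity,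
    fun p1 p2 K k hp hp1 hp2 hK hk M hkM hM hF q hq l hl => ?_⟩
  have hQ : Ql p1 q := fun e => ⟨(hq e).1, (hq e).2.trans hp2⟩
  have hpb := hQ.pb (hδ.le.trans hp)
  have hA := PrP_nonneg hpb (BR 0 (4 * k)) (Arm (4 * k))
  have hl' := hl
  unfold BR at hl'
  rw [mem_Bx] at hl'
  simp only [Prod.fst_zero, Prod.snd_zero] at hl'
  have hun := unit_lo_hi hl'.2.2
  have hle : lo l + hi l = l := lo_add_hi
  obtain ⟨r, hr1, hr2, hr3⟩ : ∃ r : ℤ, |l.1 / 2| ≤ r ∧ |l.2 / 2| ≤ r ∧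
      (r = |l.1 / 2| ∨ r = |l.2 / 2|) := by
    rcases le_total |l.1 / 2| |l.2 / 2| with h | h
    · exact ⟨_, h, le_rfl, Or.inr rfl⟩
    · exact ⟨_, le_rfl, h, Or.inl rfl⟩
  have hr0 : 0 ≤ r := (abs_nonneg _).trans hr1
  have hrk : r ≤ k := by
    rcases hr3 with h | h
    · rw [h, abs_le]; omega
    · rw [h, abs_le]; omega
  have hg := gw_mul hr1 hr2 hr0
  have hrR : (0 : ℝ) ≤ (r : ℝ) := by exact_mod_cast hr0
  have hkR : (1 : ℝ) ≤ (k : ℝ) := by exact_mod_cast hk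
  have hpw : 0 < ((r : ℝ) + 1) ^ (-(5 / 4) : ℝ) := Real.rpow_pos_of_pos (by linarith) _
  have hgg : 0 ≤ gw (l.1 / 2) * gw (l.2 / 2) := mul_nonneg (gw_nonneg _) (gw_nonneg _)
  have hd : 0 < 64 / δ := by positivity
  by_cases h16 : 16 ≤ r
  · have hx : inR 0 r (lo l) := by
      rw [inR_iff]; unfold lo; simp only [Prod.fst_zero, Prod.snd_zero]
      rw [abs_le] at hr1 hr2; omega
    have hx' : ¬ inR 0 (r - 1) (lo l) := by
      rw [inR_iff]; unfold lo; simp only [Prod.fst_zero, Prod.snd_zero]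
      rintro ⟨h2, h3⟩
      rcases hr3 with h | h
      · have : |l.1 / 2| ≤ r - 1 := abs_le.2 (by omega)
        omega
      · have : |l.2 / 2| ≤ r - 1 := abs_le.2 (by omega)
        omega
    have h2 := h1 p1 hp hp1 M hM q hQ (lo l) (hi l) r (4 * k) hun h16 (by omega) (by omega) hx hx'
    rw [hle] at h2
    have h3 := hF q hq (lo l) (hi l) (r / 2) hun (by omega) (by omega)
    have h4 : (((r / 2 : ℤ)) : ℝ) ^ (-(5 / 4) : ℝ) ≤ 8 * ((r : ℝ) + 1) ^ (-(5 / 4) : ℝ) := by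
      have h5 : ((r : ℝ) + 1) / 4 ≤ ((r / 2 : ℤ) : ℝ) := by
        have : r + 1 ≤ 4 * (r / 2) := by omega
        have : ((r + 1 : ℤ) : ℝ) ≤ ((4 * (r / 2) : ℤ) : ℝ) := by exact_mod_cast this
        push_cast at this
        linarith
      have h6 : ((r / 2 : ℤ) : ℝ) ^ (-(5 / 4) : ℝ) ≤ (((r : ℝ) + 1) / 4) ^ (-(5 / 4) : ℝ) :=
        Real.rpow_le_rpow_of_nonpos (by linarith) h5 (by norm_num)
      refine h6.trans ?_
      rw [div_eq_mul_inv, mul_comm, Real.mul_rpow (by norm_num) (by linarith)]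
      refine mul_le_mul_of_nonneg_right ?_ hpw.le
      rw [Real.inv_rpow (by norm_num), ← Real.rpow_neg (by norm_num), neg_neg]
      calc (4 : ℝ) ^ (5 / 4 : ℝ) ≤ (4 : ℝ) ^ (3 / 2 : ℝ) :=
            Real.rpow_le_rpow_of_exponent_le (by norm_num) (by norm_num)
        _ = 8 := by
            rw [show (4 : ℝ) = 2 ^ (2 : ℝ) by norm_num, ← Real.rpow_mul (by norm_num)]
            norm_num
    have h7 : PrP q (Bq (lo l) (r / 2)) (F4 (lo l) (hi l) (r / 2)) ≤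
        K * (8 * (gw (l.1 / 2) * gw (l.2 / 2))) :=
      h3.trans (mul_le_mul_of_nonneg_left (h4.trans (by linarith)) hK)
    refine h2.trans ?_
    have h8 := mul_le_mul_of_nonneg_left (mul_le_mul_of_nonneg_right h7 hA) hC1.le
    refine h8.trans ?_
    have h9 : 0 ≤ (gw (l.1 / 2) * gw (l.2 / 2)) * PrP q (BR 0 (4 * k)) (Arm (4 * k)) :=
      mul_nonneg hgg hA
    have h10 : 0 ≤ C1 * 8 + 64 / δ * (1 + K) := by positivity
    nlinarith [mul_nonneg h10 h9]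
  · have hlE : l ∈ BR 0 (4 * k) := by
      refine (show BR 0 k ⊆ BR 0 (4 * k) from ?_) hl
      unfold BR; exact Bx_sub (by omega) (by omega) (by omega) (by omega)
    have h2 := Pool.Agent.H69.NC.PQ_insert_ge (q := q) hpb hlE (Arm (4 * k))
    simp only [Pool.Agent.H69.NC.PQ_eq] at h2
    have h3 : PrP q (BR 0 (4 * k)) (Piv (Arm (4 * k)) l) ≤
        PrP q (BR 0 (4 * k)) (fun ω => Arm (4 * k) (insert l ω)) :=
      PrP_mono hpb fun ω _ h => h.1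
    have h4 := (hq l).1
    have h5 : 0 ≤ PrP q (BR 0 (4 * k)) (fun ω => Arm (4 * k) (insert l ω)) :=
      PrP_nonneg hpb _ _
    have h6 : PrP q (BR 0 (4 * k)) (Piv (Arm (4 * k)) l) ≤
        1 / δ * PrP q (BR 0 (4 * k)) (Arm (4 * k)) := by
      rw [one_div_mul_eq_div, le_div_iff₀ hδ, mul_comm]
      have h7 : δ * PrP q (BR 0 (4 * k)) (fun ω => Arm (4 * k) (insert l ω)) ≤
          q l * PrP q (BR 0 (4 * k)) (fun ω => Arm (4 * k) (insert l ω)) :=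
        mul_le_mul_of_nonneg_right (hp.trans h4) h5
      have h8 := mul_le_mul_of_nonneg_left h3 hδ.le
      linarith
    have h7 : (1 : ℝ) ≤ 64 * ((r : ℝ) + 1) ^ (-(5 / 4) : ℝ) := by
      have h8 : (r : ℝ) + 1 ≤ 16 := by
        have : r + 1 ≤ 16 := by omega
        have : ((r + 1 : ℤ) : ℝ) ≤ ((16 : ℤ) : ℝ) := by exact_mod_cast this
        push_cast at this
        linarith
      have h9 : (16 : ℝ) ^ (-(5 / 4) : ℝ) ≤ ((r : ℝ) + 1) ^ (-(5 / 4) : ℝ) :=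
        Real.rpow_le_rpow_of_nonpos (by linarith) h8 (by norm_num)
      have h10 : (16 : ℝ) ^ (-(5 / 4) : ℝ) = 1 / 32 := by
        rw [show (16 : ℝ) = 2 ^ (4 : ℝ) by norm_num, ← Real.rpow_mul (by norm_num)]
        norm_num
      rw [h10] at h9
      linarith
    have h8 : (1 : ℝ) ≤ 64 * (gw (l.1 / 2) * gw (l.2 / 2)) := by linarith
    refine h6.trans ?_
    have h9 := mul_le_mul_of_nonneg_left (mul_le_mul_of_nonneg_right h8 hA)
      (show (0 : ℝ) ≤ 1 / δ by positivity)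
    have h10 : 0 ≤ (gw (l.1 / 2) * gw (l.2 / 2)) * PrP q (BR 0 (4 * k)) (Arm (4 * k)) :=
      mul_nonneg hgg hA
    have h11 : 0 ≤ C1 * 8 * (1 + K) + 64 / δ * K := by positivity
    have h12 : 1 / δ * (64 * (gw (l.1 / 2) * gw (l.2 / 2)) *
        PrP q (BR 0 (4 * k)) (Arm (4 * k))) = 64 / δ * ((gw (l.1 / 2) * gw (l.2 / 2)) *
        PrP q (BR 0 (4 * k)) (Arm (4 * k))) := by ring
    rw [h12, one_mul] at h9
    nlinarith [mul_nonneg h11 h10, h9]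

/-- The one-arm probability at scale one. -/
lemma arm_one_l {p : ℝ} (h0 : 0 ≤ p) (h1 : p ≤ 1) : p ≤ PrP (cp p) (BR 0 1) (Arm 1) := by
  have hq : Pb (cp p) := cp_Pb h0 h1
  have he : ((1, 0) : ℤ × ℤ) ∈ BR 0 1 := by
    unfold BR; rw [mem_Bx]; simp only [Prod.fst_zero, Prod.snd_zero]; omega
  have h := Pool.Agent.H69.NC.PQ_insert_ge (q := cp p) hq he (Arm 1)
  simp only [Pool.Agent.H69.NC.PQ_eq] at h
  have h1 : PrP (cp p) (BR 0 1) (fun ω => Arm 1 (insert (1, 0) ω)) = 1 := by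
    refine (PrP_congr (B := fun _ => True) fun ω _ => iff_true_intro ?_).trans (PrP_true _ _)
    refine ⟨(1, 0), ?_, ?_⟩
    · rw [inR_iff]; simp only [Prod.fst_zero, Prod.snd_zero]; omega
    · refine Relation.ReflTransGen.single ⟨Or.inl (by simp), ?_⟩
      rw [zero_add]; exact mem_insert_self _ _
  rw [h1] at h
  have : cp p (1, 0) = p := rfl
  rw [this] at h
  linarith

open Classical in
/-- Stability of the one-arm probability between the densities `p1 ≤ p2`, with the four-strand bound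
and the crossing probabilities at density `p1` as hypotheses. -/
theorem one_arm_stab_l {δ : ℝ} (hδ : 0 < δ) : ∃ C : ℝ, 0 < C ∧ ∀ (p1 p2 K : ℝ) (k : ℤ),
    δ ≤ p1 → p1 ≤ p2 → p2 ≤ 1 → 0 ≤ K → 1 ≤ k → ∀ M : ℕ, 4 * k ≤ M → SqL δ p1 M →
    F4R p1 p2 K k → PrP (cp p2) (BR 0 k) (Arm k) ≤
      C * Real.exp (C * (1 + K) * ((p2 - p1) * (k : ℝ) ^ (3 / 4 : ℝ))) *
        PrP (cp p1) (BR 0 k) (Arm k) := by
  obtain ⟨C1, hC1, h1⟩ := piv_all_l hδ
  obtain ⟨c, hc, h2⟩ := glue_prob1_l 12 hδ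
  refine ⟨576 * C1 + 1 / c + 1 / δ, by positivity,
    fun p1 p2 K k hp hpp hp1 hK hk M hkM hM hF => ?_⟩
  have hkR : (1 : ℝ) ≤ (k : ℝ) := by exact_mod_cast hk
  have hp0 : 0 < p1 := hδ.trans_le hp
  have hQh : Pb (cp p1) := cp_Pb hp0.le (hpp.trans hp1)
  have hQp : Pb (cp p2) := cp_Pb (by linarith) hp1
  have hkp : 0 ≤ (k : ℝ) ^ (3 / 4 : ℝ) := Real.rpow_nonneg (by linarith) _
  have hexp : 0 ≤ (p2 - p1) * (k : ℝ) ^ (3 / 4 : ℝ) := mul_nonneg (by linarith) hkp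
  have hE1 : 1 ≤ Real.exp ((576 * C1 + 1 / c + 1 / δ) * (1 + K) *
      ((p2 - p1) * (k : ℝ) ^ (3 / 4 : ℝ))) := by
    refine Real.one_le_exp ?_
    positivity
  have hH := PrP_nonneg hQh (BR 0 k) (Arm k)
  rcases eq_or_lt_of_le hk with hk1 | hk2
  · -- k = 1
    subst hk1
    have h3 := (hp.trans (arm_one_l hp0.le (hpp.trans hp1)))
    have h4 := PrP_le_one hQp (BR 0 1) (Arm 1)
    have h5 : 1 / δ ≤ (576 * C1 + 1 / c + 1 / δ) * Real.exp ((576 * C1 + 1 / c + 1 / δ) * (1 + K) *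
        ((p2 - p1) * ((1 : ℤ) : ℝ) ^ (3 / 4 : ℝ))) := by
      have h6 : (0 : ℝ) ≤ 576 * C1 + 1 / c := by positivity
      have h7 : (0 : ℝ) < 1 / δ := by positivity
      nlinarith
    have h6 : 1 ≤ 1 / δ * PrP (cp p1) (BR 0 1) (Arm 1) := by
      rw [one_div_mul_eq_div, one_le_div hδ]; exact h3
    have h7 := mul_le_mul_of_nonneg_right h5 hH
    linarith
  -- the family of densities
  set q : ℝ → ℤ × ℤ → ℝ := fun s e => if e ∈ BR 0 k then s else cp p1 e with hqdef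
  have hq1 : ∀ s, p1 ≤ s → s ≤ p2 → ∀ e, p1 ≤ q s e ∧ q s e ≤ p2 := by
    intro s h3 h4 e
    simp only [hqdef]
    split_ifs with h
    · exact ⟨h3, h4⟩
    · exact ⟨le_rfl, hpp⟩
  set N : ℤ := 4 * k with hN
  set f : ℝ → ℝ := fun s => PrP (q s) (BR 0 N) (Arm N) with hf
  have hder : ∀ s, HasDerivAt f
      (∑ e ∈ (BR 0 N).filter (· ∈ BR 0 k), PrP (q s) (BR 0 N) (Piv (Arm N) e)) s := by
    intro s
    have h := russo_part (BR 0 N) (BR 0 k) (cp p1) (Arm_inc N) s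
    simp only [hf, hqdef]
    convert h using 2
  have hbound : ∀ s, p1 ≤ s → s ≤ p2 →
      (∑ e ∈ (BR 0 N).filter (· ∈ BR 0 k), PrP (q s) (BR 0 N) (Piv (Arm N) e)) ≤
        (576 * C1 * (1 + K) * (k : ℝ) ^ (3 / 4 : ℝ)) * f s := by
    intro s h3 h4
    have hs : Pb (q s) := fun e => ⟨by linarith [(hq1 s h3 h4 e).1], (hq1 s h3 h4 e).2.trans hp1⟩
    have hfs : 0 ≤ f s := PrP_nonneg hs _ _
    calc (∑ e ∈ (BR 0 N).filter (· ∈ BR 0 k), PrP (q s) (BR 0 N) (Piv (Arm N) e))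
        ≤ ∑ e ∈ BR 0 k, PrP (q s) (BR 0 N) (Piv (Arm N) e) :=
          sum_le_sum_of_subset_of_nonneg (fun e he => (mem_filter.1 he).2)
            fun e _ _ => PrP_nonneg hs _ _
      _ ≤ ∑ e ∈ BR 0 k, C1 * (1 + K) * (gw (e.1 / 2) * gw (e.2 / 2)) * f s :=
          sum_le_sum fun e he =>
            h1 p1 p2 K k hp (hpp.trans hp1) hp1 hK hk M hkM hM hF (q s) (hq1 s h3 h4) e he
      _ = C1 * (1 + K) * (∑ e ∈ BR 0 k, gw (e.1 / 2) * gw (e.2 / 2)) * f s := by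
          rw [← sum_mul, ← mul_sum]
      _ ≤ C1 * (1 + K) * (576 * (k : ℝ) ^ (3 / 4 : ℝ)) * f s := by
          refine mul_le_mul_of_nonneg_right ?_ hfs
          exact mul_le_mul_of_nonneg_left (sum_BR hk) (by positivity)
      _ = (576 * C1 * (1 + K) * (k : ℝ) ^ (3 / 4 : ℝ)) * f s := by ring
  have hG := gronwall' hpp (fun s _ _ => hder s) hbound
  -- left end
  have hleft : f p1 ≤ PrP (cp p1) (BR 0 k) (Arm k) := by
    have e1 : q p1 = cp p1 := by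
      funext e; simp only [hqdef, cp]; split_ifs <;> rfl
    simp only [hf]
    rw [e1, ← PrP_restrict (cp p1) (E := BR 0 N) (E1 := BR 0 k)
      (by unfold BR; exact Bx_sub (by omega) (by omega) (by omega) (by omega))]
    refine PrP_mono hQh fun ω _ h => ?_
    obtain ⟨z, h3, h4⟩ := h
    exact arm_local (by omega) (fun h5 => h3 (by rw [inR_iff] at h5 ⊢; omega)) h4
  -- right end
  have hQq : Ql p1 (q p2) := fun e => ⟨(hq1 p2 hpp le_rfl e).1, (hq1 p2 hpp le_rfl e).2.trans hp1⟩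
  have hright : c * PrP (cp p2) (BR 0 k) (Arm k) ≤ f p2 := by
    have h3 := h2 p1 hp (hpp.trans hp1) M hM (q p2) hQq (BR 0 N) (BR 0 k) (k / 2) N (by omega)
      (by omega) (by omega) (by push_cast; omega) le_rfl
      (by unfold BR; exact Bx_sub (by omega) (by omega) (by omega) (by omega))
    refine le_trans (mul_le_mul_of_nonneg_left ?_ hc.le) h3
    have e1 : PrP (cp p2) (BR 0 k) (Arm k) = PrP (q p2) (BR 0 k) (Arm k) := by
      refine Ex_congr_q (fun e he => ?_) _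
      simp only [hqdef, if_pos he, cp]
    rw [e1]
    exact PrP_mono (hQq.pb hp0.le) fun ω _ h => Arm_anti (by omega) h
  have h3 : c * PrP (cp p2) (BR 0 k) (Arm k) ≤ PrP (cp p1) (BR 0 k) (Arm k) *
      Real.exp ((576 * C1 * (1 + K) * (k : ℝ) ^ (3 / 4 : ℝ)) * (p2 - p1)) :=
    hright.trans (hG.trans (mul_le_mul_of_nonneg_right hleft (Real.exp_pos _).le))
  have h4 : Real.exp ((576 * C1 * (1 + K) * (k : ℝ) ^ (3 / 4 : ℝ)) * (p2 - p1)) ≤
      Real.exp ((576 * C1 + 1 / c + 1 / δ) * (1 + K) * ((p2 - p1) * (k : ℝ) ^ (3 / 4 : ℝ))) := by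
    rw [Real.exp_le_exp]
    have h5 : 0 ≤ (1 / c + 1 / δ) * (1 + K) * ((p2 - p1) * (k : ℝ) ^ (3 / 4 : ℝ)) := by
      positivity
    linarith
  have h5 : PrP (cp p2) (BR 0 k) (Arm k) ≤ 1 / c * (PrP (cp p1) (BR 0 k) (Arm k) *
      Real.exp ((576 * C1 + 1 / c + 1 / δ) * (1 + K) * ((p2 - p1) * (k : ℝ) ^ (3 / 4 : ℝ)))) := by
    rw [one_div_mul_eq_div, le_div_iff₀ hc, mul_comm]
    exact h3.trans (mul_le_mul_of_nonneg_left h4 hH)
  refine h5.trans ?_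
  have h6 : 0 ≤ (576 * C1 + 1 / δ) * (PrP (cp p1) (BR 0 k) (Arm k) *
      Real.exp ((576 * C1 + 1 / c + 1 / δ) * (1 + K) *
        ((p2 - p1) * (k : ℝ) ^ (3 / 4 : ℝ)))) := by
    positivity
  linarith

/-- The one-arm probability in the near-critical window below `1/2`. -/
theorem one_arm_window_low (K a : ℝ) (hK : 0 ≤ K) {δ : ℝ} (hδ : 0 < δ) :
    ∃ C : ℝ, 0 < C ∧ ∀ (p : ℝ) (n : ℕ), 1 ≤ n → δ ≤ p → p ≤ 1 / 2 →
    (1 / 2 - p) * (n : ℝ) ^ (3 / 4 : ℝ) ≤ a → SqL δ p (4 * n) → F4R p (1 / 2) K n →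
    Pr (Bx (-n) n (-n) n) (armF n) ≤ C * PrP (cp p) (Bx (-n) n (-n) n) (armF n) := by
  obtain ⟨C, hC, h⟩ := one_arm_stab_l hδ
  refine ⟨C * Real.exp (C * (1 + K) * a), by positivity, fun p n hn hp hp1 hw hS hF => ?_⟩
  have h1 := h p (1 / 2) K n hp hp1 (by norm_num) hK (by exact_mod_cast hn) (4 * n)
    (by push_cast; exact le_rfl) hS hF
  rw [← Arm_armF hn, ← Arm_armF hn] at h1
  have e1 : PrP (cp (1 / 2)) (Bx (-n) n (-n) n) (armF n) = Pr (Bx (-n) n (-n) n) (armF n) :=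
    PrP_half _ _
  rw [e1] at h1
  have h2 : 0 ≤ PrP (cp p) (Bx (-n) n (-n) n) (armF n) :=
    PrP_nonneg (cp_Pb (hδ.le.trans hp) (by linarith)) _ _
  refine h1.trans (mul_le_mul_of_nonneg_right ?_ h2)
  refine mul_le_mul_of_nonneg_left ?_ hC.le
  rw [Real.exp_le_exp]
  have e2 : (((n : ℤ)) : ℝ) = (n : ℝ) := by simp
  rw [e2]
  exact mul_le_mul_of_nonneg_left hw (by positivity)

end Pool.Agent.H99.NC
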